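import Mathlib
import Pool.Agent.H70.W.WallBlk
import Pool.Agent.H35.W.Couple

set_option autoImplicit false
open Finset

/-! # Half circuits at a wall: charts and probability in a coin model

`PB_read` : reading the states of the labels of `T` through an injective map with flips is natural
percolation. `FlatV` : flat wall in the chart `chV` (ceiling with a step), `CvxNE` : convex corner north east.
`Ch` : what `blk_prim` needs. `hr_prob` : the probability that there is no half circuit. -/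

namespace Pool.Agent.H97.W

open Pool.Agent.H75.Perc Pool.Agent.H75.TwoArm Pool.Agent.H75.Four
open Pool.Agent.H99.NC (BR inR inR_iff)
open Pool.Agent.H70.W
open Pool.Agent.H58.W (PB PB_restrict PB_inj PB_congr PB_mono)
open Pool.Agent.H35.W (PB_image Pr_flip)

section read

variable {α α' β : Type*} [DecidableEq α] [DecidableEq α'] [DecidableEq β]

open Classical in
/-- **Reading the states through an injective map with flips.** -/
theorem PB_read {E0 : Finset α} {b : α → β} {T : Finset α'} {ψ : α' → α} (g : α' → Prop)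
    (hψ : ∀ e ∈ T, ψ e ∈ E0) (hb : ∀ e ∈ T, ∀ e' ∈ T, b (ψ e) = b (ψ e') → e = e')
    (Q : Finset α' → Prop) :
    PB E0 b (fun ω => Q (T.filter fun e => (ψ e ∈ ω ↔ g e))) = Pr T Q := by
  have hO : T.image ψ ⊆ E0 := by
    intro x hx
    obtain ⟨e, he, rfl⟩ := mem_image.1 hx
    exact hψ e he
  have hinj : ∀ e ∈ T, ∀ e' ∈ T, ψ e = ψ e' → e = e' := fun e he e' he' h =>
    hb e he e' he' (by rw [h])
  have e1 : PB E0 b (fun ω => Q (T.filter fun e => (ψ e ∈ ω ↔ g e))) =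
      PB E0 b (fun ω => (fun η => Q (T.filter fun e => (ψ e ∈ η ↔ g e))) (ω ∩ T.image ψ)) := by
    apply PB_congr
    intro ω _
    have : (T.filter fun e => (ψ e ∈ ω ↔ g e)) =
        T.filter fun e => (ψ e ∈ ω ∩ T.image ψ ↔ g e) := by
      apply filter_congr
      intro e he
      have : ψ e ∈ ω ∩ T.image ψ ↔ ψ e ∈ ω := by
        rw [mem_inter]
        exact ⟨fun h => h.1, fun h => ⟨h, mem_image_of_mem _ he⟩⟩
      rw [this]
    beta_reduce
    rw [this]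
  rw [e1, PB_restrict hO b (fun η => Q (T.filter fun e => (ψ e ∈ η ↔ g e))), PB_image,
    PB_inj (b := b ∘ ψ) (fun l hl l' hl' h => hb l hl l' hl' h), ← Pr_flip (F := T.filter fun e => ¬ g e)
      (filter_subset _ _) Q]
  apply Pr_congr
  intro ω hω
  have : (T.filter fun e => (ψ e ∈ ω.image ψ ↔ g e)) = symmDiff ω (T.filter fun e => ¬ g e) := by
    ext e
    rw [mem_filter, mem_symmDiff, mem_filter]
    have h1 : e ∈ T → (ψ e ∈ ω.image ψ ↔ e ∈ ω) := by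
      intro he
      rw [mem_image]
      constructor
      · rintro ⟨e', h2, h3⟩
        exact hinj e' (hω h2) e he h3 ▸ h2
      · exact fun h => ⟨e, h, rfl⟩
    by_cases he : e ∈ T
    · rw [h1 he]
      tauto
    · have : e ∉ ω := fun h => he (hω h)
      tauto
  rw [this]

end read

/-! ### Charts -/

variable {E : Finset (ℤ × ℤ)} {z : ℤ × ℤ} {B N M ρ : ℤ} {Φ : SyC}

/-- **What the block needs**: a room in the chart `Φ`, the directions `(s1, t1)` (upper) and `(s2, t2)` (lower)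
of the two walls. -/
structure Ch (Φ : SyC) (E : Finset (ℤ × ℤ)) (z : ℤ × ℤ) (B N M s1 t1 s2 t2 : ℤ) : Prop where
  room : RoomW Φ E z B N
  shape : Shape (KL Φ E z B) z N M s1 t1 s2 t2 ∨ Shape (KL Φ E z B) z N M s2 t2 s1 t1
  upr : ∀ ρ p, Sd z ρ s1 t1 p → (Φ.g z).2 + ρ < (Φ.g p).2
  lwr : ∀ ρ p, Sd z ρ s2 t2 p → (Φ.g p).2 < (Φ.g z).2 - ρ

/-- flat walls, vertical chart: inner normal `(s, t)` -/
structure FlatV (E : Finset (ℤ × ℤ)) (z : ℤ × ℤ) (s t B N : ℤ) : Prop where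
  odd : ∀ l ∈ E, (l.1 + l.2) % 2 = 1
  lo : ∀ l ∈ E, l ∈ BR z B → 1 ≤ s * (l.1 - 2 * z.1) + t * (l.2 - 2 * z.2)
  up : ∀ l ∈ BR z B, 2 * N + 1 ≤ s * (l.1 - 2 * z.1) + t * (l.2 - 2 * z.2) → l ∈ E
  cl : ∀ l ∈ E, ∀ l' ∈ BR z B, l ∈ BR z B → |l'.1 - l.1| ≤ t * (l'.2 - l.2) → l' ∈ E

lemma FlatV.roomW {s t : ℤ} (hs : s = 1 ∨ s = -1) (ht : t = 1 ∨ t = -1)
    (F : FlatV E z s t B N) : RoomW (chV t) E z B (N + 1) := by
  refine ⟨F.odd, fun l h1 l' h2 h3 h4 => F.cl l h1 l' h2 h3 ?_, fun l h1 h2 => ?_,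
    fun l h1 h2 => F.up l h1 ?_⟩
  · rw [(chV_G ht l).1, (chV_G ht l).2, (chV_G ht l').1, (chV_G ht l').2] at h4
    rw [mul_sub]
    exact h4
  · have h3 := F.lo l h1 h2
    rw [(chV_G ht l).1, (chV_G ht l).2, (chV_g ht z).1, (chV_g ht z).2]
    rcases hs with rfl | rfl <;> rcases ht with rfl | rfl <;>
      rcases abs_cases (l.1 - 2 * z.1) with h5 | h5 <;> omega
  · rw [(chV_G ht l).1, (chV_G ht l).2, (chV_g ht z).1, (chV_g ht z).2] at h2
    rcases hs with rfl | rfl <;> rcases ht with rfl | rfl <;>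
      rcases abs_cases (l.1 - 2 * z.1) with h5 | h5 <;> omega

lemma FlatV.shape {s t : ℤ} (hs : s = 1 ∨ s = -1) (ht : t = 1 ∨ t = -1)
    (F : FlatV E z s t B N) (hM : M + 1 ≤ B) :
    Shape (KL (chV t) E z B) z N M (-s) t s (-t) := by
  refine Or.inl ⟨hs, ht, rfl, rfl, fun u hu h => ?_, fun u hu hK => ?_⟩
  · intro l h1 h2 h3
    have h4 := F.lo l h1 h2
    have g1 := congrArg Prod.fst h3
    have g2 := congrArg Prod.snd h3
    rw [(chV_G ht l).1, (chV_g ht u).1] at g1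
    rw [(chV_G ht l).2, (chV_g ht u).2] at g2
    rcases hs with rfl | rfl <;> rcases ht with rfl | rfl <;> omega
  · by_contra h
    push Not at h
    obtain ⟨l, hl⟩ := exG (chV t) (2 * ((chV t).g u).1 - 1, 2 * ((chV t).g u).2)
    rw [inR_iff] at hu
    have g1 := congrArg Prod.fst hl
    have g2 := congrArg Prod.snd hl
    rw [(chV_G ht l).1, (chV_g ht u).1] at g1
    rw [(chV_G ht l).2, (chV_g ht u).2] at g2
    have h2 : l ∈ BR z B := by
      rw [mem_BR]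
      rcases ht with rfl | rfl <;> omega
    refine hK l (F.up l h2 ?_) h2 hl
    rcases hs with rfl | rfl <;> rcases ht with rfl | rfl <;> omega

lemma Shape_up {K : ℤ × ℤ → Prop} {N N' M s1 t1 s2 t2 : ℤ} (hN : N ≤ N')
    (h : Shape K z N M s1 t1 s2 t2) : Shape K z N' M s1 t1 s2 t2 := h.mono hN le_rfl

/-- left and right walls -/
lemma ch_H {s : ℤ} (hs : s = 1 ∨ s = -1) (F : FlatRm E z s s B N) (hM : M + 1 ≤ B) :
    Ch (chH s) E z B (N + 1) M (-1) 1 1 (-1) := by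
  refine ⟨F.roomW hs hs, ?_, ?_, ?_⟩
  · have h := F.shape hs hs hM
    have h' := Shape_up (show N ≤ N + 1 by omega) h
    rcases hs with rfl | rfl
    · exact Or.inl h'
    · right
      simpa using h'
  · intro ρ p hp
    unfold Sd at hp
    rw [(chH_g hs z).2, (chH_g hs p).2]
    omega
  · intro ρ p hp
    unfold Sd at hp
    rw [(chH_g hs z).2, (chH_g hs p).2]
    omega

/-- the ceiling: inner normal `(1, -1)` -/
lemma ch_C (F : FlatV E z 1 (-1) B N) (hM : M + 1 ≤ B) :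
    Ch (chV (-1)) E z B (N + 1) M 1 1 (-1) (-1) := by
  have ht : (-1 : ℤ) = 1 ∨ (-1 : ℤ) = -1 := Or.inr rfl
  refine ⟨F.roomW (Or.inl rfl) ht, ?_, ?_, ?_⟩
  · have h := F.shape (Or.inl rfl) ht hM
    have h' := Shape_up (show N ≤ N + 1 by omega) h
    right
    simpa using h'
  · intro ρ p hp
    unfold Sd at hp
    rw [(chV_g ht z).2, (chV_g ht p).2]
    omega
  · intro ρ p hp
    unfold Sd at hp
    rw [(chV_g ht z).2, (chV_g ht p).2]
    omega

/-- convex corner, north east: the room is the south west quadrant of the tile frame -/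
structure CvxNE (E : Finset (ℤ × ℤ)) (z : ℤ × ℤ) (B : ℤ) : Prop where
  odd : ∀ l ∈ E, (l.1 + l.2) % 2 = 1
  mem : ∀ l ∈ BR z B, (l ∈ E ↔ (l.1 - 2 * z.1) + (l.2 - 2 * z.2) ≤ -1 ∧
    (l.2 - 2 * z.2) - (l.1 - 2 * z.1) ≤ -1)

lemma ch_NE (F : CvxNE E z B) (hM : M + 1 ≤ B) : Ch (chV (-1)) E z B 1 M 1 (-1) (-1) (-1) := by
  have ht : (-1 : ℤ) = 1 ∨ (-1 : ℤ) = -1 := Or.inr rfl
  refine ⟨⟨F.odd, fun l h1 l' h2 h3 h4 => ?_, fun l h1 h2 => ?_, fun l h1 h2 => ?_⟩, ?_, ?_, ?_⟩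
  · rw [(chV_G ht l).1, (chV_G ht l).2, (chV_G ht l').1, (chV_G ht l').2] at h4
    have := (F.mem l h3).1 h1
    rw [F.mem l' h2]
    rcases abs_cases (l'.1 - l.1) with h5 | h5 <;> omega
  · rw [(chV_G ht l).1, (chV_G ht l).2, (chV_g ht z).1, (chV_g ht z).2]
    have := (F.mem l h2).1 h1
    rcases abs_cases (l.1 - 2 * z.1) with h5 | h5 <;> omega
  · rw [(chV_G ht l).1, (chV_G ht l).2, (chV_g ht z).1, (chV_g ht z).2] at h2
    rw [F.mem l h1]
    rcases abs_cases (l.1 - 2 * z.1) with h5 | h5 <;> omega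
  · right
    refine Or.inr (Or.inr (Or.inl ⟨Or.inr rfl, rfl, rfl, rfl, fun u hu h => ?_, fun u hu hK => ?_⟩))
    · intro l h1 h2 h3
      have h4 := (F.mem l h2).1 h1
      have g1 := congrArg Prod.fst h3
      have g2 := congrArg Prod.snd h3
      rw [(chV_G ht l).1, (chV_g ht u).1] at g1
      rw [(chV_G ht l).2, (chV_g ht u).2] at g2
      rcases abs_cases (u.1 - z.1) with h5 | h5 <;> omega
    · by_contra h
      push Not at h
      obtain ⟨l, hl⟩ := exG (chV (-1)) (2 * ((chV (-1)).g u).1 - 1, 2 * ((chV (-1)).g u).2)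
      rw [inR_iff] at hu
      have g1 := congrArg Prod.fst hl
      have g2 := congrArg Prod.snd hl
      rw [(chV_G ht l).1, (chV_g ht u).1] at g1
      rw [(chV_G ht l).2, (chV_g ht u).2] at g2
      have h2 : l ∈ BR z B := by
        rw [mem_BR]
        omega
      refine hK l ((F.mem l h2).2 ?_) h2 hl
      rcases abs_cases (u.1 - z.1) with h5 | h5 <;> omega
  · intro ρ p hp
    unfold Sd at hp
    rw [(chV_g ht z).2, (chV_g ht p).2]
    omega
  · intro ρ p hp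
    unfold Sd at hp
    rw [(chV_g ht z).2, (chV_g ht p).2]
    omega

/-- the half circuit of a chart -/
def HC' (Φ : SyC) (E : Finset (ℤ × ℤ)) (z : ℤ × ℤ) (B ρ M s1 t1 s2 t2 : ℤ)
    (w : Finset (ℤ × ℤ)) : Prop :=
  HR E (KL Φ E z B) (Sd z ρ s1 t1) (Sd z ρ s2 t2) z ρ M w

/-- **the block of a half circuit of a chart** -/
theorem Ch.blk {s1 t1 s2 t2 τ : ℤ} (R : Ch Φ E z B N M s1 t1 s2 t2) {Λ D : Set (ℤ × ℤ)}
    {w : Finset (ℤ × ℤ)} {uw lw : Prop} (Y : LayW Φ E Λ D w z ρ B τ uw lw) (hρ : 1 ≤ ρ)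
    (hB1 : M + N + 2 ≤ B) (hB2 : M + τ + 2 ≤ B) (hN : 0 ≤ N) (hτ : 0 ≤ τ)
    (h : HC' Φ E z B ρ M s1 t1 s2 t2 w) : Blk Λ D w z ρ B uw lw := by
  obtain ⟨p, q, k1, k2, k3, k4, k5⟩ := h
  exact blk_prim R.room Y hρ hB1 hB2 hN hτ k1 k3 (R.upr ρ p k2) (R.lwr ρ q k4) k5

open Classical in
/-- **The probability that there is no half circuit**, in a coin model, read through `ψ` with flips. -/
theorem hr_prob : ∃ C α : ℝ, 0 < C ∧ 0 < α ∧
    ∀ {β : Type} [DecidableEq β] (Φ : SyC) (E : Finset (ℤ × ℤ)) (z : ℤ × ℤ)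
    (N ρ M B s1 t1 s2 t2 : ℤ), 1 ≤ ρ → N ≤ ρ + 1 → ρ ≤ M → M ≤ B →
    Ch Φ E z B N M s1 t1 s2 t2 → ∀ (E0 : Finset (ℤ × ℤ)) (b : ℤ × ℤ → β) (ψ : ℤ × ℤ → ℤ × ℤ)
    (g : ℤ × ℤ → Prop) (wf : Finset (ℤ × ℤ) → Finset (ℤ × ℤ)),
    (∀ e ∈ E ∩ An z ρ M, ψ e ∈ E0) →
    (∀ e ∈ E ∩ An z ρ M, ∀ e' ∈ E ∩ An z ρ M, b (ψ e) = b (ψ e') → e = e') →
    (∀ ω ⊆ E0, ∀ e ∈ E ∩ An z ρ M, (e ∈ wf ω ↔ (ψ e ∈ ω ↔ g e))) →
    PB E0 b (fun ω => ¬ HC' Φ E z B ρ M s1 t1 s2 t2 (wf ω)) ≤ C * ((ρ : ℝ) / M) ^ α := by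
  obtain ⟨C, α, hC, hα, h⟩ := half_circuit_open
  refine ⟨C, α, hC, hα, ?_⟩
  intro β _ Φ E z N ρ M B s1 t1 s2 t2 hρ hN hρM hMB R E0 b ψ g wf h1 h2 h3
  have hnb : Nbh E (KL Φ E z B) z M := R.room.nbh hMB
  have key : Pr (E ∩ An z ρ M) (fun ω => ¬ HR E (KL Φ E z B) (Sd z ρ s1 t1) (Sd z ρ s2 t2) z ρ M ω)
      ≤ C * ((ρ : ℝ) / M) ^ α := by
    rcases R.shape with hS | hS
    · exact h E _ z N ρ M s1 t1 s2 t2 hρ hN hρM hnb hS _ subset_rfl
    · have := h E _ z N ρ M s2 t2 s1 t1 hρ hN hρM hnb hS _ subset_rfl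
      refine le_trans (le_of_eq ?_) this
      apply Pr_congr
      intro ω _
      rw [HR_symm]
  refine le_trans (le_of_eq ?_) key
  rw [← PB_read g h1 h2]
  apply PB_congr
  intro ω hω
  unfold HC'
  rw [HR_loc]
  have : wf ω ∩ (E ∩ An z ρ M) = (E ∩ An z ρ M).filter fun e => (ψ e ∈ ω ↔ g e) := by
    ext e
    rw [mem_inter, mem_filter]
    constructor
    · rintro ⟨k1, k2⟩
      exact ⟨k2, (h3 ω hω e k2).1 k1⟩
    · rintro ⟨k1, k2⟩
      exact ⟨(h3 ω hω e k1).2 k2, k1⟩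
  rw [this]

end Pool.Agent.H97.W
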