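import Mathlib
import Pool.Agent.H45.W.Sym

set_option autoImplicit false
open Finset

/-! # Pull back of a block along the removal of a deleted row

World `(Λ, D, w)` with a deleted row; world 3 = the same world near a point with the deleted row removed:
the labels of `A` (above the row) go one row down with flipped state, the others stay. `κ` is the map of the
corners; the south and the north side of a deleted tile have the same image. `Pull.exit` : a set `I3` of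
corners of world 3 with one exit gives a set of corners of the first world with one exit. -/

namespace Pool.Agent.H97.W

open Pool.Agent.H75.Perc Pool.Agent.H75.TwoArm Pool.Agent.H99.W Pool.Agent.H13.W
open Pool.Agent.H45.W (up_dn dn_up dn_inj)

variable {Λ D Λ3 D3 A N I3 : Set (ℤ × ℤ)} {w w3 : Finset (ℤ × ℤ)} {κ : ℤ × ℤ → ℤ × ℤ}

/-- the corner `c` belongs to `I3` or is a neighbour of `I3` -/
def Nb (Λ3 D3 : Set (ℤ × ℤ)) (w3 : Finset (ℤ × ℤ)) (I3 : Set (ℤ × ℤ)) (c : ℤ × ℤ) : Prop :=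
  c ∈ I3 ∨ ∃ u ∈ I3, (SG Λ3 D3 w3).Adj u c

/-- **Local data of the pull back**: `N` = the tiles near `I3`. A tile of `N` is inside, or deleted, or not
moved, or moved one row down. -/
structure Pull (Λ D Λ3 D3 : Set (ℤ × ℤ)) (w w3 : Finset (ℤ × ℤ)) (κ : ℤ × ℤ → ℤ × ℤ)
    (A N I3 : Set (ℤ × ℤ)) : Prop where
  near : ∀ e ∈ Λ, ∀ c, Sd e c → Nb Λ3 D3 w3 I3 (κ c) → e ∈ N
  cases : ∀ e ∈ Λ, e ∈ N → (∀ c, Sd e c → κ c ∈ I3) ∨ (e ∈ D ∧ κ (eS e) = κ (eN e)) ∨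
    (e ∉ D ∧ e ∉ A ∧ e ∈ Λ3 ∧ e ∉ D3 ∧ (e ∈ w3 ↔ e ∈ w) ∧ ∀ c, Sd e c → κ c = c) ∨
    (e ∉ D ∧ e ∈ A ∧ dn e ∈ Λ3 ∧ dn e ∉ D3 ∧ (dn e ∈ w3 ↔ e ∉ w) ∧ ∀ c, Sd e c → κ c = dn c)
  inj : ∀ t ∈ Λ, t ∈ N → t ∉ D → t ∉ A → up t ∈ Λ → up t ∈ N → up t ∉ D → up t ∈ A →
    (∀ c, Sd t c → κ c ∈ I3) ∨ ∀ c, Sd (up t) c → κ c ∈ I3

/-- one step of the pull back -/
lemma Pull.step (P : Pull Λ D Λ3 D3 w w3 κ A N I3) {u v : ℤ × ℤ} (hu : Nb Λ3 D3 w3 I3 (κ u))
    {e : ℤ × ℤ} (he : e ∈ Λ) (h : TJ D w e u v) : (∀ c, Sd e c → κ c ∈ I3) ∨ κ u = κ v ∨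
      (e ∈ N ∧ e ∉ D ∧ e ∉ A ∧ e ∈ Λ3 ∧ κ u = u ∧ κ v = v ∧ TJ D3 w3 e u v) ∨
      (e ∈ N ∧ e ∉ D ∧ e ∈ A ∧ dn e ∈ Λ3 ∧ κ u = dn u ∧ κ v = dn v ∧
        TJ D3 w3 (dn e) (dn u) (dn v)) := by
  have hN := P.near e he u h.sd hu
  rcases P.cases e he hN with h1 | ⟨h1, h2⟩ | ⟨h1, h2, h3, h4, h5, h6⟩ | ⟨h1, h2, h3, h4, h5, h6⟩
  · exact Or.inl h1
  · right; left
    rcases h with ⟨-, -, ⟨rfl, rfl⟩ | ⟨rfl, rfl⟩⟩ | ⟨k, -⟩
    · exact h2
    · exact h2.symm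
    · exact absurd h1 k
  · right; right; left
    refine ⟨hN, h1, h2, h3, h6 u h.sd, h6 v h.sd', (TJ_congr ?_ ?_).1 h⟩
    · exact ⟨fun k => absurd k h1, fun k => absurd k h4⟩
    · exact fun _ => h5.symm
  · right; right; right
    exact ⟨hN, h1, h2, h3, h6 u h.sd, h6 v h.sd', Pool.Agent.H45.W.TJ.dn h1 h4 h5 h⟩

open Classical in
/-- **Pull back of a block with one exit.** -/
theorem Pull.exit (P : Pull Λ D Λ3 D3 w w3 κ A N I3) {b3 : ℤ × ℤ}
    (h3 : ∀ u v, u ∈ I3 → v ∉ I3 → (SG Λ3 D3 w3).Adj u v → v = b3) :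
    ∃ (I : Set (ℤ × ℤ)) (b : ℤ × ℤ), (∀ u v, u ∈ I → v ∉ I → (SG Λ D w).Adj u v → v = b) ∧
      (∀ c, κ c ∈ I3 → c ∈ I) ∧ ∀ c ∈ I, Nb Λ3 D3 w3 I3 (κ c) := by
  -- exits through a tile `t`
  set X : ℤ × ℤ → Prop := fun t => t ∈ Λ3 ∧ b3 ∉ I3 ∧ ∃ u ∈ I3, TJ D3 w3 t u b3 with hX
  by_cases hboth : ∃ t t', t ≠ t' ∧ X t ∧ X t'
  · -- `b3` can be added to `I3`
    obtain ⟨t, t', hne, ⟨ht, hb, u1, hu1, k1⟩, ⟨ht', -, u2, hu2, k2⟩⟩ := hboth
    have key : ∀ e ∈ Λ3, ∀ v, TJ D3 w3 e b3 v → v ∈ I3 := by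
      intro e he v hv
      have hl : e = t ∨ e = t' := by
        rcases hv.label with l | l <;> rcases k1.label' with l1 | l1 <;>
          rcases k2.label' with l2 | l2
        · exact Or.inl (l.trans l1.symm)
        · exact Or.inl (l.trans l1.symm)
        · exact Or.inr (l.trans l2.symm)
        · exact absurd (l1.trans l2.symm) hne
        · exact absurd (l1.trans l2.symm) hne
        · exact Or.inr (l.trans l2.symm)
        · exact Or.inl (l.trans l1.symm)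
        · exact Or.inl (l.trans l1.symm)
      rcases hl with rfl | rfl
      · rw [hv.unique k1.symm]; exact hu1
      · rw [hv.unique k2.symm]; exact hu2
    have hbN : Nb Λ3 D3 w3 I3 b3 := Or.inr ⟨u1, hu1, t, ht, k1⟩
    refine ⟨{c | κ c ∈ I3 ∨ κ c = b3}, b3, ?_, fun c hc => Or.inl hc, ?_⟩
    · rintro u v hu hv ⟨e, he, hT⟩
      exfalso
      simp only [Set.mem_ofPred_eq, not_or] at hv
      have hN : Nb Λ3 D3 w3 I3 (κ u) := by
        rcases hu with hu | hu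
        · exact Or.inl hu
        · rw [hu]; exact hbN
      rcases P.step hN he hT with h | h | ⟨-, -, -, h1, h2, h3', h4⟩ | ⟨-, -, -, h1, h2, h3', h4⟩
      · exact hv.1 (h v hT.sd')
      · rcases hu with hu | hu
        · exact hv.1 (h ▸ hu)
        · exact hv.2 (h ▸ hu)
      · rw [h3'] at hv
        rcases hu with hu | hu
        · rw [h2] at hu
          exact hv.2 (h3 u v hu hv.1 ⟨e, h1, h4⟩)
        · rw [h2] at hu
          subst hu
          exact hv.1 (key e h1 v h4)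
      · rw [h3'] at hv
        rcases hu with hu | hu
        · rw [h2] at hu
          exact hv.2 (h3 _ _ hu hv.1 ⟨_, h1, h4⟩)
        · rw [h2] at hu
          rw [hu] at h4
          exact hv.1 (key _ h1 _ h4)
    · rintro c (hc | hc)
      · exact Or.inl hc
      · rw [hc]; exact hbN
  · -- at most one tile
    have huniq : ∀ t t', X t → X t' → t = t' := by
      intro t t' h1 h2
      by_contra hne
      exact hboth ⟨t, t', hne, h1, h2⟩
    -- an exit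
    have hex : ∀ u v, κ u ∈ I3 → κ v ∉ I3 → (SG Λ D w).Adj u v →
        ∃ e ∈ Λ, e ∈ N ∧ e ∉ D ∧ (∃ c, Sd e c ∧ κ c ∉ I3) ∧
          ((e ∉ A ∧ X e ∧ v = b3) ∨ (e ∈ A ∧ X (dn e) ∧ v = up b3)) := by
      rintro u v hu hv ⟨e, he, hT⟩
      rcases P.step (Or.inl hu) he hT with h | h | ⟨h0, h0', hA, h1, h2, h3', h4⟩ |
          ⟨h0, h0', hA, h1, h2, h3', h4⟩
      · exact absurd (h v hT.sd') hv
      · exact absurd (h ▸ hu) hv
      · have hu' := hu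
        have hv' := hv
        rw [h2] at hu'
        rw [h3'] at hv'
        have hvb : v = b3 := h3 u v hu' hv' ⟨e, h1, h4⟩
        refine ⟨e, he, h0, h0', ⟨v, hT.sd', hv⟩, Or.inl ⟨hA, ⟨h1, ?_, u, hu', ?_⟩, hvb⟩⟩
        · rw [← hvb]; exact hv'
        · rw [← hvb]; exact h4
      · have hu' := hu
        have hv' := hv
        rw [h2] at hu'
        rw [h3'] at hv'
        have hvb : dn v = b3 := h3 _ _ hu' hv' ⟨_, h1, h4⟩
        refine ⟨e, he, h0, h0', ⟨v, hT.sd', hv⟩, Or.inr ⟨hA, ⟨h1, ?_, dn u, hu', ?_⟩, ?_⟩⟩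
        · rw [← hvb]; exact hv'
        · rw [← hvb]; exact h4
        · rw [← hvb, up_dn]
    have huu : ∀ u v u' v', κ u ∈ I3 → κ v ∉ I3 → (SG Λ D w).Adj u v → κ u' ∈ I3 → κ v' ∉ I3 →
        (SG Λ D w).Adj u' v' → v = v' := by
      intro u v u' v' k1 k2 k3 k1' k2' k3'
      obtain ⟨e, a0, a1, a2, ⟨a3, a4, a5⟩, a6⟩ := hex u v k1 k2 k3
      obtain ⟨e', c0, c1, c2, ⟨c3, c4, c5⟩, c6⟩ := hex u' v' k1' k2' k3'
      rcases a6 with ⟨b1, b2, rfl⟩ | ⟨b1, b2, rfl⟩ <;> rcases c6 with ⟨d1, d2, rfl⟩ | ⟨d1, d2, rfl⟩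
      · rfl
      · exfalso
        have ht := huniq _ _ b2 d2
        have : e' = up e := by rw [ht, up_dn]
        subst this
        rcases P.inj e a0 a1 a2 b1 c0 c1 c2 d1 with h | h
        · exact a5 (h _ a4)
        · exact c5 (h _ c4)
      · exfalso
        have ht := huniq _ _ b2 d2
        have : e = up e' := by rw [← ht, up_dn]
        subst this
        rcases P.inj e' c0 c1 c2 d1 a0 a1 a2 b1 with h | h
        · exact c5 (h _ c4)
        · exact a5 (h _ a4)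
      · rfl
    refine ⟨{c | κ c ∈ I3}, if h : ∃ v, ∃ u, κ u ∈ I3 ∧ κ v ∉ I3 ∧ (SG Λ D w).Adj u v then h.choose
      else b3, ?_, fun c hc => hc, fun c hc => Or.inl hc⟩
    intro u v hu hv ha
    have h : ∃ v, ∃ u, κ u ∈ I3 ∧ κ v ∉ I3 ∧ (SG Λ D w).Adj u v := ⟨v, u, hu, hv, ha⟩
    rw [dif_pos h]
    obtain ⟨u', k1, k2, k3⟩ := h.choose_spec
    exact huu u v u' _ hu hv ha k1 k2 k3

end Pool.Agent.H97.W
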