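import Mathlib
import Pool.Agent.H97.W.Pull
import Pool.Agent.H70.W.WallBlk
import Pool.Agent.H47.W.Room1

set_option autoImplicit false
open Finset

/-! # The block in a world whose deleted row crosses the annulus

`OneExit Λ D w z ρ B` : a set of corners in the box of radius `B` around `z` with one exit which contains all
sides of the tiles of the box of radius `ρ`. World `(Λ, D, w)`: outside the box of radius `ρ - 3` the deleted
tiles are the tiles of the row `r` in the columns `≥ x1`. World 3: the row is removed, the tiles above it in the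
columns `≥ x1` go one row down with flipped state. -/

namespace Pool.Agent.H97.W

open Pool.Agent.H75.Perc Pool.Agent.H75.TwoArm Pool.Agent.H99.W Pool.Agent.H13.W
open Pool.Agent.H99.NC (BR inR inR_iff)
open Pool.Agent.H70.W (IsSd mem_BR)
open Pool.Agent.H45.W (up_dn dn_up dn_inj dn_eN)

/-- a set of corners with one exit -/
def OneExit (Λ D : Set (ℤ × ℤ)) (w : Finset (ℤ × ℤ)) (z : ℤ × ℤ) (ρ B : ℤ) : Prop :=
  ∃ (I : Set (ℤ × ℤ)) (b : ℤ × ℤ),
    (∀ u v, u ∈ I → v ∉ I → (SG Λ D w).Adj u v → v = b) ∧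
    (∀ e ∈ Λ, e ∈ BR z ρ → ∀ c, Sd e c → c ∈ I) ∧
    (∀ c ∈ I, ∃ e ∈ BR z B, Sd e c)

/-- the corners which go one row down -/
def AC (x1 r : ℤ) (c : ℤ × ℤ) : Prop := 2 * r + 2 ≤ c.2 - c.1 ∧ 2 * x1 + 1 ≤ c.1 + c.2

/-- the tiles which go one row down -/
def AT (x1 r : ℤ) : Set (ℤ × ℤ) := {e | 2 * r + 3 ≤ e.2 - e.1 ∧ 2 * x1 + 1 ≤ e.1 + e.2}

open Classical in
/-- the map of the corners -/
noncomputable def kap (x1 r : ℤ) (c : ℤ × ℤ) : ℤ × ℤ := if AC x1 r c then dn c else c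

lemma kap_pos {x1 r : ℤ} {c : ℤ × ℤ} (h : AC x1 r c) : kap x1 r c = dn c := if_pos h
lemma kap_neg {x1 r : ℤ} {c : ℤ × ℤ} (h : ¬ AC x1 r c) : kap x1 r c = c := if_neg h

open Classical in
/-- the states of world 3 on the labels of `Z` -/
noncomputable def rg (Z : Finset (ℤ × ℤ)) (x1 r : ℤ) (w : Finset (ℤ × ℤ)) : Finset (ℤ × ℤ) :=
  Z.filter fun e => (2 * r + 1 ≤ e.2 - e.1 ∧ 2 * x1 + 1 ≤ e.1 + e.2 ∧ up e ∉ w) ∨
    (¬ (2 * r + 1 ≤ e.2 - e.1 ∧ 2 * x1 + 1 ≤ e.1 + e.2) ∧ e ∈ w)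

lemma mem_rg {Z : Finset (ℤ × ℤ)} {x1 r : ℤ} {w : Finset (ℤ × ℤ)} {e : ℤ × ℤ} :
    e ∈ rg Z x1 r w ↔ e ∈ Z ∧ ((2 * r + 1 ≤ e.2 - e.1 ∧ 2 * x1 + 1 ≤ e.1 + e.2 ∧ up e ∉ w) ∨
    (¬ (2 * r + 1 ≤ e.2 - e.1 ∧ 2 * x1 + 1 ≤ e.1 + e.2) ∧ e ∈ w)) := by
  classical
  unfold rg; rw [mem_filter]

/-- coordinates of the sides -/
lemma sd_coord {e c : ℤ × ℤ} (h : Sd e c) :
    (c.1 + c.2 = e.1 + e.2 ∧ c.2 - c.1 = e.2 - e.1) ∨
    (c.1 + c.2 = e.1 + e.2 + 2 ∧ c.2 - c.1 = e.2 - e.1) ∨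
    (c.1 + c.2 = e.1 + e.2 + 1 ∧ c.2 - c.1 = e.2 - e.1 - 1) ∨
    (c.1 + c.2 = e.1 + e.2 + 1 ∧ c.2 - c.1 = e.2 - e.1 + 1) := by
  unfold Sd eW eE eS eN at h
  simp only [Prod.ext_iff] at h
  omega

lemma sd_dn {e c : ℤ × ℤ} (h : Sd e c) : Sd (dn e) (dn c) := by
  unfold Sd eW eE eS eN dn at *
  simp only [Prod.ext_iff] at *
  omega

lemma dn_fst (e : ℤ × ℤ) : (dn e).1 = e.1 + 1 := rfl
lemma dn_snd (e : ℤ × ℤ) : (dn e).2 = e.2 - 1 := rfl
lemma up_fst (e : ℤ × ℤ) : (up e).1 = e.1 - 1 := rfl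
lemma up_snd (e : ℤ × ℤ) : (up e).2 = e.2 + 1 := rfl

/-- neighbouring tiles -/
lemma tj_near {e e' c d : ℤ × ℤ} (h : Sd e c)
    (h' : Sd e' c) (h2 : Sd e' d) :
    (e.1 - 2 ≤ d.1 ∧ d.1 ≤ e.1 + 3) ∧ (e.2 - 2 ≤ d.2 ∧ d.2 ≤ e.2 + 3) := by
  unfold Sd eW eE eS eN at *
  simp only [Prod.ext_iff] at *
  omega

/-- **The block of world 3 gives a block of the world with the deleted row.** -/
theorem reglue {Λ D Λ3 : Set (ℤ × ℤ)} {w Z : Finset (ℤ × ℤ)} {z : ℤ × ℤ} {x1 r ρ B : ℤ}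
    (hρ : ρ ≤ B) (odd : ∀ e ∈ Λ, (e.1 + e.2) % 2 = 1)
    (del : ∀ e ∈ Λ, e ∈ BR z (B + 3) → e ∉ BR z (ρ - 3) →
      (e ∈ D ↔ e.2 - e.1 = 2 * r + 1 ∧ 2 * x1 + 1 ≤ e.1 + e.2))
    (seam : ∀ e ∈ Λ, e ∈ BR z (B + 3) → e ∉ BR z (ρ - 3) → 2 * r + 3 ≤ e.2 - e.1 →
      e.1 + e.2 ≠ 2 * x1 - 1)
    (hZ : ∀ e, (e.1 + e.2) % 2 = 1 → e ∈ BR z (B + 4) → e ∈ Z)
    (la : ∀ e ∈ Λ, e ∈ BR z (B + 3) → e ∉ AT x1 r → e ∈ Λ3)
    (lb : ∀ e ∈ Λ, e ∈ BR z (B + 3) → (e ∈ AT x1 r ∨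
      (2 * r + 1 ≤ e.2 - e.1 ∧ 2 * x1 - 1 ≤ e.1 + e.2)) → dn e ∈ Λ3)
    {I3 : Set (ℤ × ℤ)} {b3 : ℤ × ℤ}
    (h1 : ∀ u v, u ∈ I3 → v ∉ I3 → (SG Λ3 ∅ (rg Z x1 r w)).Adj u v → v = b3)
    (h2 : ∀ e ∈ Λ3, e ∈ BR z (ρ - 1) → ∀ c, IsSd e c → c ∈ I3)
    (h3 : ∀ c ∈ I3, ∃ e ∈ BR z B, IsSd e c) :
    OneExit Λ D w z (ρ - 3) (B + 3) := by
  have ine : ∀ {e c : ℤ × ℤ}, e ∈ Λ → e ∈ BR z (ρ - 3) → Sd e c → kap x1 r c ∈ I3 := by
    intro e c he heB hc
    have heB' : e ∈ BR z (B + 3) := by rw [mem_BR] at heB ⊢; omega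
    have hco := sd_coord hc
    have heo := odd e he
    by_cases hA : AC x1 r c
    · rw [kap_pos hA]
      refine h2 (dn e) (lb e he heB' ?_) ?_ _ (sd_dn hc)
      · unfold AC at hA
        unfold AT
        simp only [Set.mem_ofPred_eq]
        omega
      · rw [mem_BR] at heB ⊢
        rw [dn_fst, dn_snd]
        omega
    · rw [kap_neg hA]
      by_cases hT : e ∈ AT x1 r
      · exfalso
        unfold AC at hA
        unfold AT at hT
        simp only [Set.mem_ofPred_eq] at hT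
        omega
      · refine h2 e (la e he heB' hT) ?_ _ hc
        rw [mem_BR] at heB ⊢
        omega
  -- locality
  have loc : ∀ c : ℤ × ℤ, Nb Λ3 ∅ (rg Z x1 r w) I3 (kap x1 r c) → ∀ e, (e.1 + e.2) % 2 = 1 →
      Sd e c → e ∈ BR z (B + 3) := by
    intro c hc e heo hec
    have hk : ((kap x1 r c).1 = c.1 ∧ (kap x1 r c).2 = c.2) ∨
        ((kap x1 r c).1 = c.1 + 1 ∧ (kap x1 r c).2 = c.2 - 1) := by
      by_cases hA : AC x1 r c
      · rw [kap_pos hA]; exact Or.inr ⟨rfl, rfl⟩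
      · rw [kap_neg hA]; exact Or.inl ⟨rfl, rfl⟩
    generalize kap x1 r c = k at hc hk
    have hb : (2 * (z.1 - B) - 2 ≤ k.1 ∧ k.1 ≤ 2 * (z.1 + B) + 3) ∧
        (2 * (z.2 - B) - 2 ≤ k.2 ∧ k.2 ≤ 2 * (z.2 + B) + 3) := by
      rcases hc with hc | ⟨u, hu, e', -, hT⟩
      · obtain ⟨e1, g1, g2⟩ := h3 k hc
        rw [mem_BR] at g1
        unfold IsSd eW eE eS eN at g2
        simp only [Prod.ext_iff] at g2
        omega
      · obtain ⟨e1, g1, g2⟩ := h3 u hu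
        rw [mem_BR] at g1
        have := tj_near g2 hT.sd hT.sd'
        omega
    unfold Sd eW eE eS eN at hec
    simp only [Prod.ext_iff] at hec
    rw [mem_BR]
    omega
  have P : Pull Λ D Λ3 ∅ w (rg Z x1 r w) (kap x1 r) (AT x1 r) (BR z (B + 3) : Set (ℤ × ℤ)) I3 := by
    refine ⟨fun e he c hc hN => loc c hN e (odd e he) hc, ?_, ?_⟩
    · intro e he heN
      have heB : e ∈ BR z (B + 3) := heN
      by_cases hin : e ∈ BR z (ρ - 3)
      · exact Or.inl fun c hc => ine he hin hc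
      right
      have hdel := del e he heB hin
      have hs := seam e he heB hin
      have heo := odd e he
      by_cases hD : e ∈ D
      · left
        refine ⟨hD, ?_⟩
        obtain ⟨a1, a2⟩ := hdel.1 hD
        have k1 : ¬ AC x1 r (eS e) := by
          unfold AC eS; simp only; omega
        have k2 : AC x1 r (eN e) := by
          unfold AC eN; simp only; omega
        rw [kap_neg k1, kap_pos k2, dn_eN]
      · right
        have hD' : ¬ (e.2 - e.1 = 2 * r + 1 ∧ 2 * x1 + 1 ≤ e.1 + e.2) := fun h => hD (hdel.2 h)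
        by_cases hA : e ∈ AT x1 r
        · right
          refine ⟨hD, hA, lb e he heB (Or.inl hA), Set.notMem_empty _, ?_, fun c hc => ?_⟩
          · unfold AT at hA
            simp only [Set.mem_ofPred_eq] at hA
            rw [mem_rg, up_dn]
            have hZ' : dn e ∈ Z := by
              apply hZ
              · rw [dn_fst, dn_snd]; omega
              · rw [mem_BR] at heB ⊢
                rw [dn_fst, dn_snd]
                omega
            have hc1 : 2 * r + 1 ≤ (dn e).2 - (dn e).1 ∧ 2 * x1 + 1 ≤ (dn e).1 + (dn e).2 := by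
              rw [dn_fst, dn_snd]; omega
            constructor
            · rintro ⟨-, ⟨-, -, h⟩ | ⟨h, -⟩⟩
              · exact h
              · exact absurd hc1 h
            · intro h
              exact ⟨hZ', Or.inl ⟨hc1.1, hc1.2, h⟩⟩
          · apply kap_pos
            have := sd_coord hc
            unfold AT at hA
            simp only [Set.mem_ofPred_eq] at hA
            unfold AC
            omega
        · left
          have hA' : ¬ (2 * r + 3 ≤ e.2 - e.1 ∧ 2 * x1 + 1 ≤ e.1 + e.2) := hA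
          refine ⟨hD, hA, la e he heB hA, Set.notMem_empty _, ?_, fun c hc => ?_⟩
          · rw [mem_rg]
            have hZ' : e ∈ Z := by
              apply hZ _ heo
              rw [mem_BR] at heB ⊢
              omega
            have hc1 : ¬ (2 * r + 1 ≤ e.2 - e.1 ∧ 2 * x1 + 1 ≤ e.1 + e.2) := by omega
            constructor
            · rintro ⟨-, ⟨h, h', -⟩ | ⟨-, h⟩⟩
              · exact absurd ⟨h, h'⟩ hc1
              · exact h
            · intro h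
              exact ⟨hZ', Or.inr ⟨hc1, h⟩⟩
          · apply kap_neg
            have := sd_coord hc
            unfold AC
            omega
    · intro t ht htN htD htA hu huN huD huA
      by_contra hcon
      rw [not_or] at hcon
      have i1 : t ∉ BR z (ρ - 3) := fun h => hcon.1 fun c hc => ine ht h hc
      have i2 : up t ∉ BR z (ρ - 3) := fun h => hcon.2 fun c hc => ine hu h hc
      have d1 := del t ht htN i1
      have d2 : ¬ (t.2 - t.1 = 2 * r + 1 ∧ 2 * x1 + 1 ≤ t.1 + t.2) := fun h => htD (d1.2 h)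
      have a1 : ¬ (2 * r + 3 ≤ t.2 - t.1 ∧ 2 * x1 + 1 ≤ t.1 + t.2) := htA
      have a2 : 2 * r + 3 ≤ (up t).2 - (up t).1 ∧ 2 * x1 + 1 ≤ (up t).1 + (up t).2 := huA
      have o1 := odd t ht
      rw [up_fst, up_snd] at a2
      omega
  obtain ⟨I, b, k1, k2, k3⟩ := P.exit h1
  refine ⟨I, b, k1, fun e he heB c hc => k2 c (ine he heB hc), fun c hc => ?_⟩
  -- a label at the corner `c`
  have hN := k3 c hc
  refine ⟨lab c, ?_, ?_⟩
  · refine loc c hN _ (Pool.Agent.H47.W.lab_odd' c) ?_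
    exact side_cases c (Or.inl rfl)
  · exact side_cases c (Or.inl rfl)

end Pool.Agent.H97.W
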