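import Mathlib
import Pool.Agent.H97.W.Reg
import Pool.Agent.H97.W.Blk3

set_option autoImplicit false
open Finset

/-! # One exit near a wall point: probability

`WallL` : left wall, the deleted row crosses the annulus. `WallC` : ceiling, the deleted row starts near the
point and crosses the right half of the annulus. `WallR` : right wall, the deleted row ends in the inner box.
`CorNE` : convex corner north east, the deleted row ends in the inner box. In all cases the probability that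
there is no set with one exit is at most `C (ρ / M) ^ α`. -/

namespace Pool.Agent.H97.W

open Pool.Agent.H75.Perc Pool.Agent.H75.TwoArm Pool.Agent.H99.W Pool.Agent.H13.W
open Pool.Agent.H99.NC (BR inR inR_iff)
open Pool.Agent.H70.W
open Pool.Agent.H45.W (up_dn dn_up dn_inj)
open Pool.Agent.H58.W (PB PB_mono)

/-- one exit from the block if exactly one side is closed -/
lemma one_of_blk {Λ D : Set (ℤ × ℤ)} {w : Finset (ℤ × ℤ)} {z : ℤ × ℤ} {ρ B : ℤ} {c : Prop}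
    (h : Blk Λ D w z ρ B (¬ c) c) : OneExit Λ D w z (ρ - 1) B := by
  obtain ⟨I, bp, bq, h1, h2, h3⟩ := h
  by_cases hc : c
  · refine ⟨I, bp, fun u v hu hv ha => ?_, h2, h3⟩
    rcases h1 u v hu hv ha with h | h
    · exact h.2
    · exact absurd hc h.1
  · refine ⟨I, bq, fun u v hu hv ha => ?_, h2, h3⟩
    rcases h1 u v hu hv ha with h | h
    · exact absurd hc h.1
    · exact h.2

/-- region of world 3 which comes from above the row -/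
def A3 (x1 r : ℤ) (e : ℤ × ℤ) : Prop := 2 * r + 1 ≤ e.2 - e.1 ∧ 2 * x1 + 1 ≤ e.1 + e.2

open Classical in
/-- the label of the first world which is read -/
noncomputable def psi (x1 r : ℤ) (e : ℤ × ℤ) : ℤ × ℤ := if A3 x1 r e then up e else e

lemma psi_pos {x1 r : ℤ} {e : ℤ × ℤ} (h : A3 x1 r e) : psi x1 r e = up e := if_pos h
lemma psi_neg {x1 r : ℤ} {e : ℤ × ℤ} (h : ¬ A3 x1 r e) : psi x1 r e = e := if_neg h

lemma psi_inj {x1 r : ℤ} {e e' : ℤ × ℤ} (h : psi x1 r e = psi x1 r e') : e = e' := by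
  by_cases h1 : A3 x1 r e <;> by_cases h2 : A3 x1 r e'
  · rw [psi_pos h1, psi_pos h2] at h
    exact up_inj h
  · rw [psi_pos h1, psi_neg h2] at h
    exfalso
    subst h
    apply h2
    unfold A3 at *
    rw [up_fst, up_snd]
    omega
  · rw [psi_neg h1, psi_pos h2] at h
    exfalso
    subst h
    apply h1
    unfold A3 at *
    rw [up_fst, up_snd]
    omega
  · rwa [psi_neg h1, psi_neg h2] at h

lemma rg_pos {Z w : Finset (ℤ × ℤ)} {x1 r : ℤ} {e : ℤ × ℤ} (hZ : e ∈ Z) (h : A3 x1 r e) :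
    e ∈ rg Z x1 r w ↔ up e ∉ w := by
  rw [mem_rg]
  unfold A3 at h
  constructor
  · rintro ⟨-, ⟨-, -, h1⟩ | ⟨h1, -⟩⟩
    · exact h1
    · exact absurd h h1
  · exact fun h1 => ⟨hZ, Or.inl ⟨h.1, h.2, h1⟩⟩

lemma rg_neg {Z w : Finset (ℤ × ℤ)} {x1 r : ℤ} {e : ℤ × ℤ} (hZ : e ∈ Z) (h : ¬ A3 x1 r e) :
    e ∈ rg Z x1 r w ↔ e ∈ w := by
  rw [mem_rg]
  unfold A3 at h
  constructor
  · rintro ⟨-, ⟨h1, h2, -⟩ | ⟨-, h1⟩⟩
    · exact absurd ⟨h1, h2⟩ h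
    · exact h1
  · exact fun h1 => ⟨hZ, Or.inr ⟨h, h1⟩⟩

/-- **The cut**: probability of one exit when the deleted row crosses the annulus. -/
theorem cut_prob : ∃ C α : ℝ, 0 < C ∧ 0 < α ∧
    ∀ {β : Type} [DecidableEq β] (Φ : SyC) (E : Finset (ℤ × ℤ)) (z : ℤ × ℤ)
    (N ρ M B s1 t1 s2 t2 τ x1 r : ℤ) (c : Prop) (E0 W : Finset (ℤ × ℤ)) (b : ℤ × ℤ → β)
    (Λ D Λ3 : Set (ℤ × ℤ)), 1 ≤ ρ → N ≤ ρ + 1 → ρ ≤ M → M + N + 2 ≤ B → M + τ + 2 ≤ B → 0 ≤ N →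
    0 ≤ τ → Ch Φ E z B N M s1 t1 s2 t2 →
    (∀ e ∈ Λ, (e.1 + e.2) % 2 = 1) →
    (∀ e ∈ Λ, e ∈ BR z (B + 3) → e ∉ BR z (ρ - 3) →
      (e ∈ D ↔ e.2 - e.1 = 2 * r + 1 ∧ 2 * x1 + 1 ≤ e.1 + e.2)) →
    (∀ e ∈ Λ, e ∈ BR z (B + 3) → e ∉ BR z (ρ - 3) → 2 * r + 3 ≤ e.2 - e.1 →
      e.1 + e.2 ≠ 2 * x1 - 1) →
    (∀ e ∈ Λ, e ∈ BR z (B + 3) → e ∉ AT x1 r → e ∈ Λ3) →
    (∀ e ∈ Λ, e ∈ BR z (B + 3) → (e ∈ AT x1 r ∨
      (2 * r + 1 ≤ e.2 - e.1 ∧ 2 * x1 - 1 ≤ e.1 + e.2)) → dn e ∈ Λ3) →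
    (∀ ω ⊆ E0, LayW Φ E Λ3 ∅ (rg (BR z (B + 4)) x1 r (ω ∪ W)) z ρ B τ (¬ c) c) →
    (∀ e ∈ E, e ∈ BR z M → psi x1 r e ∈ E0 ∧ psi x1 r e ∉ W) →
    (∀ e ∈ E, e ∈ BR z M → ∀ e' ∈ E, e' ∈ BR z M → b (psi x1 r e) = b (psi x1 r e') →
      psi x1 r e = psi x1 r e') →
    PB E0 b (fun ω => ¬ OneExit Λ D (ω ∪ W) z (ρ - 3) (B + 3)) ≤ C * ((ρ : ℝ) / M) ^ α := by
  obtain ⟨C, α, hC, hα, H⟩ := hr_prob
  refine ⟨C, α, hC, hα, ?_⟩
  intro β _ Φ E z N ρ M B s1 t1 s2 t2 τ x1 r c E0 W b Λ D Λ3 hρ hN hρM hB1 hB2 hN0 hτ R odd del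
    seam la lb Y hroom hcoin
  have hAn : ∀ e ∈ E ∩ An z ρ M, e ∈ E ∧ e ∈ BR z M ∧ e ∈ BR z (B + 4) := by
    intro e he
    obtain ⟨h1, h2⟩ := mem_inter.1 he
    have h3 := (mem_An.1 h2).1
    refine ⟨h1, mem_BR.2 h3, ?_⟩
    rw [mem_BR]
    omega
  refine le_trans ?_ (H Φ E z N ρ M B s1 t1 s2 t2 hρ hN hρM (by omega) R E0 b (psi x1 r)
    (fun e => ¬ A3 x1 r e) (fun ω => rg (BR z (B + 4)) x1 r (ω ∪ W))
    (fun e he => (hroom e (hAn e he).1 (hAn e he).2.1).1)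
    (fun e he e' he' h => psi_inj (hcoin e (hAn e he).1 (hAn e he).2.1 e' (hAn e' he').1
      (hAn e' he').2.1 h)) ?_)
  · apply PB_mono
    intro ω hω hno hHC
    apply hno
    have hblk := R.blk (Y ω hω) hρ hB1 hB2 hN0 hτ hHC
    obtain ⟨I3, b3, k1, k2, k3⟩ : ∃ (I3 : Set (ℤ × ℤ)) (b3 : ℤ × ℤ),
        (∀ u v, u ∈ I3 → v ∉ I3 → (SG Λ3 ∅ (rg (BR z (B + 4)) x1 r (ω ∪ W))).Adj u v → v = b3) ∧
        (∀ e ∈ Λ3, e ∈ BR z (ρ - 1) → ∀ c, IsSd e c → c ∈ I3) ∧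
        (∀ c ∈ I3, ∃ e ∈ BR z B, IsSd e c) := one_of_blk hblk
    exact reglue (by omega) odd del seam (fun e _ h => h) la lb k1 k2 k3
  · intro ω hω e he
    obtain ⟨h1, h2, h3⟩ := hAn e he
    have hW := (hroom e h1 h2).2
    by_cases hA : A3 x1 r e
    · rw [rg_pos h3 hA]
      rw [psi_pos hA] at hW ⊢
      rw [mem_union]
      tauto
    · rw [rg_neg h3 hA]
      rw [psi_neg hA] at hW ⊢
      rw [mem_union]
      tauto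

/-! ### Left wall -/

/-- **left wall** through the vertex `z`, colour `c` of the layer, deleted row `r` -/
structure WallL {β : Type} (E0 W : Finset (ℤ × ℤ)) (b : ℤ × ℤ → β) (Λ D : Set (ℤ × ℤ))
    (z : ℤ × ℤ) (ρ K r : ℤ) (c : Prop) : Prop where
  odd : ∀ e ∈ Λ, (e.1 + e.2) % 2 = 1
  lam : ∀ e ∈ Λ, e ∈ BR z K → 2 * (z.1 + z.2) - 1 ≤ e.1 + e.2
  room : ∀ e ∈ BR z K, 2 * (z.1 + z.2) + 1 ≤ e.1 + e.2 → e ∈ E0 ∧ e ∉ W
  coin : ∀ e ∈ BR z K, 2 * (z.1 + z.2) + 1 ≤ e.1 + e.2 → ∀ e' ∈ BR z K,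
    2 * (z.1 + z.2) + 1 ≤ e'.1 + e'.2 → b e = b e' → e = e'
  del : ∀ e ∈ Λ, e ∈ BR z K → e ∉ BR z (ρ - 3) → (e ∈ D ↔ e.2 - e.1 = 2 * r + 1)
  col : ∀ e ∈ BR z K, e.1 + e.2 = 2 * (z.1 + z.2) - 1 → (e ∈ W ↔ c) ∧ e ∉ E0
  row : -ρ ≤ r - (z.2 - z.1) ∧ r - (z.2 - z.1) ≤ ρ

/-- the room of world 3 -/
noncomputable def EL (z : ℤ × ℤ) (B : ℤ) : Finset (ℤ × ℤ) :=
  (BR z B).filter fun e => 2 * (z.1 + z.2) + 1 ≤ e.1 + e.2

lemma mem_EL {z e : ℤ × ℤ} {B : ℤ} : e ∈ EL z B ↔ e ∈ BR z B ∧ 2 * (z.1 + z.2) + 1 ≤ e.1 + e.2 := by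
  unfold EL; rw [mem_filter]

lemma flat_EL (z : ℤ × ℤ) (B : ℤ) : FlatRm (EL z B) z 1 1 B 0 := by
  refine ⟨fun l hl => (mem_BR.1 (mem_EL.1 hl).1).2.2, fun l hl _ => ?_, fun l hl h => ?_,
    fun l hl l' hl' _ h => ?_⟩
  · have := (mem_EL.1 hl).2
    omega
  · exact mem_EL.2 ⟨hl, by omega⟩
  · refine mem_EL.2 ⟨hl', ?_⟩
    have := (mem_EL.1 hl).2
    have h1 := neg_abs_le (l'.2 - l.2)
    omega

theorem wallL_prob : ∃ C α : ℝ, 0 < C ∧ 0 < α ∧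
    ∀ {β : Type} [DecidableEq β] (E0 W : Finset (ℤ × ℤ)) (b : ℤ × ℤ → β) (Λ D : Set (ℤ × ℤ))
    (z : ℤ × ℤ) (ρ M r : ℤ) (c : Prop), 1 ≤ ρ → ρ ≤ M →
    WallL E0 W b Λ D z ρ (M + 8) r c →
    PB E0 b (fun ω => ¬ OneExit Λ D (ω ∪ W) z (ρ - 3) (M + 7)) ≤ C * ((ρ : ℝ) / M) ^ α := by
  obtain ⟨C, α, hC, hα, H⟩ := cut_prob
  refine ⟨C, α, hC, hα, ?_⟩
  intro β _ E0 W b Λ D z ρ M r c hρ hρM L
  have hL : ∀ {e : ℤ × ℤ} {R : ℤ}, R ≤ M + 8 → e ∈ BR z R → e ∈ BR z (M + 8) := by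
    intro e R hR he
    rw [mem_BR] at he ⊢
    omega
  have hup : ∀ {e : ℤ × ℤ}, e ∈ BR z (M + 7) → up e ∈ BR z (M + 8) := by
    intro e he
    rw [mem_BR] at he ⊢
    rw [up_fst, up_snd]
    omega
  have hR : Ch (chH 1) (EL z (M + 4)) z (M + 4) (0 + 1) M (-1) 1 1 (-1) :=
    ch_H (Or.inl rfl) (flat_EL z (M + 4)) (by omega)
  have hfin := H (chH 1) (EL z (M + 4)) z (0 + 1) ρ M (M + 4) (-1) 1 1 (-1) 1
    (z.1 + z.2 - 5) r c E0 W b Λ D {e | (e.1 + e.2) % 2 = 1 ∧ 2 * (z.1 + z.2) - 1 ≤ e.1 + e.2}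
    hρ (by omega) hρM (by omega) (by omega) (by omega) (by omega) hR L.odd ?_ ?_ ?_ ?_ ?_ ?_ ?_
  · have e1 : M + 4 + 3 = M + 7 := by ring
    rwa [e1] at hfin
  · intro e he heB hin
    have h1 := L.lam e he (hL (by omega) heB)
    rw [L.del e he (hL (by omega) heB) hin]
    omega
  · intro e he heB _ _
    have h1 := L.lam e he (hL (by omega) heB)
    omega
  · intro e he heB _
    exact ⟨L.odd e he, L.lam e he (hL (by omega) heB)⟩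
  · intro e he heB _
    have h1 := L.lam e he (hL (by omega) heB)
    have h2 := L.odd e he
    simp only [Set.mem_ofPred_eq]
    rw [dn_fst, dn_snd]
    omega
  · intro ω hω
    have hs : (1 : ℤ) = 1 ∨ (1 : ℤ) = -1 := Or.inl rfl
    have hcol : ∀ e ∈ BR z (M + 8), e.1 + e.2 = 2 * (z.1 + z.2) - 1 → (e ∈ ω ∪ W ↔ c) := by
      intro e he h1
      obtain ⟨h2, h3⟩ := L.col e he h1
      rw [mem_union, h2]
      exact ⟨fun h => h.elim (fun h => absurd (hω h) h3) id, Or.inr⟩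
    refine ⟨fun e he => he.1, fun e _ _ _ _ => Set.notMem_empty _, fun e he hE heB => ?_,
      fun e he hE heB h1 => ⟨Set.notMem_empty _, ?_⟩, fun e he hE heB h1 => ⟨Set.notMem_empty _, ?_⟩⟩
    · rw [(chH_G hs e).1, (chH_G hs e).2, (chH_g hs z).1, (chH_g hs z).2]
      have h2 : ¬ (2 * (z.1 + z.2) + 1 ≤ e.1 + e.2) := fun h => hE (mem_EL.2 ⟨heB, h⟩)
      obtain ⟨h3, h4⟩ := he
      rcases abs_cases (e.2 - 2 * z.2) with h5 | h5 <;> omega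
    · rw [(chH_G hs e).2, (chH_g hs z).2] at h1
      have h2 : ¬ (2 * (z.1 + z.2) + 1 ≤ e.1 + e.2) := fun h => hE (mem_EL.2 ⟨heB, h⟩)
      obtain ⟨h3, h4⟩ := he
      have hr := L.row
      have hA : A3 (z.1 + z.2 - 5) r e := by unfold A3; omega
      have hZ : e ∈ BR z (M + 4 + 4) := by rw [mem_BR] at heB ⊢; omega
      rw [rg_pos hZ hA, hcol (up e) (hup (by rw [mem_BR] at heB ⊢; omega))
        (by rw [up_fst, up_snd]; omega)]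
    · rw [(chH_G hs e).2, (chH_g hs z).2] at h1
      have h2 : ¬ (2 * (z.1 + z.2) + 1 ≤ e.1 + e.2) := fun h => hE (mem_EL.2 ⟨heB, h⟩)
      obtain ⟨h3, h4⟩ := he
      have hr := L.row
      have hA : ¬ A3 (z.1 + z.2 - 5) r e := by unfold A3; omega
      have hZ : e ∈ BR z (M + 4 + 4) := by rw [mem_BR] at heB ⊢; omega
      rw [rg_neg hZ hA, hcol e (by rw [mem_BR] at heB ⊢; omega) (by omega)]
  · intro e he heM
    obtain ⟨h1, h2⟩ := mem_EL.1 he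
    by_cases hA : A3 (z.1 + z.2 - 5) r e
    · rw [psi_pos hA]
      exact L.room _ (hup (by rw [mem_BR] at heM ⊢; omega)) (by rw [up_fst, up_snd]; omega)
    · rw [psi_neg hA]
      exact L.room _ (by rw [mem_BR] at heM ⊢; omega) h2
  · have key : ∀ e ∈ EL z (M + 4), e ∈ BR z M → psi (z.1 + z.2 - 5) r e ∈ BR z (M + 8) ∧
        2 * (z.1 + z.2) + 1 ≤ (psi (z.1 + z.2 - 5) r e).1 + (psi (z.1 + z.2 - 5) r e).2 := by
      intro e he heM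
      obtain ⟨h1, h2⟩ := mem_EL.1 he
      by_cases hA : A3 (z.1 + z.2 - 5) r e
      · rw [psi_pos hA]
        exact ⟨hup (by rw [mem_BR] at heM ⊢; omega), by rw [up_fst, up_snd]; omega⟩
      · rw [psi_neg hA]
        exact ⟨by rw [mem_BR] at heM ⊢; omega, h2⟩
    intro e he heM e' he' heM' h
    obtain ⟨a1, a2⟩ := key e he heM
    obtain ⟨c1, c2⟩ := key e' he' heM'
    exact L.coin _ a1 a2 _ c1 c2 h

/-! ### Ceiling -/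

/-- **ceiling** through the vertex `z`, colour `c` of the layer, deleted row `r` from the column `x0` on -/
structure WallC {β : Type} (E0 W : Finset (ℤ × ℤ)) (b : ℤ × ℤ → β) (Λ D : Set (ℤ × ℤ))
    (z : ℤ × ℤ) (ρ K x0 r : ℤ) (c : Prop) : Prop where
  odd : ∀ e ∈ Λ, (e.1 + e.2) % 2 = 1
  lam : ∀ e ∈ Λ, e ∈ BR z K → e.2 - e.1 ≤ 2 * (z.2 - z.1) + 1
  room : ∀ e ∈ BR z K, e.2 - e.1 ≤ 2 * (z.2 - z.1) - 1 → e ∈ E0 ∧ e ∉ W
  coin : ∀ e ∈ BR z K, e.2 - e.1 ≤ 2 * (z.2 - z.1) - 1 → ∀ e' ∈ BR z K,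
    e'.2 - e'.1 ≤ 2 * (z.2 - z.1) - 1 → b e = b e' → e = e'
  del : ∀ e ∈ Λ, e ∈ BR z K → e ∉ BR z (ρ - 3) →
    (e ∈ D ↔ e.2 - e.1 = 2 * r + 1 ∧ 2 * x0 + 1 ≤ e.1 + e.2)
  col : ∀ e ∈ BR z K, e.2 - e.1 = 2 * (z.2 - z.1) + 1 → (e ∈ W ↔ c) ∧ e ∉ E0
  row : -(ρ - 5) ≤ r - (z.2 - z.1) ∧ r < z.2 - z.1
  colm : -(ρ - 5) ≤ x0 - (z.1 + z.2) ∧ x0 - (z.1 + z.2) ≤ ρ - 5

/-- the room of world 3 -/
noncomputable def EC (z : ℤ × ℤ) (x0 B : ℤ) : Finset (ℤ × ℤ) :=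
  (BR z B).filter fun e => (e.1 + e.2 ≤ 2 * x0 - 1 ∧ e.2 - e.1 ≤ 2 * (z.2 - z.1) - 1) ∨
    (2 * x0 + 1 ≤ e.1 + e.2 ∧ e.2 - e.1 ≤ 2 * (z.2 - z.1) - 3)

lemma mem_EC {z e : ℤ × ℤ} {x0 B : ℤ} : e ∈ EC z x0 B ↔ e ∈ BR z B ∧
    ((e.1 + e.2 ≤ 2 * x0 - 1 ∧ e.2 - e.1 ≤ 2 * (z.2 - z.1) - 1) ∨
    (2 * x0 + 1 ≤ e.1 + e.2 ∧ e.2 - e.1 ≤ 2 * (z.2 - z.1) - 3)) := by
  unfold EC; rw [mem_filter]

lemma flat_EC (z : ℤ × ℤ) (x0 B : ℤ) : FlatV (EC z x0 B) z 1 (-1) B 1 := by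
  refine ⟨fun l hl => (mem_BR.1 (mem_EC.1 hl).1).2.2, fun l hl _ => ?_, fun l hl h => ?_,
    fun l hl l' hl' hlB h => ?_⟩
  · have := (mem_EC.1 hl).2
    omega
  · have := (mem_BR.1 hl).2.2
    exact mem_EC.2 ⟨hl, by omega⟩
  · refine mem_EC.2 ⟨hl', ?_⟩
    have h0 := (mem_EC.1 hl).2
    have h1 := (mem_BR.1 hl').2.2
    have h2 := (mem_BR.1 hlB).2.2
    rcases abs_cases (l'.1 - l.1) with h5 | h5 <;> omega

theorem wallC_prob : ∃ C α : ℝ, 0 < C ∧ 0 < α ∧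
    ∀ {β : Type} [DecidableEq β] (E0 W : Finset (ℤ × ℤ)) (b : ℤ × ℤ → β) (Λ D : Set (ℤ × ℤ))
    (z : ℤ × ℤ) (ρ M x0 r : ℤ) (c : Prop), 1 ≤ ρ → ρ ≤ M →
    WallC E0 W b Λ D z ρ (M + 8) x0 r c →
    PB E0 b (fun ω => ¬ OneExit Λ D (ω ∪ W) z (ρ - 3) (M + 7)) ≤ C * ((ρ : ℝ) / M) ^ α := by
  obtain ⟨C, α, hC, hα, H⟩ := cut_prob
  refine ⟨C, α, hC, hα, ?_⟩
  intro β _ E0 W b Λ D z ρ M x0 r c hρ hρM L
  have hL : ∀ {e : ℤ × ℤ} {R : ℤ}, R ≤ M + 8 → e ∈ BR z R → e ∈ BR z (M + 8) := by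
    intro e R hR he
    rw [mem_BR] at he ⊢
    omega
  have hup : ∀ {e : ℤ × ℤ}, e ∈ BR z (M + 7) → up e ∈ BR z (M + 8) := by
    intro e he
    rw [mem_BR] at he ⊢
    rw [up_fst, up_snd]
    omega
  have hr := L.row
  have hx := L.colm
  have hR : Ch (chV (-1)) (EC z x0 (M + 4)) z (M + 4) (1 + 1) M 1 1 (-1) (-1) :=
    ch_C (flat_EC z x0 (M + 4)) (by omega)
  have hfin := H (chV (-1)) (EC z x0 (M + 4)) z (1 + 1) ρ M (M + 4) 1 1 (-1) (-1) 1 x0 r c E0 W b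
    Λ D {e | (e.1 + e.2) % 2 = 1 ∧ ((e.1 + e.2 ≤ 2 * x0 - 1 ∧ e.2 - e.1 ≤ 2 * (z.2 - z.1) + 1) ∨
      (2 * x0 + 1 ≤ e.1 + e.2 ∧ e.2 - e.1 ≤ 2 * (z.2 - z.1) - 1))}
    hρ (by omega) hρM (by omega) (by omega) (by omega) (by omega) hR L.odd ?_ ?_ ?_ ?_ ?_ ?_ ?_
  · have e1 : M + 4 + 3 = M + 7 := by ring
    rwa [e1] at hfin
  · intro e he heB hin
    exact L.del e he (hL (by omega) heB) hin
  · intro e he heB hin h1 h2
    have h3 := L.lam e he (hL (by omega) heB)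
    apply hin
    rw [mem_BR] at heB ⊢
    omega
  · intro e he heB h1
    have h2 := L.lam e he (hL (by omega) heB)
    have h3 := L.odd e he
    have h4 : ¬ (2 * r + 3 ≤ e.2 - e.1 ∧ 2 * x0 + 1 ≤ e.1 + e.2) := h1
    simp only [Set.mem_ofPred_eq]
    omega
  · intro e he heB h1
    have h2 := L.lam e he (hL (by omega) heB)
    have h3 := L.odd e he
    simp only [Set.mem_ofPred_eq]
    rw [dn_fst, dn_snd]
    omega
  · intro ω hω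
    have hs : (-1 : ℤ) = 1 ∨ (-1 : ℤ) = -1 := Or.inr rfl
    have hcol : ∀ e ∈ BR z (M + 8), e.2 - e.1 = 2 * (z.2 - z.1) + 1 → (e ∈ ω ∪ W ↔ c) := by
      intro e he h1
      obtain ⟨h2, h3⟩ := L.col e he h1
      rw [mem_union, h2]
      exact ⟨fun h => h.elim (fun h => absurd (hω h) h3) id, Or.inr⟩
    refine ⟨fun e he => he.1, fun e _ _ _ _ => Set.notMem_empty _, fun e he hE heB => ?_,
      fun e he hE heB h1 => ⟨Set.notMem_empty _, ?_⟩, fun e he hE heB h1 => ⟨Set.notMem_empty _, ?_⟩⟩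
    · rw [(chV_G hs e).1, (chV_G hs e).2, (chV_g hs z).1, (chV_g hs z).2]
      obtain ⟨h3, h4⟩ := he
      rcases abs_cases (e.1 - 2 * z.1) with h5 | h5 <;> omega
    · rw [(chV_G hs e).2, (chV_g hs z).2] at h1
      have h2 : ¬ ((e.1 + e.2 ≤ 2 * x0 - 1 ∧ e.2 - e.1 ≤ 2 * (z.2 - z.1) - 1) ∨
        (2 * x0 + 1 ≤ e.1 + e.2 ∧ e.2 - e.1 ≤ 2 * (z.2 - z.1) - 3)) := fun h =>
          hE (mem_EC.2 ⟨heB, h⟩)
      obtain ⟨h3, h4⟩ := he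
      have hA : A3 x0 r e := by unfold A3; omega
      have hZ : e ∈ BR z (M + 4 + 4) := by rw [mem_BR] at heB ⊢; omega
      rw [rg_pos hZ hA, hcol (up e) (hup (by rw [mem_BR] at heB ⊢; omega))
        (by rw [up_fst, up_snd]; omega)]
    · rw [(chV_G hs e).2, (chV_g hs z).2] at h1
      have h2 : ¬ ((e.1 + e.2 ≤ 2 * x0 - 1 ∧ e.2 - e.1 ≤ 2 * (z.2 - z.1) - 1) ∨
        (2 * x0 + 1 ≤ e.1 + e.2 ∧ e.2 - e.1 ≤ 2 * (z.2 - z.1) - 3)) := fun h =>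
          hE (mem_EC.2 ⟨heB, h⟩)
      obtain ⟨h3, h4⟩ := he
      have hA : ¬ A3 x0 r e := by unfold A3; omega
      have hZ : e ∈ BR z (M + 4 + 4) := by rw [mem_BR] at heB ⊢; omega
      rw [rg_neg hZ hA, hcol e (by rw [mem_BR] at heB ⊢; omega) (by omega)]
  · intro e he heM
    obtain ⟨h1, h2⟩ := mem_EC.1 he
    have h0 := (mem_BR.1 heM).2.2
    by_cases hA : A3 x0 r e
    · rw [psi_pos hA]
      unfold A3 at hA
      exact L.room _ (hup (by rw [mem_BR] at heM ⊢; omega)) (by rw [up_fst, up_snd]; omega)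
    · rw [psi_neg hA]
      exact L.room _ (by rw [mem_BR] at heM ⊢; omega) (by omega)
  · have key : ∀ e ∈ EC z x0 (M + 4), e ∈ BR z M → psi x0 r e ∈ BR z (M + 8) ∧
        (psi x0 r e).2 - (psi x0 r e).1 ≤ 2 * (z.2 - z.1) - 1 := by
      intro e he heM
      obtain ⟨h1, h2⟩ := mem_EC.1 he
      have h0 := (mem_BR.1 heM).2.2
      by_cases hA : A3 x0 r e
      · rw [psi_pos hA]
        unfold A3 at hA
        exact ⟨hup (by rw [mem_BR] at heM ⊢; omega), by rw [up_fst, up_snd]; omega⟩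
      · rw [psi_neg hA]
        exact ⟨by rw [mem_BR] at heM ⊢; omega, by omega⟩
    intro e he heM e' he' heM' h
    obtain ⟨a1, a2⟩ := key e he heM
    obtain ⟨c1, c2⟩ := key e' he' heM'
    exact L.coin _ a1 a2 _ c1 c2 h

end Pool.Agent.H97.W
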