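import Mathlib
import Pool.Agent.H97.W.Loc

set_option autoImplicit false
open Finset

/-! # One exit near a wall point: right wall, convex corners, floor

`wallR_prob`, `corNE_prob` : the deleted row ends in the inner box (no world 3). `wallF_prob`, `corSE_prob` :
the mirror images of `wallC_prob`, `corNE_prob`. -/

namespace Pool.Agent.H97.W

open Pool.Agent.H75.Perc Pool.Agent.H75.TwoArm Pool.Agent.H99.W Pool.Agent.H13.W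
open Pool.Agent.H99.NC (BR inR inR_iff)
open Pool.Agent.H70.W
open Pool.Agent.H45.W (sw sw_sw swS swF mem_swS mem_swF SG_sw Sd_sw sw_inj)
open Pool.Agent.H58.W (PB PB_mono PB_congr)
open Pool.Agent.H35.W (PB_image)

lemma OneExit.mono {Λ D : Set (ℤ × ℤ)} {w : Finset (ℤ × ℤ)} {z : ℤ × ℤ} {ρ ρ' B B' : ℤ}
    (hρ : ρ' ≤ ρ) (hB : B ≤ B') (h : OneExit Λ D w z ρ B) : OneExit Λ D w z ρ' B' := by
  obtain ⟨I, b, h1, h2, h3⟩ := h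
  refine ⟨I, b, h1, fun e he heB c hc => h2 e he ?_ c hc, fun c hc => ?_⟩
  · rw [mem_BR] at heB ⊢
    omega
  · obtain ⟨e, he, hs⟩ := h3 c hc
    refine ⟨e, ?_, hs⟩
    rw [mem_BR] at he ⊢
    omega

lemma BR_sw {z e : ℤ × ℤ} {B : ℤ} : sw e ∈ BR (sw z) B ↔ e ∈ BR z B := by
  rw [mem_BR, mem_BR]
  unfold sw
  simp only
  omega

/-- the mirror image of a set with one exit -/
lemma OneExit.sw {Λ D : Set (ℤ × ℤ)} {w : Finset (ℤ × ℤ)} {z : ℤ × ℤ} {ρ B : ℤ}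
    (h : OneExit (swS Λ) (swS D) (swF w) (Pool.Agent.H45.W.sw z) ρ B) : OneExit Λ D w z ρ B := by
  obtain ⟨I, b, h1, h2, h3⟩ := h
  refine ⟨swS I, Pool.Agent.H45.W.sw b, fun u v hu hv ha => ?_, fun e he heB c hc => ?_,
    fun c hc => ?_⟩
  · have := h1 (Pool.Agent.H45.W.sw u) (Pool.Agent.H45.W.sw v) hu hv (SG_sw.2 ha)
    rw [← this, sw_sw]
  · exact h2 (Pool.Agent.H45.W.sw e) (by rw [mem_swS, sw_sw]; exact he) (BR_sw.2 heB) _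
      (Sd_sw.2 hc)
  · obtain ⟨e, he, hs⟩ := h3 _ hc
    refine ⟨Pool.Agent.H45.W.sw e, ?_, ?_⟩
    · rw [← BR_sw, sw_sw]; exact he
    · rw [← Sd_sw, sw_sw]; exact hs

lemma swF_union (A B : Finset (ℤ × ℤ)) : swF (A ∪ B) = swF A ∪ swF B := by
  ext e
  rw [mem_swF, mem_union, mem_union, mem_swF, mem_swF]

/-- the mirror image of the coin model -/
lemma PB_sw {β : Type} [DecidableEq β] (E0 : Finset (ℤ × ℤ)) (b : ℤ × ℤ → β)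
    (A : Finset (ℤ × ℤ) → Prop) :
    PB E0 b A = PB (swF E0) (b ∘ sw) (fun ω => A (swF ω)) := by
  have him : ∀ X : Finset (ℤ × ℤ), X.image sw = swF X := by
    intro X
    ext e
    rw [mem_image, mem_swF]
    constructor
    · rintro ⟨e', h, rfl⟩
      rwa [sw_sw]
    · intro h
      exact ⟨sw e, h, sw_sw e⟩
  have h1 : E0 = (swF E0).image sw := by
    rw [him]
    simp
  conv_lhs => rw [h1, PB_image]
  apply PB_congr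
  intro ω _
  rw [him]

/-- transfer of a bound to the mirror image -/
lemma sw_bound {β : Type} [DecidableEq β] {E0 W : Finset (ℤ × ℤ)} {b : ℤ × ℤ → β}
    {Λ D : Set (ℤ × ℤ)} {z : ℤ × ℤ} {ρ B : ℤ} {R : ℝ}
    (h : PB (swF E0) (b ∘ sw) (fun ω => ¬ OneExit (swS Λ) (swS D) (ω ∪ swF W) (sw z) ρ B) ≤ R) :
    PB E0 b (fun ω => ¬ OneExit Λ D (ω ∪ W) z ρ B) ≤ R := by
  rw [PB_sw]
  refine le_trans ?_ h
  apply PB_mono
  intro ω _ hω hno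
  apply hω
  apply OneExit.sw
  rw [swF_union, Pool.Agent.H45.W.swF_swF]
  exact hno

open Classical in
/-- **no cut**: probability of one exit when the deleted row ends in the inner box -/
theorem nocut_prob : ∃ C α : ℝ, 0 < C ∧ 0 < α ∧
    ∀ {β : Type} [DecidableEq β] (Φ : SyC) (E : Finset (ℤ × ℤ)) (z : ℤ × ℤ)
    (N ρ M B s1 t1 s2 t2 τ : ℤ) (c : Prop) (E0 W : Finset (ℤ × ℤ)) (b : ℤ × ℤ → β)
    (Λ D : Set (ℤ × ℤ)), 1 ≤ ρ → N ≤ ρ + 1 → ρ ≤ M → M + N + 2 ≤ B → M + τ + 2 ≤ B → 0 ≤ N →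
    0 ≤ τ → Ch Φ E z B N M s1 t1 s2 t2 →
    (∀ ω ⊆ E0, LayW Φ E Λ D (ω ∪ W) z ρ B τ (¬ c) c) →
    (∀ e ∈ E, e ∈ BR z M → e ∈ E0 ∧ e ∉ W) →
    (∀ e ∈ E, e ∈ BR z M → ∀ e' ∈ E, e' ∈ BR z M → b e = b e' → e = e') →
    PB E0 b (fun ω => ¬ OneExit Λ D (ω ∪ W) z (ρ - 1) B) ≤ C * ((ρ : ℝ) / M) ^ α := by
  obtain ⟨C, α, hC, hα, H⟩ := hr_prob
  refine ⟨C, α, hC, hα, ?_⟩
  intro β _ Φ E z N ρ M B s1 t1 s2 t2 τ c E0 W b Λ D hρ hN hρM hB1 hB2 hN0 hτ R Y hroom hcoin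
  have hAn : ∀ e ∈ E ∩ An z ρ M, e ∈ E ∧ e ∈ BR z M := by
    intro e he
    obtain ⟨h1, h2⟩ := mem_inter.1 he
    exact ⟨h1, mem_BR.2 (mem_An.1 h2).1⟩
  refine le_trans ?_ (H Φ E z N ρ M B s1 t1 s2 t2 hρ hN hρM (by omega) R E0 b id
    (fun _ => True) (fun ω => ω ∪ W)
    (fun e he => (hroom e (hAn e he).1 (hAn e he).2).1)
    (fun e he e' he' h => hcoin e (hAn e he).1 (hAn e he).2 e' (hAn e' he').1
      (hAn e' he').2 h) ?_)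
  · apply PB_mono
    intro ω hω hno hHC
    apply hno
    exact one_of_blk (R.blk (Y ω hω) hρ hB1 hB2 hN0 hτ hHC)
  · intro ω hω e he
    have hW := (hroom e (hAn e he).1 (hAn e he).2).2
    rw [mem_union, id]
    tauto

/-! ### Right wall -/

/-- **right wall** through the vertex `z`; the deleted row `r` ends in the wall near `z`; colour `c` below
the row -/
structure WallR {β : Type} (E0 W : Finset (ℤ × ℤ)) (b : ℤ × ℤ → β) (Λ D : Set (ℤ × ℤ))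
    (z : ℤ × ℤ) (ρ K r : ℤ) (c : Prop) : Prop where
  odd : ∀ e ∈ Λ, (e.1 + e.2) % 2 = 1
  lam : ∀ e ∈ Λ, e ∈ BR z K → e.1 + e.2 ≤ 2 * (z.1 + z.2) + 1
  room : ∀ e ∈ BR z K, e.1 + e.2 ≤ 2 * (z.1 + z.2) - 1 → e ∈ E0 ∧ e ∉ W
  coin : ∀ e ∈ BR z K, e.1 + e.2 ≤ 2 * (z.1 + z.2) - 1 → ∀ e' ∈ BR z K,
    e'.1 + e'.2 ≤ 2 * (z.1 + z.2) - 1 → b e = b e' → e = e'
  del : ∀ e ∈ Λ, e ∈ BR z K → e ∉ BR z (ρ - 3) → e ∉ D
  colu : ∀ e ∈ BR z K, e.1 + e.2 = 2 * (z.1 + z.2) + 1 → 2 * r + 1 < e.2 - e.1 →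
    (e ∈ W ↔ ¬ c) ∧ e ∉ E0
  cold : ∀ e ∈ BR z K, e.1 + e.2 = 2 * (z.1 + z.2) + 1 → e.2 - e.1 < 2 * r + 1 →
    (e ∈ W ↔ c) ∧ e ∉ E0
  row : -ρ ≤ r - (z.2 - z.1) ∧ r - (z.2 - z.1) ≤ ρ - 1

/-- the room at a right wall -/
noncomputable def ER (z : ℤ × ℤ) (B : ℤ) : Finset (ℤ × ℤ) :=
  (BR z B).filter fun e => e.1 + e.2 ≤ 2 * (z.1 + z.2) - 1

lemma mem_ER {z e : ℤ × ℤ} {B : ℤ} : e ∈ ER z B ↔ e ∈ BR z B ∧ e.1 + e.2 ≤ 2 * (z.1 + z.2) - 1 := by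
  unfold ER; rw [mem_filter]

lemma flat_ER (z : ℤ × ℤ) (B : ℤ) : FlatRm (ER z B) z (-1) (-1) B 0 := by
  refine ⟨fun l hl => (mem_BR.1 (mem_ER.1 hl).1).2.2, fun l hl _ => ?_, fun l hl h => ?_,
    fun l hl l' hl' _ h => ?_⟩
  · have := (mem_ER.1 hl).2
    omega
  · exact mem_ER.2 ⟨hl, by omega⟩
  · refine mem_ER.2 ⟨hl', ?_⟩
    have := (mem_ER.1 hl).2
    have h1 := le_abs_self (l'.2 - l.2)
    omega

theorem wallR_prob : ∃ C α : ℝ, 0 < C ∧ 0 < α ∧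
    ∀ {β : Type} [DecidableEq β] (E0 W : Finset (ℤ × ℤ)) (b : ℤ × ℤ → β) (Λ D : Set (ℤ × ℤ))
    (z : ℤ × ℤ) (ρ M r : ℤ) (c : Prop), 1 ≤ ρ → ρ ≤ M →
    WallR E0 W b Λ D z ρ (M + 8) r c →
    PB E0 b (fun ω => ¬ OneExit Λ D (ω ∪ W) z (ρ - 3) (M + 7)) ≤ C * ((ρ : ℝ) / M) ^ α := by
  obtain ⟨C, α, hC, hα, H⟩ := nocut_prob
  refine ⟨C, α, hC, hα, ?_⟩
  intro β _ E0 W b Λ D z ρ M r c hρ hρM L
  have hL : ∀ {e : ℤ × ℤ} {R : ℤ}, R ≤ M + 8 → e ∈ BR z R → e ∈ BR z (M + 8) := by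
    intro e R hR he
    rw [mem_BR] at he ⊢
    omega
  have hs : (-1 : ℤ) = 1 ∨ (-1 : ℤ) = -1 := Or.inr rfl
  have hr := L.row
  have hR : Ch (chH (-1)) (ER z (M + 4)) z (M + 4) (0 + 1) M (-1) 1 1 (-1) :=
    ch_H hs (flat_ER z (M + 4)) (by omega)
  have hout : ∀ e ∈ Λ, e ∉ ER z (M + 4) → e ∈ BR z (M + 4) → e.1 + e.2 = 2 * (z.1 + z.2) + 1 := by
    intro e he hE heB
    have h1 := L.lam e he (hL (by omega) heB)
    have h2 := L.odd e he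
    have h3 : ¬ (e.1 + e.2 ≤ 2 * (z.1 + z.2) - 1) := fun h => hE (mem_ER.2 ⟨heB, h⟩)
    omega
  have hfin := H (chH (-1)) (ER z (M + 4)) z (0 + 1) ρ M (M + 4) (-1) 1 1 (-1) 1 c E0 W b Λ D
    hρ (by omega) hρM (by omega) (by omega) (by omega) (by omega) hR ?_ ?_ ?_
  · refine le_trans ?_ hfin
    apply PB_mono
    intro ω _ hno h
    exact hno (h.mono (by omega) (by omega))
  · intro ω hω
    refine ⟨L.odd, fun e he _ heB hn => L.del e he (hL (by omega) heB) ?_, fun e he hE heB => ?_,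
      fun e he hE heB h1 => ⟨?_, ?_⟩, fun e he hE heB h1 => ⟨?_, ?_⟩⟩
    · intro h
      apply hn
      rw [mem_BR] at h ⊢
      omega
    · rw [(chH_G hs e).1, (chH_G hs e).2, (chH_g hs z).1, (chH_g hs z).2]
      have := hout e he hE heB
      rcases abs_cases (e.2 - 2 * z.2) with h5 | h5 <;> omega
    · rw [(chH_G hs e).2, (chH_g hs z).2] at h1
      refine L.del e he (hL (by omega) heB) fun h => ?_
      rw [mem_BR] at h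
      omega
    · rw [(chH_G hs e).2, (chH_g hs z).2] at h1
      have h2 := hout e he hE heB
      obtain ⟨h3, h4⟩ := L.colu e (hL (by omega) heB) h2 (by omega)
      rw [mem_union, h3]
      exact ⟨fun h => h.elim (fun h => absurd (hω h) h4) id, Or.inr⟩
    · rw [(chH_G hs e).2, (chH_g hs z).2] at h1
      refine L.del e he (hL (by omega) heB) fun h => ?_
      rw [mem_BR] at h
      omega
    · rw [(chH_G hs e).2, (chH_g hs z).2] at h1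
      have h2 := hout e he hE heB
      obtain ⟨h3, h4⟩ := L.cold e (hL (by omega) heB) h2 (by omega)
      rw [mem_union, h3]
      exact ⟨fun h => h.elim (fun h => absurd (hω h) h4) id, Or.inr⟩
  · intro e he heM
    exact L.room e (hL (by omega) heM) (mem_ER.1 he).2
  · intro e he heM e' he' heM' h
    exact L.coin e (hL (by omega) heM) (mem_ER.1 he).2 e' (hL (by omega) heM') (mem_ER.1 he').2 h

/-! ### Convex corner north east -/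

/-- **convex corner, north east** at the vertex `z`; the deleted row `r` ends in the right wall near `z`; colour
`¬ c` of the right wall below the row, colour `c` of the ceiling -/
structure CorNE {β : Type} (E0 W : Finset (ℤ × ℤ)) (b : ℤ × ℤ → β) (Λ D : Set (ℤ × ℤ))
    (z : ℤ × ℤ) (ρ K r : ℤ) (c : Prop) : Prop where
  odd : ∀ e ∈ Λ, (e.1 + e.2) % 2 = 1
  lam : ∀ e ∈ Λ, e ∈ BR z K → e.1 + e.2 ≤ 2 * (z.1 + z.2) + 1 ∧ e.2 - e.1 ≤ 2 * (z.2 - z.1) + 1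
  room : ∀ e ∈ BR z K, e.1 + e.2 ≤ 2 * (z.1 + z.2) - 1 → e.2 - e.1 ≤ 2 * (z.2 - z.1) - 1 →
    e ∈ E0 ∧ e ∉ W
  coin : ∀ e ∈ BR z K, e.1 + e.2 ≤ 2 * (z.1 + z.2) - 1 → e.2 - e.1 ≤ 2 * (z.2 - z.1) - 1 →
    ∀ e' ∈ BR z K, e'.1 + e'.2 ≤ 2 * (z.1 + z.2) - 1 → e'.2 - e'.1 ≤ 2 * (z.2 - z.1) - 1 →
    b e = b e' → e = e'
  del : ∀ e ∈ Λ, e ∈ BR z K → e ∉ BR z (ρ - 3) → e ∉ D
  colr : ∀ e ∈ BR z K, e.1 + e.2 = 2 * (z.1 + z.2) + 1 → e.2 - e.1 ≤ 2 * (z.2 - z.1) - 1 →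
    e.2 - e.1 < 2 * r + 1 → (e ∈ W ↔ ¬ c) ∧ e ∉ E0
  colc : ∀ e ∈ BR z K, e.2 - e.1 = 2 * (z.2 - z.1) + 1 → e.1 + e.2 ≤ 2 * (z.1 + z.2) - 1 →
    (e ∈ W ↔ c) ∧ e ∉ E0
  row : -ρ ≤ r - (z.2 - z.1)

/-- the room at the corner -/
noncomputable def EN (z : ℤ × ℤ) (B : ℤ) : Finset (ℤ × ℤ) :=
  (BR z B).filter fun e => e.1 + e.2 ≤ 2 * (z.1 + z.2) - 1 ∧ e.2 - e.1 ≤ 2 * (z.2 - z.1) - 1

lemma mem_EN {z e : ℤ × ℤ} {B : ℤ} : e ∈ EN z B ↔ e ∈ BR z B ∧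
    (e.1 + e.2 ≤ 2 * (z.1 + z.2) - 1 ∧ e.2 - e.1 ≤ 2 * (z.2 - z.1) - 1) := by
  unfold EN; rw [mem_filter]

lemma cvx_EN (z : ℤ × ℤ) (B : ℤ) : CvxNE (EN z B) z B := by
  refine ⟨fun l hl => (mem_BR.1 (mem_EN.1 hl).1).2.2, fun l hl => ?_⟩
  rw [mem_EN]
  constructor
  · rintro ⟨-, h1, h2⟩
    omega
  · rintro ⟨h1, h2⟩
    exact ⟨hl, by omega, by omega⟩

theorem corNE_prob : ∃ C α : ℝ, 0 < C ∧ 0 < α ∧
    ∀ {β : Type} [DecidableEq β] (E0 W : Finset (ℤ × ℤ)) (b : ℤ × ℤ → β) (Λ D : Set (ℤ × ℤ))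
    (z : ℤ × ℤ) (ρ M r : ℤ) (c : Prop), 1 ≤ ρ → ρ ≤ M →
    CorNE E0 W b Λ D z ρ (M + 8) r c →
    PB E0 b (fun ω => ¬ OneExit Λ D (ω ∪ W) z (ρ - 3) (M + 7)) ≤ C * ((ρ : ℝ) / M) ^ α := by
  obtain ⟨C, α, hC, hα, H⟩ := nocut_prob
  refine ⟨C, α, hC, hα, ?_⟩
  intro β _ E0 W b Λ D z ρ M r c hρ hρM L
  have hL : ∀ {e : ℤ × ℤ} {R : ℤ}, R ≤ M + 8 → e ∈ BR z R → e ∈ BR z (M + 8) := by
    intro e R hR he
    rw [mem_BR] at he ⊢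
    omega
  have hs : (-1 : ℤ) = 1 ∨ (-1 : ℤ) = -1 := Or.inr rfl
  have hr := L.row
  have hR : Ch (chV (-1)) (EN z (M + 4)) z (M + 4) 1 M 1 (-1) (-1) (-1) :=
    ch_NE (cvx_EN z (M + 4)) (by omega)
  have hout : ∀ e ∈ Λ, e ∉ EN z (M + 4) → e ∈ BR z (M + 4) →
      (e.1 + e.2 = 2 * (z.1 + z.2) + 1 ∧ e.2 - e.1 ≤ 2 * (z.2 - z.1) + 1) ∨
      (e.2 - e.1 = 2 * (z.2 - z.1) + 1 ∧ e.1 + e.2 ≤ 2 * (z.1 + z.2) - 1) := by
    intro e he hE heB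
    have h1 := L.lam e he (hL (by omega) heB)
    have h2 := L.odd e he
    have h3 : ¬ (e.1 + e.2 ≤ 2 * (z.1 + z.2) - 1 ∧ e.2 - e.1 ≤ 2 * (z.2 - z.1) - 1) :=
      fun h => hE (mem_EN.2 ⟨heB, h⟩)
    omega
  have hdel : ∀ e ∈ Λ, e ∈ BR z (M + 4) → (2 * ρ ≤ e.1 - 2 * z.1 ∨ e.1 - 2 * z.1 ≤ -(2 * ρ)) →
      e ∉ D := by
    intro e he heB h1
    refine L.del e he (hL (by omega) heB) fun h => ?_
    rw [mem_BR] at h
    omega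
  have hfin := H (chV (-1)) (EN z (M + 4)) z 1 ρ M (M + 4) 1 (-1) (-1) (-1) 1 c E0 W b Λ D
    hρ (by omega) hρM (by omega) (by omega) (by omega) (by omega) hR ?_ ?_ ?_
  · refine le_trans ?_ hfin
    apply PB_mono
    intro ω _ hno h
    exact hno (h.mono (by omega) (by omega))
  · intro ω hω
    refine ⟨L.odd, fun e he _ heB hn => L.del e he (hL (by omega) heB) ?_, fun e he hE heB => ?_,
      fun e he hE heB h1 => ⟨?_, ?_⟩, fun e he hE heB h1 => ⟨?_, ?_⟩⟩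
    · intro h
      apply hn
      rw [mem_BR] at h ⊢
      omega
    · rw [(chV_G hs e).1, (chV_G hs e).2, (chV_g hs z).1, (chV_g hs z).2]
      have := hout e he hE heB
      rcases abs_cases (e.1 - 2 * z.1) with h5 | h5 <;> omega
    · rw [(chV_G hs e).2, (chV_g hs z).2] at h1
      exact hdel e he heB (Or.inl h1)
    · rw [(chV_G hs e).2, (chV_g hs z).2] at h1
      have h2 := hout e he hE heB
      obtain ⟨h3, h4⟩ := L.colr e (hL (by omega) heB) (by omega) (by omega) (by omega)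
      rw [mem_union, h3]
      exact ⟨fun h => h.elim (fun h => absurd (hω h) h4) id, Or.inr⟩
    · rw [(chV_G hs e).2, (chV_g hs z).2] at h1
      exact hdel e he heB (Or.inr h1)
    · rw [(chV_G hs e).2, (chV_g hs z).2] at h1
      have h2 := hout e he hE heB
      obtain ⟨h3, h4⟩ := L.colc e (hL (by omega) heB) (by omega) (by omega)
      rw [mem_union, h3]
      exact ⟨fun h => h.elim (fun h => absurd (hω h) h4) id, Or.inr⟩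
  · intro e he heM
    exact L.room e (hL (by omega) heM) (mem_EN.1 he).2.1 (mem_EN.1 he).2.2
  · intro e he heM e' he' heM' h
    exact L.coin e (hL (by omega) heM) (mem_EN.1 he).2.1 (mem_EN.1 he).2.2 e'
      (hL (by omega) heM') (mem_EN.1 he').2.1 (mem_EN.1 he').2.2 h

/-! ### Floor -/

/-- **floor** through the vertex `z`, colour `c` of the layer, deleted row `r` from the column `x0` on -/
structure WallF {β : Type} (E0 W : Finset (ℤ × ℤ)) (b : ℤ × ℤ → β) (Λ D : Set (ℤ × ℤ))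
    (z : ℤ × ℤ) (ρ K x0 r : ℤ) (c : Prop) : Prop where
  odd : ∀ e ∈ Λ, (e.1 + e.2) % 2 = 1
  lam : ∀ e ∈ Λ, e ∈ BR z K → 2 * (z.2 - z.1) - 1 ≤ e.2 - e.1
  room : ∀ e ∈ BR z K, 2 * (z.2 - z.1) + 1 ≤ e.2 - e.1 → e ∈ E0 ∧ e ∉ W
  coin : ∀ e ∈ BR z K, 2 * (z.2 - z.1) + 1 ≤ e.2 - e.1 → ∀ e' ∈ BR z K,
    2 * (z.2 - z.1) + 1 ≤ e'.2 - e'.1 → b e = b e' → e = e'
  del : ∀ e ∈ Λ, e ∈ BR z K → e ∉ BR z (ρ - 3) →
    (e ∈ D ↔ e.2 - e.1 = 2 * r + 1 ∧ 2 * x0 + 1 ≤ e.1 + e.2)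
  col : ∀ e ∈ BR z K, e.2 - e.1 = 2 * (z.2 - z.1) - 1 → (e ∈ W ↔ c) ∧ e ∉ E0
  row : z.2 - z.1 ≤ r ∧ r - (z.2 - z.1) ≤ ρ - 6
  colm : -(ρ - 5) ≤ x0 - (z.1 + z.2) ∧ x0 - (z.1 + z.2) ≤ ρ - 5

lemma sw_fst (e : ℤ × ℤ) : (sw e).1 = e.2 := rfl
lemma sw_snd (e : ℤ × ℤ) : (sw e).2 = e.1 := rfl

lemma BR_sw' {z e : ℤ × ℤ} {B : ℤ} : e ∈ BR (sw z) B ↔ sw e ∈ BR z B := by
  rw [← BR_sw (e := sw e), sw_sw]

lemma WallF.toC {β : Type} {E0 W : Finset (ℤ × ℤ)} {b : ℤ × ℤ → β} {Λ D : Set (ℤ × ℤ)}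
    {z : ℤ × ℤ} {ρ K x0 r : ℤ} {c : Prop} (L : WallF E0 W b Λ D z ρ K x0 r c) :
    WallC (swF E0) (swF W) (b ∘ sw) (swS Λ) (swS D) (sw z) ρ K x0 (-r - 1) c := by
  refine ⟨?_, ?_, ?_, ?_, ?_, ?_, ?_, ?_⟩
  · intro e he
    have := L.odd _ he
    rw [sw_fst, sw_snd] at this
    omega
  · intro e he heB
    have := L.lam _ he (BR_sw'.1 heB)
    rw [sw_fst, sw_snd] at this ⊢
    omega
  · intro e heB h
    rw [mem_swF, mem_swF]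
    apply L.room _ (BR_sw'.1 heB)
    rw [sw_fst, sw_snd] at h ⊢
    omega
  · intro e heB h e' heB' h' hb
    apply sw_inj
    apply L.coin _ (BR_sw'.1 heB) ?_ _ (BR_sw'.1 heB') ?_ hb
    · rw [sw_fst, sw_snd] at h ⊢
      omega
    · rw [sw_fst, sw_snd] at h' ⊢
      omega
  · intro e he heB hn
    have := L.del _ he (BR_sw'.1 heB) (fun h => hn (BR_sw'.2 h))
    rw [mem_swS, this, sw_fst, sw_snd]
    constructor
    · rintro ⟨h1, h2⟩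
      exact ⟨by omega, by omega⟩
    · rintro ⟨h1, h2⟩
      exact ⟨by omega, by omega⟩
  · intro e heB h
    rw [mem_swF, mem_swF]
    apply L.col _ (BR_sw'.1 heB)
    rw [sw_fst, sw_snd] at h ⊢
    omega
  · have := L.row
    rw [sw_fst, sw_snd]
    omega
  · have := L.colm
    rw [sw_fst, sw_snd]
    omega

theorem wallF_prob : ∃ C α : ℝ, 0 < C ∧ 0 < α ∧
    ∀ {β : Type} [DecidableEq β] (E0 W : Finset (ℤ × ℤ)) (b : ℤ × ℤ → β) (Λ D : Set (ℤ × ℤ))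
    (z : ℤ × ℤ) (ρ M x0 r : ℤ) (c : Prop), 1 ≤ ρ → ρ ≤ M →
    WallF E0 W b Λ D z ρ (M + 8) x0 r c →
    PB E0 b (fun ω => ¬ OneExit Λ D (ω ∪ W) z (ρ - 3) (M + 7)) ≤ C * ((ρ : ℝ) / M) ^ α := by
  obtain ⟨C, α, hC, hα, H⟩ := wallC_prob
  refine ⟨C, α, hC, hα, ?_⟩
  intro β _ E0 W b Λ D z ρ M x0 r c hρ hρM L
  exact sw_bound (H _ _ _ _ _ _ ρ M x0 (-r - 1) c hρ hρM L.toC)

/-! ### Convex corner south east -/

/-- **convex corner, south east** at the vertex `z`; the deleted row `r` ends in the right wall near `z`; colour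
`¬ c` of the right wall above the row, colour `c` of the floor -/
structure CorSE {β : Type} (E0 W : Finset (ℤ × ℤ)) (b : ℤ × ℤ → β) (Λ D : Set (ℤ × ℤ))
    (z : ℤ × ℤ) (ρ K r : ℤ) (c : Prop) : Prop where
  odd : ∀ e ∈ Λ, (e.1 + e.2) % 2 = 1
  lam : ∀ e ∈ Λ, e ∈ BR z K → e.1 + e.2 ≤ 2 * (z.1 + z.2) + 1 ∧ 2 * (z.2 - z.1) - 1 ≤ e.2 - e.1
  room : ∀ e ∈ BR z K, e.1 + e.2 ≤ 2 * (z.1 + z.2) - 1 → 2 * (z.2 - z.1) + 1 ≤ e.2 - e.1 →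
    e ∈ E0 ∧ e ∉ W
  coin : ∀ e ∈ BR z K, e.1 + e.2 ≤ 2 * (z.1 + z.2) - 1 → 2 * (z.2 - z.1) + 1 ≤ e.2 - e.1 →
    ∀ e' ∈ BR z K, e'.1 + e'.2 ≤ 2 * (z.1 + z.2) - 1 → 2 * (z.2 - z.1) + 1 ≤ e'.2 - e'.1 →
    b e = b e' → e = e'
  del : ∀ e ∈ Λ, e ∈ BR z K → e ∉ BR z (ρ - 3) → e ∉ D
  colr : ∀ e ∈ BR z K, e.1 + e.2 = 2 * (z.1 + z.2) + 1 → 2 * (z.2 - z.1) + 1 ≤ e.2 - e.1 →
    2 * r + 1 < e.2 - e.1 → (e ∈ W ↔ ¬ c) ∧ e ∉ E0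
  colc : ∀ e ∈ BR z K, e.2 - e.1 = 2 * (z.2 - z.1) - 1 → e.1 + e.2 ≤ 2 * (z.1 + z.2) - 1 →
    (e ∈ W ↔ c) ∧ e ∉ E0
  row : r - (z.2 - z.1) ≤ ρ - 1

lemma CorSE.toNE {β : Type} {E0 W : Finset (ℤ × ℤ)} {b : ℤ × ℤ → β} {Λ D : Set (ℤ × ℤ)}
    {z : ℤ × ℤ} {ρ K r : ℤ} {c : Prop} (L : CorSE E0 W b Λ D z ρ K r c) :
    CorNE (swF E0) (swF W) (b ∘ sw) (swS Λ) (swS D) (sw z) ρ K (-r - 1) c := by
  refine ⟨?_, ?_, ?_, ?_, ?_, ?_, ?_, ?_⟩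
  · intro e he
    have := L.odd _ he
    rw [sw_fst, sw_snd] at this
    omega
  · intro e he heB
    have := L.lam _ he (BR_sw'.1 heB)
    rw [sw_fst, sw_snd] at this ⊢
    omega
  · intro e heB h h'
    rw [mem_swF, mem_swF]
    apply L.room _ (BR_sw'.1 heB)
    · rw [sw_fst, sw_snd] at h ⊢
      omega
    · rw [sw_fst, sw_snd] at h' ⊢
      omega
  · intro e heB h h2 e' heB' h' h2' hb
    apply sw_inj
    rw [sw_fst, sw_snd] at h h2 h' h2'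
    apply L.coin _ (BR_sw'.1 heB) ?_ ?_ _ (BR_sw'.1 heB') ?_ ?_ hb <;> rw [sw_fst, sw_snd] <;> omega
  · intro e he heB hn
    exact L.del _ he (BR_sw'.1 heB) (fun h => hn (BR_sw'.2 h))
  · intro e heB h h2 h3
    rw [mem_swF, mem_swF]
    rw [sw_fst, sw_snd] at h h2
    apply L.colr _ (BR_sw'.1 heB) <;> rw [sw_fst, sw_snd] <;> omega
  · intro e heB h h2
    rw [mem_swF, mem_swF]
    rw [sw_fst, sw_snd] at h h2
    apply L.colc _ (BR_sw'.1 heB) <;> rw [sw_fst, sw_snd] <;> omega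
  · have := L.row
    rw [sw_fst, sw_snd]
    omega

theorem corSE_prob : ∃ C α : ℝ, 0 < C ∧ 0 < α ∧
    ∀ {β : Type} [DecidableEq β] (E0 W : Finset (ℤ × ℤ)) (b : ℤ × ℤ → β) (Λ D : Set (ℤ × ℤ))
    (z : ℤ × ℤ) (ρ M r : ℤ) (c : Prop), 1 ≤ ρ → ρ ≤ M →
    CorSE E0 W b Λ D z ρ (M + 8) r c →
    PB E0 b (fun ω => ¬ OneExit Λ D (ω ∪ W) z (ρ - 3) (M + 7)) ≤ C * ((ρ : ℝ) / M) ^ α := by
  obtain ⟨C, α, hC, hα, H⟩ := corNE_prob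
  refine ⟨C, α, hC, hα, ?_⟩
  intro β _ E0 W b Λ D z ρ M r c hρ hρM L
  exact sw_bound (H _ _ _ _ _ _ ρ M (-r - 1) c hρ hρM L.toNE)

end Pool.Agent.H97.W
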