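import Mathlib
import Pool.Agent.H97.W.Loc2
import Pool.Agent.H47.W.Room8
import Pool.Agent.H74.W.WorldRf

set_option autoImplicit false
open Finset

/-! # The glued world near a point of a side

`Near` : the tile and its neighbours belong to the inner and the outer cell of one side. `ly_near`, `lam_near`,
`wp_near` : the tiles of the world there. `near_R`, `near_L`, `near_C`, `near_F` : boxes at the four sides. -/

namespace Pool.Agent.H97.W

open Pool.Agent.H75.Perc hiding WL CT hh PB EE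
open Pool.Agent.H75.TwoArm Pool.Agent.H99.W Pool.Agent.H13.W
open Pool.Agent.H33.Q1 Pool.Agent.H21.FM
open Pool.Agent.Q1.M4 (Cell Good IsSide nextSide tail head PType)
open Pool.Agent.H33.FM (side_isSide)
open Pool.Agent.H37.W (dg dg_eq)
open Pool.Agent.H74.W (Lam3 Del Ex Wp yy GW Cv Aft mem_Wp)
open Pool.Agent.H99.NC (BR inR inR_iff)
open Pool.Agent.H70.W (mem_BR)

/-- the tile `t` and its neighbours belong to the cells `c`, `c + d` -/
def Near (n : ℤ) (c d : Cell) (t : ℤ × ℤ) : Prop :=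
  (ct n t = c ∨ ct n t = c + d) ∧ ∀ k, ct n (t - dir k) = c ∨ ct n (t - dir k) = c + d

/-- not near a grid vertex -/
def NC (n : ℤ) (t : ℤ × ℤ) : Prop :=
  (∀ X : ℤ, t.1 ≠ X * n ∧ t.1 ≠ X * n - 1) ∨ ∀ Y : ℤ, t.2 ≠ Y * n ∧ t.2 ≠ Y * n - 1

lemma dir_inj4 {a b : ℤ} (h : dir a = dir b) : (a - b) % 4 = 0 := by
  rcases dir_cases a with ⟨h1, e1⟩ | ⟨h1, e1⟩ | ⟨h1, e1⟩ | ⟨h1, e1⟩ <;>
    rcases dir_cases b with ⟨h2, e2⟩ | ⟨h2, e2⟩ | ⟨h2, e2⟩ | ⟨h2, e2⟩ <;>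
    rw [e1, e2] at h <;> simp at h <;> omega

section

variable {S : Shape} {H : ℕ} {i j : ℕ} {e p : ℤ × ℤ}

lemma ly_near (hH : 0 < H) (hi : i < S.N) (hj : j < S.N)
    (hN : Near (2 * H) (S.P.side i).1 (dir ((S.P.side i).2 - 1)) (tt e))
    (he : e ∈ LY (2 * H) (S.P.side j)) : j = i := by
  have hn : (0 : ℤ) < 2 * H := by omega
  have si := isSide_side' S.P i
  have sj := isSide_side' S.P j
  rw [mem_LY hn] at he
  obtain ⟨-, h1, h2⟩ := he
  obtain ⟨k1, k2⟩ := hN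
  have e1 : (S.P.side j).1 + dir ((S.P.side j).2 - 1) =
      (S.P.side i).1 + dir ((S.P.side i).2 - 1) := by
    rw [h1] at k1
    rcases k1 with k1 | k1
    · exact absurd (k1 ▸ si.1) sj.2
    · exact k1
  have e2 : (S.P.side j).1 = (S.P.side i).1 := by
    have := k2 ((S.P.side j).2 - 1)
    rw [h2] at this
    rcases this with h | h
    · exact h
    · exact absurd (h ▸ sj.1) si.2
  rw [e2] at e1
  have e3 := dir_inj4 (add_left_cancel e1)
  exact S.P.inj j hj i hi e2 (by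
    have h4 : ((S.P.side j).2 - (S.P.side i).2) % 4 = 0 := by omega
    exact h4)

lemma dg_not_near (hnc : NC (2 * H) (tt e)) (j : ℕ) : dg S H j ≠ e := by
  intro h
  rw [← h, dg_eq, tt_lt] at hnc
  unfold ot it wp at hnc
  unfold NC at hnc
  rcases io_dir (S.P.side j).2 with ⟨-, b, c, d⟩ | ⟨-, b, c, d⟩ | ⟨-, b, c, d⟩ | ⟨-, b, c, d⟩ <;>
    rw [b, c, d] at hnc <;> simp only [Prod.fst_add, Prod.snd_add] at hnc
  · rcases hnc with h1 | h1
    · refine (h1 ((tail (S.P.side j)).1 + 1)).1 ?_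
      push_cast; ring
    · refine (h1 ((tail (S.P.side j)).2)).2 ?_
      push_cast; ring
  · rcases hnc with h1 | h1
    · refine (h1 ((tail (S.P.side j)).1)).1 ?_
      push_cast; ring
    · refine (h1 ((tail (S.P.side j)).2 + 1)).1 ?_
      push_cast; ring
  · rcases hnc with h1 | h1
    · refine (h1 ((tail (S.P.side j)).1 - 1)).2 ?_
      push_cast; ring
    · refine (h1 ((tail (S.P.side j)).2)).1 ?_
      push_cast; ring
  · rcases hnc with h1 | h1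
    · refine (h1 ((tail (S.P.side j)).1)).2 ?_
      push_cast; ring
    · refine (h1 ((tail (S.P.side j)).2 - 1)).2 ?_
      push_cast; ring

/-- the tiles of the world near a side -/
lemma lam_near (hH : 0 < H) (hi : i < S.N)
    (hN : Near (2 * H) (S.P.side i).1 (dir ((S.P.side i).2 - 1)) (tt e)) (hnc : NC (2 * H) (tt e))
    (he : e ∈ (Lam3 S H : Set (ℤ × ℤ))) : ct (2 * H) (tt e) = (S.P.side i).1 ∨
      e ∈ LY (2 * H) (S.P.side i) := by
  have hn : (0 : ℤ) < 2 * H := by omega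
  have si := isSide_side' S.P i
  rw [mem_coe, Pool.Agent.H47.W.mem_Lam3] at he
  rcases he with he | ⟨j, hj, he⟩ | ⟨j, hj, -, he⟩
  · left
    unfold EE at he
    rw [mem_TL hn] at he
    rcases hN.1 with h | h
    · exact h
    · rw [h] at he
      exact absurd he.2 si.2
  · right
    rwa [ly_near hH hi hj hN he] at he
  · exact absurd he (dg_not_near hnc j)

lemma lam_odd (hH : 0 < H) (he : e ∈ (Lam3 S H : Set (ℤ × ℤ))) : (e.1 + e.2) % 2 = 1 := by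
  have hn : (0 : ℤ) < 2 * H := by omega
  rw [mem_coe, Pool.Agent.H47.W.mem_Lam3] at he
  rcases he with he | ⟨j, hj, he⟩ | ⟨j, hj, -, he⟩
  · unfold EE at he
    exact ((mem_TL hn).1 he).1
  · exact ((mem_LY hn).1 he).1
  · rw [← he, dg_eq]
    exact lt_odd _

lemma wp_near (hH : 0 < H) (hi : i < S.N)
    (hN : Near (2 * H) (S.P.side i).1 (dir ((S.P.side i).2 - 1)) (tt e)) :
    e ∈ Wp S H p ↔ e ∈ LY (2 * H) (S.P.side i) ∧ ¬ ((S.m2 ≤ i ∧ i < S.m3) ↔ Aft S H p i e) := by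
  rw [mem_Wp]
  constructor
  · rintro ⟨j, hj, h1, h2⟩
    obtain rfl := ly_near hH hi hj hN h1
    exact ⟨h1, h2⟩
  · rintro ⟨h1, h2⟩
    exact ⟨i, hi, h1, h2⟩

lemma ly_not_EE (hH : 0 < H) (he : e ∈ LY (2 * H) (S.P.side i)) : e ∉ EE S H := by
  have hn : (0 : ℤ) < 2 * H := by omega
  intro h
  unfold EE at h
  rw [mem_TL hn] at h
  rw [mem_LY hn] at he
  rw [he.2.1] at h
  exact (isSide_side' S.P i).2 h.2

lemma wp_not_EE (hH : 0 < H) (he : e ∈ EE S H) : e ∉ Wp S H p := by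
  intro h
  rw [mem_Wp] at h
  obtain ⟨j, -, h1, -⟩ := h
  exact ly_not_EE hH h1 he

lemma EE_of (hH : 0 < H) (ho : (e.1 + e.2) % 2 = 1) (h : ct (2 * H) (tt e) = (S.P.side i).1) :
    e ∈ EE S H := by
  have hn : (0 : ℤ) < 2 * H := by omega
  unfold EE
  rw [mem_TL hn, h]
  exact ⟨ho, (isSide_side' S.P i).1⟩

lemma EE_Lam (he : e ∈ EE S H) : e ∈ (Lam3 S H : Set (ℤ × ℤ)) := by
  rw [mem_coe, Pool.Agent.H47.W.mem_Lam3]
  exact Or.inl he

lemma LY_Lam (hi : i < S.N) (he : e ∈ LY (2 * H) (S.P.side i)) :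
    e ∈ (Lam3 S H : Set (ℤ × ℤ)) := by
  rw [mem_coe, Pool.Agent.H47.W.mem_Lam3]
  exact Or.inr (Or.inl ⟨i, hi, he⟩)

end

/-! ### Boxes at the four sides -/

lemma no_mul {n a m X : ℤ} (h1 : a * n < m) (h2 : m < a * n + n) : m ≠ X * n := by
  intro h
  rw [h] at h1 h2
  have hn : 0 < n := by linarith
  have h3 : a < X := lt_of_mul_lt_mul_right h1 hn.le
  have h4 : X < a + 1 := lt_of_mul_lt_mul_right (by linarith) hn.le
  omega

lemma nc_snd {n a : ℤ} {t : ℤ × ℤ} (h1 : a * n + 1 ≤ t.2) (h2 : t.2 ≤ a * n + n - 2) : NC n t :=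
  Or.inr fun Y => ⟨no_mul (a := a) (by omega) (by omega), fun h =>
    no_mul (a := a) (n := n) (m := t.2 + 1) (X := Y) (by omega) (by omega) (by omega)⟩

lemma nc_fst {n a : ℤ} {t : ℤ × ℤ} (h1 : a * n + 1 ≤ t.1) (h2 : t.1 ≤ a * n + n - 2) : NC n t :=
  Or.inl fun Y => ⟨no_mul (a := a) (by omega) (by omega), fun h =>
    no_mul (a := a) (n := n) (m := t.1 + 1) (X := Y) (by omega) (by omega) (by omega)⟩

section

variable {n : ℤ} {c : Cell} {t : ℤ × ℤ}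

lemma ct_R (hn : 0 < n) (h1 : c.1 * n ≤ t.1) (h2 : t.1 < c.1 * n + 2 * n) (h3 : c.2 * n ≤ t.2)
    (h4 : t.2 < c.2 * n + n) : (t.1 < c.1 * n + n → ct n t = c) ∧
      (c.1 * n + n ≤ t.1 → ct n t = c + (1, 0)) := by
  constructor
  · intro h
    exact ct_of hn h1 h h3 h4
  · intro h
    have e1 : (c + (1, 0)).1 * n = c.1 * n + n := by simp only [Prod.fst_add]; ring
    have e2 : (c + (1, 0)).2 * n = c.2 * n := by simp only [Prod.snd_add]; ring
    exact ct_of hn (by rw [e1]; exact h) (by rw [e1]; omega) (by rw [e2]; exact h3)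
      (by rw [e2]; exact h4)

lemma ct_L (hn : 0 < n) (h1 : c.1 * n - n ≤ t.1) (h2 : t.1 < c.1 * n + n) (h3 : c.2 * n ≤ t.2)
    (h4 : t.2 < c.2 * n + n) : (c.1 * n ≤ t.1 → ct n t = c) ∧
      (t.1 < c.1 * n → ct n t = c + (-1, 0)) := by
  constructor
  · intro h
    exact ct_of hn h h2 h3 h4
  · intro h
    have e1 : (c + (-1, 0)).1 * n = c.1 * n - n := by simp only [Prod.fst_add]; ring
    have e2 : (c + (-1, 0)).2 * n = c.2 * n := by simp only [Prod.snd_add]; ring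
    exact ct_of hn (by rw [e1]; exact h1) (by rw [e1]; omega) (by rw [e2]; exact h3)
      (by rw [e2]; exact h4)

lemma ct_C (hn : 0 < n) (h1 : c.1 * n ≤ t.1) (h2 : t.1 < c.1 * n + n) (h3 : c.2 * n ≤ t.2)
    (h4 : t.2 < c.2 * n + 2 * n) : (t.2 < c.2 * n + n → ct n t = c) ∧
      (c.2 * n + n ≤ t.2 → ct n t = c + (0, 1)) := by
  constructor
  · intro h
    exact ct_of hn h1 h2 h3 h
  · intro h
    have e1 : (c + (0, 1)).1 * n = c.1 * n := by simp only [Prod.fst_add]; ring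
    have e2 : (c + (0, 1)).2 * n = c.2 * n + n := by simp only [Prod.snd_add]; ring
    exact ct_of hn (by rw [e1]; exact h1) (by rw [e1]; omega) (by rw [e2]; exact h)
      (by rw [e2]; omega)

lemma ct_F (hn : 0 < n) (h1 : c.1 * n ≤ t.1) (h2 : t.1 < c.1 * n + n) (h3 : c.2 * n - n ≤ t.2)
    (h4 : t.2 < c.2 * n + n) : (c.2 * n ≤ t.2 → ct n t = c) ∧
      (t.2 < c.2 * n → ct n t = c + (0, -1)) := by
  constructor
  · intro h
    exact ct_of hn h1 h2 h h4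
  · intro h
    have e1 : (c + (0, -1)).1 * n = c.1 * n := by simp only [Prod.fst_add]; ring
    have e2 : (c + (0, -1)).2 * n = c.2 * n - n := by simp only [Prod.snd_add]; ring
    exact ct_of hn (by rw [e1]; exact h1) (by rw [e1]; omega) (by rw [e2]; exact h3)
      (by rw [e2]; omega)

lemma near_R (hn : 0 < n) (h1 : c.1 * n + 1 ≤ t.1) (h2 : t.1 ≤ c.1 * n + 2 * n - 2)
    (h3 : c.2 * n + 1 ≤ t.2) (h4 : t.2 ≤ c.2 * n + n - 2) : Near n c (1, 0) t := by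
  have key : ∀ s : ℤ × ℤ, c.1 * n ≤ s.1 → s.1 < c.1 * n + 2 * n → c.2 * n ≤ s.2 →
      s.2 < c.2 * n + n → ct n s = c ∨ ct n s = c + (1, 0) := by
    intro s a1 a2 a3 a4
    obtain ⟨b1, b2⟩ := ct_R hn a1 a2 a3 a4
    rcases lt_or_ge s.1 (c.1 * n + n) with h | h
    · exact Or.inl (b1 h)
    · exact Or.inr (b2 h)
  refine ⟨key t (by omega) (by omega) (by omega) (by omega), fun k => ?_⟩
  rcases dir_cases k with ⟨-, e⟩ | ⟨-, e⟩ | ⟨-, e⟩ | ⟨-, e⟩ <;> rw [e] <;>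
    apply key <;> simp only [Prod.fst_sub, Prod.snd_sub] <;> omega

lemma near_L (hn : 0 < n) (h1 : c.1 * n - n + 1 ≤ t.1) (h2 : t.1 ≤ c.1 * n + n - 2)
    (h3 : c.2 * n + 1 ≤ t.2) (h4 : t.2 ≤ c.2 * n + n - 2) : Near n c (-1, 0) t := by
  have key : ∀ s : ℤ × ℤ, c.1 * n - n ≤ s.1 → s.1 < c.1 * n + n → c.2 * n ≤ s.2 →
      s.2 < c.2 * n + n → ct n s = c ∨ ct n s = c + (-1, 0) := by
    intro s a1 a2 a3 a4
    obtain ⟨b1, b2⟩ := ct_L hn a1 a2 a3 a4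
    rcases lt_or_ge s.1 (c.1 * n) with h | h
    · exact Or.inr (b2 h)
    · exact Or.inl (b1 h)
  refine ⟨key t (by omega) (by omega) (by omega) (by omega), fun k => ?_⟩
  rcases dir_cases k with ⟨-, e⟩ | ⟨-, e⟩ | ⟨-, e⟩ | ⟨-, e⟩ <;> rw [e] <;>
    apply key <;> simp only [Prod.fst_sub, Prod.snd_sub] <;> omega

lemma near_C (hn : 0 < n) (h1 : c.1 * n + 1 ≤ t.1) (h2 : t.1 ≤ c.1 * n + n - 2)
    (h3 : c.2 * n + 1 ≤ t.2) (h4 : t.2 ≤ c.2 * n + 2 * n - 2) : Near n c (0, 1) t := by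
  have key : ∀ s : ℤ × ℤ, c.1 * n ≤ s.1 → s.1 < c.1 * n + n → c.2 * n ≤ s.2 →
      s.2 < c.2 * n + 2 * n → ct n s = c ∨ ct n s = c + (0, 1) := by
    intro s a1 a2 a3 a4
    obtain ⟨b1, b2⟩ := ct_C hn a1 a2 a3 a4
    rcases lt_or_ge s.2 (c.2 * n + n) with h | h
    · exact Or.inl (b1 h)
    · exact Or.inr (b2 h)
  refine ⟨key t (by omega) (by omega) (by omega) (by omega), fun k => ?_⟩
  rcases dir_cases k with ⟨-, e⟩ | ⟨-, e⟩ | ⟨-, e⟩ | ⟨-, e⟩ <;> rw [e] <;>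
    apply key <;> simp only [Prod.fst_sub, Prod.snd_sub] <;> omega

lemma near_F (hn : 0 < n) (h1 : c.1 * n + 1 ≤ t.1) (h2 : t.1 ≤ c.1 * n + n - 2)
    (h3 : c.2 * n - n + 1 ≤ t.2) (h4 : t.2 ≤ c.2 * n + n - 2) : Near n c (0, -1) t := by
  have key : ∀ s : ℤ × ℤ, c.1 * n ≤ s.1 → s.1 < c.1 * n + n → c.2 * n - n ≤ s.2 →
      s.2 < c.2 * n + n → ct n s = c ∨ ct n s = c + (0, -1) := by
    intro s a1 a2 a3 a4
    obtain ⟨b1, b2⟩ := ct_F hn a1 a2 a3 a4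
    rcases lt_or_ge s.2 (c.2 * n) with h | h
    · exact Or.inr (b2 h)
    · exact Or.inl (b1 h)
  refine ⟨key t (by omega) (by omega) (by omega) (by omega), fun k => ?_⟩
  rcases dir_cases k with ⟨-, e⟩ | ⟨-, e⟩ | ⟨-, e⟩ | ⟨-, e⟩ <;> rw [e] <;>
    apply key <;> simp only [Prod.fst_sub, Prod.snd_sub] <;> omega

end

/-- tile coordinates of a label of a box -/
lemma tt_box {z e : ℤ × ℤ} {K : ℤ} (he : e ∈ BR z K) :
    e.1 + e.2 = 2 * (tt e).1 + 1 ∧ e.2 - e.1 = 2 * (tt e).2 + 1 ∧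
    (z.1 + z.2) - 2 * K - 1 ≤ (tt e).1 ∧ (tt e).1 ≤ (z.1 + z.2) + 2 * K ∧
    (z.2 - z.1) - 2 * K - 1 ≤ (tt e).2 ∧ (tt e).2 ≤ (z.2 - z.1) + 2 * K := by
  rw [mem_BR] at he
  unfold tt
  simp only
  omega

lemma tt_odd {e : ℤ × ℤ} (he : (e.1 + e.2) % 2 = 1) :
    e.1 + e.2 = 2 * (tt e).1 + 1 ∧ e.2 - e.1 = 2 * (tt e).2 + 1 := by
  unfold tt
  simp only
  omega

end Pool.Agent.H97.W
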