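import Mathlib
import Pool.Agent.H97.W.Geo

set_option autoImplicit false
open Finset

/-! # The glued world satisfies the local hypotheses at a flat side

`Plc` : position of the vertex `z` and of the tile `p` at a side. `geoR`, `geoL`, `geoC`, `geoF`. -/

namespace Pool.Agent.H97.W

open Pool.Agent.H75.Perc hiding WL CT hh PB EE
open Pool.Agent.H75.TwoArm Pool.Agent.H99.W Pool.Agent.H13.W
open Pool.Agent.H33.Q1 Pool.Agent.H21.FM
open Pool.Agent.Q1.M4 (Cell Good IsSide nextSide tail head PType)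
open Pool.Agent.H33.FM (side_isSide)
open Pool.Agent.H37.W (dg dg_eq)
open Pool.Agent.H74.W (Lam3 Del Ex Wp yy GW Cv Aft mem_Wp)
open Pool.Agent.H99.NC (BR inR inR_iff)
open Pool.Agent.H70.W (mem_BR)

/-- **Position** of the vertex `z` and of the tile `p` at the side `(c, k)`, scale `n`. -/
structure Plc (n : ℤ) (c : Cell) (k : ℤ) (z p : ℤ × ℤ) (K ρ : ℤ) : Prop where
  hp : ct n p = c
  px : |p.1 - (z.1 + z.2)| ≤ ρ - 6
  py : |p.2 - (z.2 - z.1)| ≤ ρ - 6
  h7 : 7 ≤ ρ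
  hρ : ρ ≤ K
  big : 2 * K + 6 ≤ n
  pos : (k % 4 = 0 ∧ z.2 - z.1 = c.2 * n ∧ c.1 * n + 2 * K + 6 ≤ z.1 + z.2 ∧
      z.1 + z.2 + 2 * K + 6 ≤ c.1 * n + n) ∨
    (k % 4 = 1 ∧ z.1 + z.2 = c.1 * n + n ∧ c.2 * n + 2 * K + 6 ≤ z.2 - z.1 ∧
      z.2 - z.1 + 2 * K + 6 ≤ c.2 * n + n) ∨
    (k % 4 = 2 ∧ z.2 - z.1 = c.2 * n + n ∧ c.1 * n + 2 * K + 6 ≤ z.1 + z.2 ∧
      z.1 + z.2 + 2 * K + 6 ≤ c.1 * n + n) ∨
    (k % 4 = 3 ∧ z.1 + z.2 = c.1 * n ∧ c.2 * n + 2 * K + 6 ≤ z.2 - z.1 ∧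
      z.2 - z.1 + 2 * K + 6 ≤ c.2 * n + n)

/-- **natural coins** at the tiles of the cell `c` near `z` -/
def Nat' {β : Type} (n : ℤ) (c : Cell) (b : ℤ × ℤ → β) (z : ℤ × ℤ) (K : ℤ) : Prop :=
  ∀ e ∈ BR z K, ct n (tt e) = c → ∀ e' ∈ BR z K, ct n (tt e') = c → b e = b e' → e = e'

lemma mem_Del {Q : Finset Cell} {n : ℤ} {p e : ℤ × ℤ} : e ∈ Del Q n p ↔
    (e.1 + e.2) % 2 = 1 ∧ (tt e).2 = p.2 ∧ p.1 ≤ (tt e).1 ∧
      ∀ x, p.1 ≤ x → x < (tt e).1 → ct n (x, p.2) ∈ Q := Iff.rfl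

/-- labels of the inner box -/
lemma mem_in {z e : ℤ × ℤ} {ρ : ℤ} (ho : (e.1 + e.2) % 2 = 1)
    (h1 : |(tt e).1 - (z.1 + z.2)| ≤ ρ - 6) (h2 : |(tt e).2 - (z.2 - z.1)| ≤ ρ - 6) :
    e ∈ BR z (ρ - 3) := by
  obtain ⟨e1, e2⟩ := tt_odd ho
  rw [abs_le] at h1 h2
  rw [mem_BR]
  omega

section

variable {S : Shape} {H : ℕ} {i : ℕ} {p z : ℤ × ℤ} {K ρ : ℤ}

lemma dirs {k : ℤ} : (k % 4 = 0 → dir (k - 1) = (0, -1)) ∧ (k % 4 = 1 → dir (k - 1) = (1, 0)) ∧
    (k % 4 = 2 → dir (k - 1) = (0, 1)) ∧ (k % 4 = 3 → dir (k - 1) = (-1, 0)) := by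
  rcases io_dir k with ⟨a, -, -, d⟩ | ⟨a, -, -, d⟩ | ⟨a, -, -, d⟩ | ⟨a, -, -, d⟩ <;>
    refine ⟨fun h => ?_, fun h => ?_, fun h => ?_, fun h => ?_⟩ <;>
    first | exact d | (exfalso; omega)

/-! ### Right wall -/

/-- box at a right wall -/
lemma boxR (P : Plc (2 * H) (S.P.side i).1 (S.P.side i).2 z p K ρ) (hk : (S.P.side i).2 % 4 = 1)
    {t : ℤ × ℤ} (h1 : (z.1 + z.2) - 2 * K - 1 ≤ t.1) (h2 : t.1 ≤ (z.1 + z.2) + 2 * K)
    (h3 : (z.2 - z.1) - 2 * K - 1 ≤ t.2) (h4 : t.2 ≤ (z.2 - z.1) + 2 * K) :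
    Near (2 * H) (S.P.side i).1 (dir ((S.P.side i).2 - 1)) t ∧ NC (2 * H) t ∧
    (t.1 < z.1 + z.2 → ct (2 * H) t = (S.P.side i).1) ∧
    (z.1 + z.2 ≤ t.1 → ct (2 * H) t = (S.P.side i).1 + dir ((S.P.side i).2 - 1)) ∧
    z.1 + z.2 = (S.P.side i).1.1 * (2 * H) + 2 * H := by
  obtain ⟨a, b, c, d⟩ : (S.P.side i).2 % 4 = 1 ∧ z.1 + z.2 = (S.P.side i).1.1 * (2 * H) + 2 * H ∧
      (S.P.side i).1.2 * (2 * H) + 2 * K + 6 ≤ z.2 - z.1 ∧
      z.2 - z.1 + 2 * K + 6 ≤ (S.P.side i).1.2 * (2 * H) + 2 * H := by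
    rcases P.pos with ⟨a, -⟩ | h | ⟨a, -⟩ | ⟨a, -⟩
    · omega
    · exact h
    · omega
    · omega
  have big := P.big
  have e1 := P.px
  rw [abs_le] at e1
  have hρ := P.hρ
  have hn : (0 : ℤ) < 2 * H := by omega
  rw [(dirs (k := (S.P.side i).2)).2.1 hk]
  refine ⟨near_R hn (by omega) (by omega) (by omega) (by omega),
    nc_snd (a := (S.P.side i).1.2) (by omega) (by omega), ?_, ?_, b⟩
  · intro h
    exact (ct_R hn (by omega) (by omega) (by omega) (by omega)).1 (by omega)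
  · intro h
    exact (ct_R hn (by omega) (by omega) (by omega) (by omega)).2 (by omega)

lemma ex_R (hH : 0 < H) (hi : i < S.N) (P : Plc (2 * H) (S.P.side i).1 (S.P.side i).2 z p K ρ)
    (hk : (S.P.side i).2 % 4 = 1) (t : ℕ) : Ex S H p t ↔ t = i := by
  have hn : (0 : ℤ) < 2 * H := by omega
  have px := P.px
  have py := P.py
  rw [abs_le] at px py
  have hρ := P.hρ
  have hp := (ct_eq hn).1 P.hp
  have hs := isSide_side' S.P i
  have box : ∀ x, p.1 ≤ x → x ≤ z.1 + z.2 → _ := fun x h1 h2 =>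
    boxR P hk (t := (x, p.2)) (by simp only; omega) (by simp only; omega) (by simp only; omega)
      (by simp only; omega)
  have hZ : z.1 + z.2 = (S.P.side i).1.1 * (2 * H) + 2 * H :=
    (boxR P hk (t := (z.1 + z.2, p.2)) (by simp only; omega) (by simp only; omega)
      (by simp only; omega) (by simp only; omega)).2.2.2.2
  have hout := (box (z.1 + z.2) (by omega) le_rfl).2.2.2.1 le_rfl
  constructor
  · rintro ⟨h1, h2, e, h3, h4⟩
    rw [mem_Del] at h3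
    obtain ⟨g1, g2, g3, g4⟩ := h3
    have h5 := (mem_LY hn).1 h4
    have hnQ : ct (2 * (H : ℤ)) (tt e) ∉ S.P.Q := by
      rw [h5.2.1]; exact (isSide_side' S.P t).2
    have hx1 : (tt e).1 ≤ z.1 + z.2 := by
      by_contra hc
      have := g4 (z.1 + z.2) (by omega) (by omega)
      rw [hout] at this
      exact hs.2 this
    have het : tt e = ((tt e).1, p.2) := Prod.ext rfl g2
    have hx2 : z.1 + z.2 ≤ (tt e).1 := by
      by_contra hc
      have := (box (tt e).1 g3 hx1).2.2.1 (by simp only; omega)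
      rw [het, this] at hnQ
      exact hnQ hs.1
    have hN := (box (tt e).1 g3 hx1).1
    rw [← het] at hN
    exact ly_near hH hi h1 hN h4
  · rintro rfl
    refine ⟨hi, hk, lt (z.1 + z.2, p.2), ?_, ?_⟩
    · rw [mem_Del, tt_lt]
      refine ⟨lt_odd _, rfl, by simp only; omega, fun x h1 h2 => ?_⟩
      simp only at h2
      rw [(box x h1 (by omega)).2.2.1 (by simp only; omega)]
      exact hs.1
    · rw [mem_LY hn, tt_lt]
      refine ⟨lt_odd _, hout, ?_⟩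
      have h6 := (boxR P hk (t := (z.1 + z.2 - 1, p.2)) (by simp only; omega) (by simp only; omega)
        (by simp only; omega) (by simp only; omega)).2.2.1 (by simp only; omega)
      rw [(dirs (k := (S.P.side t).2)).2.1 hk]
      rw [← h6]
      congr 1
      exact Prod.ext (by simp only [Prod.fst_sub]) (by simp only [Prod.snd_sub]; ring)

theorem geoR {β : Type} (hH : 0 < H) (hi : i < S.N)
    (P : Plc (2 * H) (S.P.side i).1 (S.P.side i).2 z p K ρ)
    (hk : (S.P.side i).2 % 4 = 1) {b : ℤ × ℤ → β} (hb : Nat' (2 * H) (S.P.side i).1 b z K) :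
    WallR (EE S H) (Wp S H p) b (Lam3 S H : Set (ℤ × ℤ)) (Del S.P.Q (2 * H) p) z ρ K p.2
      (S.m2 ≤ i ∧ i < S.m3) := by
  have hn : (0 : ℤ) < 2 * H := by omega
  have px := P.px
  have py := P.py
  have px' := px
  have py' := py
  rw [abs_le] at px' py'
  have hp := (ct_eq hn).1 P.hp
  have hs := isSide_side' S.P i
  have hd := (dirs (k := (S.P.side i).2)).2.1 hk
  have box : ∀ {e : ℤ × ℤ}, e ∈ BR z K → _ := fun {e} he =>
    have h := tt_box he
    boxR P hk h.2.2.1 h.2.2.2.1 h.2.2.2.2.1 h.2.2.2.2.2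
  have lam : ∀ e ∈ (Lam3 S H : Set (ℤ × ℤ)), e ∈ BR z K → (tt e).1 ≤ z.1 + z.2 := by
    intro e he heB
    obtain ⟨k1, k2, k3, k4, k5⟩ := box heB
    rcases lam_near hH hi k1 k2 he with h | h
    · have := (ct_eq hn).1 h
      omega
    · have := (ct_eq hn).1 ((mem_LY hn).1 h).2.2
      rw [hd] at this
      simp only [Prod.fst_sub, Prod.snd_sub] at this
      omega
  have aft : ∀ e, Aft S H p i e ↔ p.2 < (tt e).2 := by
    intro e
    unfold Aft
    constructor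
    · rintro ⟨t, h1, h2⟩
      rw [ex_R hH hi P hk] at h1
      subst h1
      rcases h2 with h2 | h2
      · exact absurd h2 (lt_irrefl _)
      · exact h2.2
    · intro h
      exact ⟨i, (ex_R hH hi P hk i).2 rfl, Or.inr ⟨rfl, h⟩⟩
  have lay : ∀ e ∈ BR z K, e.1 + e.2 = 2 * (z.1 + z.2) + 1 → e ∈ LY (2 * H) (S.P.side i) ∧
      (e ∈ Wp S H p ↔ ¬ ((S.m2 ≤ i ∧ i < S.m3) ↔ p.2 < (tt e).2)) := by
    intro e heB h
    obtain ⟨k1, k2, k3, k4, k5⟩ := box heB
    have ht := tt_box heB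
    have hL : e ∈ LY (2 * H) (S.P.side i) := by
      rw [mem_LY hn]
      refine ⟨(mem_BR.1 heB).2.2, k4 (by omega), ?_⟩
      rw [hd]
      refine (boxR P hk ?_ ?_ ?_ ?_).2.2.1 ?_ <;> simp only [Prod.fst_sub, Prod.snd_sub] <;> omega
    refine ⟨hL, ?_⟩
    rw [wp_near hH hi k1, aft]
    exact ⟨fun h => h.2, fun h => ⟨hL, h⟩⟩
  refine ⟨fun e he => lam_odd hH he, ?_, ?_, ?_, ?_, ?_, ?_, ?_⟩
  · intro e he heB
    have h1 := lam e he heB
    have h2 := tt_box heB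
    omega
  · intro e heB h
    obtain ⟨k1, k2, k3, k4, k5⟩ := box heB
    have h2 := tt_box heB
    have h3 := EE_of hH (mem_BR.1 heB).2.2 (k3 (by omega))
    exact ⟨h3, wp_not_EE hH h3⟩
  · intro e heB h e' heB' h' hbe
    obtain ⟨k1, k2, k3, k4, k5⟩ := box heB
    obtain ⟨c1, c2, c3, c4, c5⟩ := box heB'
    have h2 := tt_box heB
    have h3 := tt_box heB'
    exact hb e heB (k3 (by omega)) e' heB' (c3 (by omega)) hbe
  · intro e he heB hn' hD
    rw [mem_Del] at hD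
    obtain ⟨g1, g2, g3, g4⟩ := hD
    have h1 := lam e he heB
    refine hn' (mem_in g1 ?_ ?_)
    · rw [abs_le]; omega
    · rw [g2]; exact py
  · intro e heB h1 h2
    obtain ⟨h3, h4⟩ := lay e heB h1
    have h5 := tt_box heB
    refine ⟨?_, ly_not_EE hH h3⟩
    rw [h4]
    have : p.2 < (tt e).2 := by omega
    tauto
  · intro e heB h1 h2
    obtain ⟨h3, h4⟩ := lay e heB h1
    have h5 := tt_box heB
    refine ⟨?_, ly_not_EE hH h3⟩
    rw [h4]
    have : ¬ (p.2 < (tt e).2) := by omega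
    tauto
  · omega

/-! ### The colour of the other walls -/

/-- colour of a wall which is not a right wall -/
def colW (S : Shape) (H : ℕ) (p : ℤ × ℤ) (i : ℕ) : Prop :=
  ¬ ((S.m2 ≤ i ∧ i < S.m3) ↔ ∃ t, Ex S H p t ∧ t < i)

lemma aft_of (hk : (S.P.side i).2 % 4 ≠ 1) (e : ℤ × ℤ) : Aft S H p i e ↔
    ∃ t, Ex S H p t ∧ t < i := by
  unfold Aft
  constructor
  · rintro ⟨t, h1, h2 | ⟨rfl, h2⟩⟩
    · exact ⟨t, h1, h2⟩
    · exact absurd h1.2.1 hk
  · rintro ⟨t, h1, h2⟩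
    exact ⟨t, h1, Or.inl h2⟩

/-! ### Left wall -/

lemma boxL (P : Plc (2 * H) (S.P.side i).1 (S.P.side i).2 z p K ρ) (hk : (S.P.side i).2 % 4 = 3)
    {t : ℤ × ℤ} (h1 : (z.1 + z.2) - 2 * K - 1 ≤ t.1) (h2 : t.1 ≤ (z.1 + z.2) + 2 * K)
    (h3 : (z.2 - z.1) - 2 * K - 1 ≤ t.2) (h4 : t.2 ≤ (z.2 - z.1) + 2 * K) :
    Near (2 * H) (S.P.side i).1 (dir ((S.P.side i).2 - 1)) t ∧ NC (2 * H) t ∧
    (z.1 + z.2 ≤ t.1 → ct (2 * H) t = (S.P.side i).1) ∧
    (t.1 < z.1 + z.2 → ct (2 * H) t = (S.P.side i).1 + dir ((S.P.side i).2 - 1)) ∧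
    z.1 + z.2 = (S.P.side i).1.1 * (2 * H) := by
  obtain ⟨a, b, c, d⟩ : (S.P.side i).2 % 4 = 3 ∧ z.1 + z.2 = (S.P.side i).1.1 * (2 * H) ∧
      (S.P.side i).1.2 * (2 * H) + 2 * K + 6 ≤ z.2 - z.1 ∧
      z.2 - z.1 + 2 * K + 6 ≤ (S.P.side i).1.2 * (2 * H) + 2 * H := by
    rcases P.pos with ⟨a, -⟩ | ⟨a, -⟩ | ⟨a, -⟩ | h
    · omega
    · omega
    · omega
    · exact h
  have big := P.big
  have e1 := P.px
  rw [abs_le] at e1
  have hρ := P.hρ
  have hn : (0 : ℤ) < 2 * H := by omega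
  rw [(dirs (k := (S.P.side i).2)).2.2.2 hk]
  refine ⟨near_L hn (by omega) (by omega) (by omega) (by omega),
    nc_snd (a := (S.P.side i).1.2) (by omega) (by omega), ?_, ?_, b⟩
  · intro h
    exact (ct_L hn (by omega) (by omega) (by omega) (by omega)).1 (by omega)
  · intro h
    exact (ct_L hn (by omega) (by omega) (by omega) (by omega)).2 (by omega)

theorem geoL {β : Type} (hH : 0 < H) (hi : i < S.N)
    (P : Plc (2 * H) (S.P.side i).1 (S.P.side i).2 z p K ρ)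
    (hk : (S.P.side i).2 % 4 = 3) {b : ℤ × ℤ → β} (hb : Nat' (2 * H) (S.P.side i).1 b z K) :
    WallL (EE S H) (Wp S H p) b (Lam3 S H : Set (ℤ × ℤ)) (Del S.P.Q (2 * H) p) z ρ K p.2
      (colW S H p i) := by
  have hn : (0 : ℤ) < 2 * H := by omega
  have px := P.px
  have py := P.py
  have px' := px
  have py' := py
  rw [abs_le] at px' py'
  have hp := (ct_eq hn).1 P.hp
  have hs := isSide_side' S.P i
  have hd := (dirs (k := (S.P.side i).2)).2.2.2 hk
  have box : ∀ {e : ℤ × ℤ}, e ∈ BR z K → _ := fun {e} he =>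
    have h := tt_box he
    boxL P hk h.2.2.1 h.2.2.2.1 h.2.2.2.2.1 h.2.2.2.2.2
  have lam : ∀ e ∈ (Lam3 S H : Set (ℤ × ℤ)), e ∈ BR z K → z.1 + z.2 - 1 ≤ (tt e).1 := by
    intro e he heB
    obtain ⟨k1, k2, k3, k4, k5⟩ := box heB
    rcases lam_near hH hi k1 k2 he with h | h
    · have := (ct_eq hn).1 h
      omega
    · have := (ct_eq hn).1 ((mem_LY hn).1 h).2.2
      rw [hd] at this
      simp only [Prod.fst_sub, Prod.snd_sub] at this
      omega
  refine ⟨fun e he => lam_odd hH he, ?_, ?_, ?_, ?_, ?_, ?_⟩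
  · intro e he heB
    have h1 := lam e he heB
    have h2 := tt_box heB
    omega
  · intro e heB h
    obtain ⟨k1, k2, k3, k4, k5⟩ := box heB
    have h2 := tt_box heB
    have h3 := EE_of hH (mem_BR.1 heB).2.2 (k3 (by omega))
    exact ⟨h3, wp_not_EE hH h3⟩
  · intro e heB h e' heB' h' hbe
    obtain ⟨k1, k2, k3, k4, k5⟩ := box heB
    obtain ⟨c1, c2, c3, c4, c5⟩ := box heB'
    have h2 := tt_box heB
    have h3 := tt_box heB'
    exact hb e heB (k3 (by omega)) e' heB' (c3 (by omega)) hbe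
  · intro e he heB hn'
    have h1 := lam e he heB
    have h2 := tt_box heB
    have ho := (mem_BR.1 heB).2.2
    rw [mem_Del]
    constructor
    · rintro ⟨g1, g2, g3, g4⟩
      omega
    · intro h
      refine ⟨ho, by omega, ?_, fun x hx1 hx2 => ?_⟩
      · by_contra hc
        have h7 := P.h7
        refine hn' (mem_in ho ?_ ?_)
        · rw [abs_le]; omega
        · rw [abs_le]; omega
      · have hρ := P.hρ
        have := (boxL P hk (t := (x, p.2)) (by simp only; omega) (by simp only; omega)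
          (by simp only; omega) (by simp only; omega)).2.2.1
        obtain ⟨k1, k2, k3, k4, k5⟩ := box heB
        rw [this (by simp only; omega)]
        exact hs.1
  · intro e heB h
    obtain ⟨k1, k2, k3, k4, k5⟩ := box heB
    have ht := tt_box heB
    have hL : e ∈ LY (2 * H) (S.P.side i) := by
      rw [mem_LY hn]
      refine ⟨(mem_BR.1 heB).2.2, k4 (by omega), ?_⟩
      rw [hd]
      refine (boxL P hk ?_ ?_ ?_ ?_).2.2.1 ?_ <;> simp only [Prod.fst_sub, Prod.snd_sub] <;> omega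
    refine ⟨?_, ly_not_EE hH hL⟩
    rw [wp_near hH hi k1, aft_of (by omega)]
    exact ⟨fun h => h.2, fun h => ⟨hL, h⟩⟩
  · omega

/-! ### Ceiling -/

lemma boxC (P : Plc (2 * H) (S.P.side i).1 (S.P.side i).2 z p K ρ) (hk : (S.P.side i).2 % 4 = 2)
    {t : ℤ × ℤ} (h1 : (z.1 + z.2) - 2 * K - 1 ≤ t.1) (h2 : t.1 ≤ (z.1 + z.2) + 2 * K)
    (h3 : (z.2 - z.1) - 2 * K - 1 ≤ t.2) (h4 : t.2 ≤ (z.2 - z.1) + 2 * K) :
    Near (2 * H) (S.P.side i).1 (dir ((S.P.side i).2 - 1)) t ∧ NC (2 * H) t ∧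
    (t.2 < z.2 - z.1 → ct (2 * H) t = (S.P.side i).1) ∧
    (z.2 - z.1 ≤ t.2 → ct (2 * H) t = (S.P.side i).1 + dir ((S.P.side i).2 - 1)) ∧
    z.2 - z.1 = (S.P.side i).1.2 * (2 * H) + 2 * H := by
  obtain ⟨a, b, c, d⟩ : (S.P.side i).2 % 4 = 2 ∧ z.2 - z.1 = (S.P.side i).1.2 * (2 * H) + 2 * H ∧
      (S.P.side i).1.1 * (2 * H) + 2 * K + 6 ≤ z.1 + z.2 ∧
      z.1 + z.2 + 2 * K + 6 ≤ (S.P.side i).1.1 * (2 * H) + 2 * H := by
    rcases P.pos with ⟨a, -⟩ | ⟨a, -⟩ | h | ⟨a, -⟩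
    · omega
    · omega
    · exact h
    · omega
  have big := P.big
  have e1 := P.px
  rw [abs_le] at e1
  have hρ := P.hρ
  have hn : (0 : ℤ) < 2 * H := by omega
  rw [(dirs (k := (S.P.side i).2)).2.2.1 hk]
  refine ⟨near_C hn (by omega) (by omega) (by omega) (by omega),
    nc_fst (a := (S.P.side i).1.1) (by omega) (by omega), ?_, ?_, b⟩
  · intro h
    exact (ct_C hn (by omega) (by omega) (by omega) (by omega)).1 (by omega)
  · intro h
    exact (ct_C hn (by omega) (by omega) (by omega) (by omega)).2 (by omega)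

theorem geoC {β : Type} (hH : 0 < H) (hi : i < S.N)
    (P : Plc (2 * H) (S.P.side i).1 (S.P.side i).2 z p K ρ)
    (hk : (S.P.side i).2 % 4 = 2) {b : ℤ × ℤ → β} (hb : Nat' (2 * H) (S.P.side i).1 b z K) :
    WallC (EE S H) (Wp S H p) b (Lam3 S H : Set (ℤ × ℤ)) (Del S.P.Q (2 * H) p) z ρ K p.1 p.2
      (colW S H p i) := by
  have hn : (0 : ℤ) < 2 * H := by omega
  have px := P.px
  have py := P.py
  have px' := px
  have py' := py
  rw [abs_le] at px' py'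
  have hp := (ct_eq hn).1 P.hp
  have hs := isSide_side' S.P i
  have hd := (dirs (k := (S.P.side i).2)).2.2.1 hk
  have box : ∀ {e : ℤ × ℤ}, e ∈ BR z K → _ := fun {e} he =>
    have h := tt_box he
    boxC P hk h.2.2.1 h.2.2.2.1 h.2.2.2.2.1 h.2.2.2.2.2
  have hρ := P.hρ
  have hZ : z.2 - z.1 = (S.P.side i).1.2 * (2 * H) + 2 * H :=
    (boxC P hk (t := (z.1 + z.2, z.2 - z.1)) (by simp only; omega) (by simp only; omega)
      (by simp only; omega) (by simp only; omega)).2.2.2.2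
  have lam : ∀ e ∈ (Lam3 S H : Set (ℤ × ℤ)), e ∈ BR z K → (tt e).2 ≤ z.2 - z.1 := by
    intro e he heB
    obtain ⟨k1, k2, k3, k4, k5⟩ := box heB
    rcases lam_near hH hi k1 k2 he with h | h
    · have := (ct_eq hn).1 h
      omega
    · have := (ct_eq hn).1 ((mem_LY hn).1 h).2.2
      rw [hd] at this
      simp only [Prod.fst_sub, Prod.snd_sub] at this
      omega
  refine ⟨fun e he => lam_odd hH he, ?_, ?_, ?_, ?_, ?_, ?_, ?_⟩
  · intro e he heB
    have h1 := lam e he heB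
    have h2 := tt_box heB
    omega
  · intro e heB h
    obtain ⟨k1, k2, k3, k4, k5⟩ := box heB
    have h2 := tt_box heB
    have h3 := EE_of hH (mem_BR.1 heB).2.2 (k3 (by omega))
    exact ⟨h3, wp_not_EE hH h3⟩
  · intro e heB h e' heB' h' hbe
    obtain ⟨k1, k2, k3, k4, k5⟩ := box heB
    obtain ⟨c1, c2, c3, c4, c5⟩ := box heB'
    have h2 := tt_box heB
    have h3 := tt_box heB'
    exact hb e heB (k3 (by omega)) e' heB' (c3 (by omega)) hbe
  · intro e he heB hn'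
    have h1 := lam e he heB
    have h2 := tt_box heB
    have ho := (mem_BR.1 heB).2.2
    rw [mem_Del]
    constructor
    · rintro ⟨g1, g2, g3, g4⟩
      omega
    · intro h
      refine ⟨ho, by omega, by omega, fun x hx1 hx2 => ?_⟩
      have := (boxC P hk (t := (x, p.2)) (by simp only; omega) (by simp only; omega)
          (by simp only; omega) (by simp only; omega)).2.2.1
      rw [this (by simp only; omega)]
      exact hs.1
  · intro e heB h
    obtain ⟨k1, k2, k3, k4, k5⟩ := box heB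
    have ht := tt_box heB
    have hL : e ∈ LY (2 * H) (S.P.side i) := by
      rw [mem_LY hn]
      refine ⟨(mem_BR.1 heB).2.2, k4 (by omega), ?_⟩
      rw [hd]
      refine (boxC P hk ?_ ?_ ?_ ?_).2.2.1 ?_ <;> simp only [Prod.fst_sub, Prod.snd_sub] <;> omega
    refine ⟨?_, ly_not_EE hH hL⟩
    rw [wp_near hH hi k1, aft_of (by omega)]
    exact ⟨fun h => h.2, fun h => ⟨hL, h⟩⟩
  · omega
  · omega

/-! ### Floor -/

lemma boxF (P : Plc (2 * H) (S.P.side i).1 (S.P.side i).2 z p K ρ) (hk : (S.P.side i).2 % 4 = 0)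
    {t : ℤ × ℤ} (h1 : (z.1 + z.2) - 2 * K - 1 ≤ t.1) (h2 : t.1 ≤ (z.1 + z.2) + 2 * K)
    (h3 : (z.2 - z.1) - 2 * K - 1 ≤ t.2) (h4 : t.2 ≤ (z.2 - z.1) + 2 * K) :
    Near (2 * H) (S.P.side i).1 (dir ((S.P.side i).2 - 1)) t ∧ NC (2 * H) t ∧
    (z.2 - z.1 ≤ t.2 → ct (2 * H) t = (S.P.side i).1) ∧
    (t.2 < z.2 - z.1 → ct (2 * H) t = (S.P.side i).1 + dir ((S.P.side i).2 - 1)) ∧
    z.2 - z.1 = (S.P.side i).1.2 * (2 * H) := by
  obtain ⟨a, b, c, d⟩ : (S.P.side i).2 % 4 = 0 ∧ z.2 - z.1 = (S.P.side i).1.2 * (2 * H) ∧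
      (S.P.side i).1.1 * (2 * H) + 2 * K + 6 ≤ z.1 + z.2 ∧
      z.1 + z.2 + 2 * K + 6 ≤ (S.P.side i).1.1 * (2 * H) + 2 * H := by
    rcases P.pos with h | ⟨a, -⟩ | ⟨a, -⟩ | ⟨a, -⟩
    · exact h
    · omega
    · omega
    · omega
  have big := P.big
  have e1 := P.px
  rw [abs_le] at e1
  have hρ := P.hρ
  have hn : (0 : ℤ) < 2 * H := by omega
  rw [(dirs (k := (S.P.side i).2)).1 hk]
  refine ⟨near_F hn (by omega) (by omega) (by omega) (by omega),
    nc_fst (a := (S.P.side i).1.1) (by omega) (by omega), ?_, ?_, b⟩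
  · intro h
    exact (ct_F hn (by omega) (by omega) (by omega) (by omega)).1 (by omega)
  · intro h
    exact (ct_F hn (by omega) (by omega) (by omega) (by omega)).2 (by omega)

theorem geoF {β : Type} (hH : 0 < H) (hi : i < S.N)
    (P : Plc (2 * H) (S.P.side i).1 (S.P.side i).2 z p K ρ)
    (hk : (S.P.side i).2 % 4 = 0) {b : ℤ × ℤ → β} (hb : Nat' (2 * H) (S.P.side i).1 b z K) :
    WallF (EE S H) (Wp S H p) b (Lam3 S H : Set (ℤ × ℤ)) (Del S.P.Q (2 * H) p) z ρ K p.1 p.2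
      (colW S H p i) := by
  have hn : (0 : ℤ) < 2 * H := by omega
  have px := P.px
  have py := P.py
  have px' := px
  have py' := py
  rw [abs_le] at px' py'
  have hp := (ct_eq hn).1 P.hp
  have hs := isSide_side' S.P i
  have hd := (dirs (k := (S.P.side i).2)).1 hk
  have box : ∀ {e : ℤ × ℤ}, e ∈ BR z K → _ := fun {e} he =>
    have h := tt_box he
    boxF P hk h.2.2.1 h.2.2.2.1 h.2.2.2.2.1 h.2.2.2.2.2
  have hρ := P.hρ
  have hZ : z.2 - z.1 = (S.P.side i).1.2 * (2 * H) :=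
    (boxF P hk (t := (z.1 + z.2, z.2 - z.1)) (by simp only; omega) (by simp only; omega)
      (by simp only; omega) (by simp only; omega)).2.2.2.2
  have lam : ∀ e ∈ (Lam3 S H : Set (ℤ × ℤ)), e ∈ BR z K → z.2 - z.1 - 1 ≤ (tt e).2 := by
    intro e he heB
    obtain ⟨k1, k2, k3, k4, k5⟩ := box heB
    rcases lam_near hH hi k1 k2 he with h | h
    · have := (ct_eq hn).1 h
      omega
    · have := (ct_eq hn).1 ((mem_LY hn).1 h).2.2
      rw [hd] at this
      simp only [Prod.fst_sub, Prod.snd_sub] at this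
      omega
  refine ⟨fun e he => lam_odd hH he, ?_, ?_, ?_, ?_, ?_, ?_, ?_⟩
  · intro e he heB
    have h1 := lam e he heB
    have h2 := tt_box heB
    omega
  · intro e heB h
    obtain ⟨k1, k2, k3, k4, k5⟩ := box heB
    have h2 := tt_box heB
    have h3 := EE_of hH (mem_BR.1 heB).2.2 (k3 (by omega))
    exact ⟨h3, wp_not_EE hH h3⟩
  · intro e heB h e' heB' h' hbe
    obtain ⟨k1, k2, k3, k4, k5⟩ := box heB
    obtain ⟨c1, c2, c3, c4, c5⟩ := box heB'
    have h2 := tt_box heB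
    have h3 := tt_box heB'
    exact hb e heB (k3 (by omega)) e' heB' (c3 (by omega)) hbe
  · intro e he heB hn'
    have h1 := lam e he heB
    have h2 := tt_box heB
    have ho := (mem_BR.1 heB).2.2
    rw [mem_Del]
    constructor
    · rintro ⟨g1, g2, g3, g4⟩
      omega
    · intro h
      refine ⟨ho, by omega, by omega, fun x hx1 hx2 => ?_⟩
      have := (boxF P hk (t := (x, p.2)) (by simp only; omega) (by simp only; omega)
          (by simp only; omega) (by simp only; omega)).2.2.1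
      rw [this (by simp only; omega)]
      exact hs.1
  · intro e heB h
    obtain ⟨k1, k2, k3, k4, k5⟩ := box heB
    have ht := tt_box heB
    have hL : e ∈ LY (2 * H) (S.P.side i) := by
      rw [mem_LY hn]
      refine ⟨(mem_BR.1 heB).2.2, k4 (by omega), ?_⟩
      rw [hd]
      refine (boxF P hk ?_ ?_ ?_ ?_).2.2.1 ?_ <;> simp only [Prod.fst_sub, Prod.snd_sub] <;> omega
    refine ⟨?_, ly_not_EE hH hL⟩
    rw [wp_near hH hi k1, aft_of (by omega)]
    exact ⟨fun h => h.2, fun h => ⟨hL, h⟩⟩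
  · omega
  · omega

end

end Pool.Agent.H97.W
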