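import Mathlib
import Pool.Agent.H97.W.Geo2

set_option autoImplicit false
open Finset

/-! # The third end is not reached from near a side: probability

`one_third` : one exit near a point of the arc `j` ⟹ the strand of the interior end does not arrive at the
far end `j + 2` (47's `third_end_V`). `third_prob` : the probability is at most `C (ρ / M) ^ α`. -/

namespace Pool.Agent.H97.W

open Pool.Agent.H75.Perc hiding WL CT hh PB EE
open Pool.Agent.H75.TwoArm Pool.Agent.H99.W Pool.Agent.H13.W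
open Pool.Agent.H33.Q1 Pool.Agent.H21.FM
open Pool.Agent.Q1.M4 (Cell Good IsSide nextSide tail head PType)
open Pool.Agent.H37.W (dg dg_eq)
open Pool.Agent.H74.W (Lam3 Del Ex Wp yy GW Cv Aft mem_Wp)
open Pool.Agent.H99.NC (BR inR inR_iff)
open Pool.Agent.H70.W (mem_BR)
open Pool.Agent.H47.W (pa pb hz vt sd Jn Jn_sd mkS InT PI Arc r0 r1 ol yy_mark third_end_V)
open Pool.Agent.H58.W (PB PB_mono)

/-- end points of a side of a tile -/
lemma sd_ends {e c : ℤ × ℤ} (ho : (e.1 + e.2) % 2 = 1) (h : Sd e c) :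
    ((tt e).1 ≤ (pa c).1 ∧ (pa c).1 ≤ (tt e).1 + 1 ∧ (tt e).2 ≤ (pa c).2 ∧ (pa c).2 ≤ (tt e).2 + 1) ∧
    ((tt e).1 ≤ (pb c).1 ∧ (pb c).1 ≤ (tt e).1 + 1 ∧ (tt e).2 ≤ (pb c).2 ∧ (pb c).2 ≤ (tt e).2 + 1) := by
  have h1 := sd_coord h
  obtain ⟨e1, e2⟩ := tt_odd ho
  unfold pa pb
  split_ifs with hc <;> simp only <;> omega

/-- the sides of a mark have a grid vertex as end point -/
lemma mkS_end (n : ℤ) (s : Cell × ℤ) (b : Bool) : ∃ X Y : ℤ,
    pa (mkS n s b) = (X * n, Y * n) ∨ pb (mkS n s b) = (X * n, Y * n) := by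
  have hw : wp n s n = (((tail s).1 + (dir s.2).1) * n, ((tail s).2 + (dir s.2).2) * n) := by
    unfold wp
    refine Prod.ext ?_ ?_ <;> simp only <;> ring
  refine ⟨(tail s).1 + (dir s.2).1, (tail s).2 + (dir s.2).2, ?_⟩
  rw [← hw]
  cases b with
  | true =>
    rw [Pool.Agent.H47.W.mkS_true]
    rcases Jn_sd (wp n s n) s.2 with h | h
    · exact Or.inl h.1
    · exact Or.inr h.2
  | false =>
    rw [Pool.Agent.H47.W.mkS_false]
    rcases Jn_sd (wp n s n) (s.2 - 1) with h | h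
    · exact Or.inl h.1
    · exact Or.inr h.2

/-- straight path -/
lemma PI_line {Λ I : Set (ℤ × ℤ)} (q : ℤ × ℤ) (k : ℤ) (m : ℕ)
    (h : ∀ j : ℕ, j < m → sd (q.1 + j * (dir k).1, q.2 + j * (dir k).2) k ∈ I ∧
      InT Λ (sd (q.1 + j * (dir k).1, q.2 + j * (dir k).2) k)) :
    PI Λ I q (q.1 + m * (dir k).1, q.2 + m * (dir k).2) := by
  induction m with
  | zero =>
    have : (q.1 + ((0 : ℕ) : ℤ) * (dir k).1, q.2 + ((0 : ℕ) : ℤ) * (dir k).2) = q := by simp
    rw [this]
    exact Relation.ReflTransGen.refl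
  | succ m ih =>
    refine (ih fun j hj => h j (by omega)).tail ?_
    obtain ⟨h1, h2⟩ := h m (by omega)
    refine ⟨_, h1, ?_, h2⟩
    have h3 := Jn_sd (q.1 + (m : ℤ) * (dir k).1, q.2 + (m : ℤ) * (dir k).2) k
    have h4 : ((q.1 + (m : ℤ) * (dir k).1, q.2 + (m : ℤ) * (dir k).2) : ℤ × ℤ) + dir k =
        (q.1 + ((m + 1 : ℕ) : ℤ) * (dir k).1, q.2 + ((m + 1 : ℕ) : ℤ) * (dir k).2) := by
      refine Prod.ext ?_ ?_ <;> simp only [Prod.fst_add, Prod.snd_add] <;> push_cast <;> ring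
    rw [h4] at h3
    exact h3

lemma eS_lt (x y : ℤ) : eS (lt (x, y)) = hz x y := by
  unfold eS lt hz
  refine Prod.ext ?_ ?_ <;> simp only <;> ring

lemma eW_lt (x y : ℤ) : eW (lt (x, y)) = vt x y := by
  unfold eW lt vt
  refine Prod.ext ?_ ?_ <;> simp only

section

variable {S : Shape} {H : ℕ} {i : ℕ} {p z : ℤ × ℤ} {K ρ B : ℤ}

lemma inT_of {Λ : Set (ℤ × ℤ)} {e c : ℤ × ℤ} (ho : (e.1 + e.2) % 2 = 1) (he : e ∈ Λ)
    (h : Sd e c) : InT Λ c := by
  rcases Pool.Agent.H13.W.of_side ho c h with h2 | h2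
  · left; rw [← h2]; exact he
  · right; rw [← h2]; exact he

/-- the far ends are not near `z` -/
lemma yy_far (P : Plc (2 * H) (S.P.side i).1 (S.P.side i).2 z p K ρ) (hB : B ≤ K) (j : Fin 3)
    {e : ℤ × ℤ} (he : e ∈ BR z B) : ¬ Sd e (yy S H p j) := by
  intro hs
  obtain ⟨b, hy⟩ := yy_mark (S := S) (h := H) p j
  rw [hy] at hs
  obtain ⟨X, Y, hXY⟩ := mkS_end (2 * H) (S.P.side (Pool.Agent.H47.W.vx3 S j)) b
  have h1 := sd_ends (mem_BR.1 he).2.2 hs
  have h2 := tt_box he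
  have hX : (tt e).1 ≤ X * (2 * H) ∧ X * (2 * H) ≤ (tt e).1 + 1 ∧ (tt e).2 ≤ Y * (2 * H) ∧
      Y * (2 * H) ≤ (tt e).2 + 1 := by
    rcases hXY with h | h
    · have := h1.1
      rw [h] at this
      exact this
    · have := h1.2
      rw [h] at this
      exact this
  rcases P.pos with ⟨-, a, b1, b2⟩ | ⟨-, a, b1, b2⟩ | ⟨-, a, b1, b2⟩ | ⟨-, a, b1, b2⟩
  · exact no_mul (n := 2 * (H : ℤ)) (a := (S.P.side i).1.1) (m := X * (2 * H)) (X := X)
      (by omega) (by omega) rfl
  · exact no_mul (n := 2 * (H : ℤ)) (a := (S.P.side i).1.2) (m := Y * (2 * H)) (X := Y)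
      (by omega) (by omega) rfl
  · exact no_mul (n := 2 * (H : ℤ)) (a := (S.P.side i).1.1) (m := X * (2 * H)) (X := X)
      (by omega) (by omega) rfl
  · exact no_mul (n := 2 * (H : ℤ)) (a := (S.P.side i).1.2) (m := Y * (2 * H)) (X := Y)
      (by omega) (by omega) rfl

/-- column on the outer line -/
lemma col_range {Q : Finset Cell} {n a : ℤ} {s : Cell × ℤ} (h1 : 1 ≤ a) (h2 : a ≤ n - 1) :
    r0 Q s ≤ a ∧ a ≤ r1 Q n s := by
  have := Pool.Agent.H47.W.r0_range Q s
  have := Pool.Agent.H47.W.r1_range Q n s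
  omega

/-- the path from `p` to the outer line -/
lemma path_out (hH : 0 < H) (hi : i < S.N)
    (P : Plc (2 * H) (S.P.side i).1 (S.P.side i).2 z p K ρ) {I : Set (ℤ × ℤ)}
    (h2 : ∀ e ∈ (Lam3 S H : Set (ℤ × ℤ)), e ∈ BR z (ρ - 3) → ∀ c, Sd e c → c ∈ I) :
    ∃ a, r0 S.P.Q (S.P.side i) ≤ a ∧ a ≤ r1 S.P.Q (2 * H) (S.P.side i) ∧
      PI (Lam3 S H : Set (ℤ × ℤ)) I p (ol (2 * H) (S.P.side i) a) := by
  have hn : (0 : ℤ) < 2 * H := by omega
  have px := P.px
  have py := P.py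
  have px' := px
  have py' := py
  rw [abs_le] at px' py'
  have hp := (ct_eq hn).1 P.hp
  have hs := isSide_side' S.P i
  have h7 := P.h7
  have hρ := P.hρ
  have big := P.big
  have use : ∀ t : ℤ × ℤ, lt t ∈ (Lam3 S H : Set (ℤ × ℤ)) → |t.1 - (z.1 + z.2)| ≤ ρ - 6 →
      |t.2 - (z.2 - z.1)| ≤ ρ - 6 → ∀ c, Sd (lt t) c → c ∈ I ∧ InT (Lam3 S H : Set (ℤ × ℤ)) c := by
    intro t ht a1 a2 c hc
    exact ⟨h2 _ ht (mem_in (lt_odd t) (by rw [tt_lt]; exact a1) (by rw [tt_lt]; exact a2)) c hc,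
      inT_of (lt_odd t) ht hc⟩
  have inn : ∀ t : ℤ × ℤ, ct (2 * H) t = (S.P.side i).1 → lt t ∈ (Lam3 S H : Set (ℤ × ℤ)) := by
    intro t ht
    exact EE_Lam (EE_of hH (lt_odd t) (by rw [tt_lt]; exact ht))
  have lay : ∀ t : ℤ × ℤ, ct (2 * H) t = (S.P.side i).1 + dir ((S.P.side i).2 - 1) →
      ct (2 * H) (t - dir ((S.P.side i).2 - 1)) = (S.P.side i).1 →
      lt t ∈ (Lam3 S H : Set (ℤ × ℤ)) := by
    intro t a1 a2
    refine LY_Lam hi ((mem_LY hn).2 ⟨lt_odd t, ?_, ?_⟩)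
    · rw [tt_lt]; exact a1
    · rw [tt_lt]; exact a2
  rcases P.pos with ⟨hk, a, b1, b2⟩ | ⟨hk, a, b1, b2⟩ | ⟨hk, a, b1, b2⟩ | ⟨hk, a, b1, b2⟩
  · -- floor
    refine ⟨p.1 - (S.P.side i).1.1 * (2 * H), (col_range (n := 2 * H) (by omega) (by omega)).1,
      (col_range (n := 2 * H) (by omega) (by omega)).2, ?_⟩
    have hline := PI_line (Λ := (Lam3 S H : Set (ℤ × ℤ))) (I := I) p ((S.P.side i).2 - 1)
      (p.2 - (z.2 - z.1) + 1).toNat ?_
    · have e1 : ((p.2 - (z.2 - z.1) + 1).toNat : ℤ) = p.2 - (z.2 - z.1) + 1 :=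
        Int.toNat_of_nonneg (by omega)
      rw [e1] at hline
      have e2 : ol (2 * H) (S.P.side i) (p.1 - (S.P.side i).1.1 * (2 * H)) =
          (p.1 + (p.2 - (z.2 - z.1) + 1) * (dir ((S.P.side i).2 - 1)).1,
            p.2 + (p.2 - (z.2 - z.1) + 1) * (dir ((S.P.side i).2 - 1)).2) := by
        unfold ol wp
        rcases io_dir (S.P.side i).2 with ⟨m, n1, n2, n3⟩ | ⟨m, -⟩ | ⟨m, -⟩ | ⟨m, -⟩
        · rw [tail_io, n1, n2, n3, a]
          refine Prod.ext ?_ ?_ <;> simp only [Prod.fst_add, Prod.snd_add, Prod.fst_sub,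
            Prod.snd_sub] <;> ring
        · omega
        · omega
        · omega
      rw [e2]
      exact hline
    · intro j hj
      have hj' : (j : ℤ) < p.2 - (z.2 - z.1) + 1 := by omega
      have hd := (dirs (k := (S.P.side i).2)).1 hk
      have hsd : sd (p.1 + j * (dir ((S.P.side i).2 - 1)).1, p.2 + j *
          (dir ((S.P.side i).2 - 1)).2) ((S.P.side i).2 - 1) = vt p.1 (p.2 - j - 1) := by
        unfold sd
        rw [if_neg (by omega), if_neg (by omega), if_neg (by omega), hd]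
        simp only
        congr 1
        · ring
        · ring
      rw [hsd, ← eW_lt]
      refine use (p.1, p.2 - j - 1) ?_ px (by simp only; rw [abs_le]; omega) _ (Or.inl rfl)
      have bx := boxF P hk (t := (p.1, p.2 - j - 1)) (by simp only; omega) (by simp only; omega)
        (by simp only; omega) (by simp only; omega)
      rcases lt_or_ge (p.2 - j - 1) (z.2 - z.1) with h | h
      · refine lay _ (bx.2.2.2.1 h) ?_
        rw [hd]
        refine (boxF P hk ?_ ?_ ?_ ?_).2.2.1 ?_ <;> simp only [Prod.fst_sub, Prod.snd_sub] <;>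
          omega
      · exact inn _ (bx.2.2.1 h)
  · -- right wall
    refine ⟨p.2 - (S.P.side i).1.2 * (2 * H), (col_range (n := 2 * H) (by omega) (by omega)).1,
      (col_range (n := 2 * H) (by omega) (by omega)).2, ?_⟩
    have hline := PI_line (Λ := (Lam3 S H : Set (ℤ × ℤ))) (I := I) p ((S.P.side i).2 - 1)
      ((z.1 + z.2) + 1 - p.1).toNat ?_
    · have e1 : (((z.1 + z.2) + 1 - p.1).toNat : ℤ) = (z.1 + z.2) + 1 - p.1 :=
        Int.toNat_of_nonneg (by omega)
      rw [e1] at hline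
      have e2 : ol (2 * H) (S.P.side i) (p.2 - (S.P.side i).1.2 * (2 * H)) =
          (p.1 + ((z.1 + z.2) + 1 - p.1) * (dir ((S.P.side i).2 - 1)).1,
            p.2 + ((z.1 + z.2) + 1 - p.1) * (dir ((S.P.side i).2 - 1)).2) := by
        unfold ol wp
        rcases io_dir (S.P.side i).2 with ⟨m, -⟩ | ⟨m, n1, n2, n3⟩ | ⟨m, -⟩ | ⟨m, -⟩
        · omega
        · rw [tail_io, n1, n2, n3, a]
          refine Prod.ext ?_ ?_ <;> simp only [Prod.fst_add, Prod.snd_add, Prod.fst_sub,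
            Prod.snd_sub] <;> ring
        · omega
        · omega
      rw [e2]
      exact hline
    · intro j hj
      have hj' : (j : ℤ) < (z.1 + z.2) + 1 - p.1 := by omega
      have hd := (dirs (k := (S.P.side i).2)).2.1 hk
      have hsd : sd (p.1 + j * (dir ((S.P.side i).2 - 1)).1, p.2 + j *
          (dir ((S.P.side i).2 - 1)).2) ((S.P.side i).2 - 1) = hz (p.1 + j) p.2 := by
        unfold sd
        rw [if_pos (by omega), hd]
        simp only
        congr 1
        · ring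
        · ring
      rw [hsd, ← eS_lt]
      refine use (p.1 + j, p.2) ?_ (by simp only; rw [abs_le]; omega) py _
        (Or.inr (Or.inr (Or.inl rfl)))
      have bx := boxR P hk (t := (p.1 + j, p.2)) (by simp only; omega) (by simp only; omega)
        (by simp only; omega) (by simp only; omega)
      rcases lt_or_ge (p.1 + j) (z.1 + z.2) with h | h
      · exact inn _ (bx.2.2.1 h)
      · refine lay _ (bx.2.2.2.1 h) ?_
        rw [hd]
        refine (boxR P hk ?_ ?_ ?_ ?_).2.2.1 ?_ <;> simp only [Prod.fst_sub, Prod.snd_sub] <;>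
          omega
  · -- ceiling
    refine ⟨(S.P.side i).1.1 * (2 * H) + 2 * H - p.1, (col_range (n := 2 * H) (by omega) (by omega)).1,
      (col_range (n := 2 * H) (by omega) (by omega)).2, ?_⟩
    have hline := PI_line (Λ := (Lam3 S H : Set (ℤ × ℤ))) (I := I) p ((S.P.side i).2 - 1)
      ((z.2 - z.1) + 1 - p.2).toNat ?_
    · have e1 : (((z.2 - z.1) + 1 - p.2).toNat : ℤ) = (z.2 - z.1) + 1 - p.2 :=
        Int.toNat_of_nonneg (by omega)
      rw [e1] at hline
      have e2 : ol (2 * H) (S.P.side i) ((S.P.side i).1.1 * (2 * H) + 2 * H - p.1) =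
          (p.1 + ((z.2 - z.1) + 1 - p.2) * (dir ((S.P.side i).2 - 1)).1,
            p.2 + ((z.2 - z.1) + 1 - p.2) * (dir ((S.P.side i).2 - 1)).2) := by
        unfold ol wp
        rcases io_dir (S.P.side i).2 with ⟨m, -⟩ | ⟨m, -⟩ | ⟨m, n1, n2, n3⟩ | ⟨m, -⟩
        · omega
        · omega
        · rw [tail_io, n1, n2, n3, a]
          refine Prod.ext ?_ ?_ <;> simp only [Prod.fst_add, Prod.snd_add, Prod.fst_sub,
            Prod.snd_sub] <;> ring
        · omega
      rw [e2]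
      exact hline
    · intro j hj
      have hj' : (j : ℤ) < (z.2 - z.1) + 1 - p.2 := by omega
      have hd := (dirs (k := (S.P.side i).2)).2.2.1 hk
      have hsd : sd (p.1 + j * (dir ((S.P.side i).2 - 1)).1, p.2 + j *
          (dir ((S.P.side i).2 - 1)).2) ((S.P.side i).2 - 1) = vt p.1 (p.2 + j) := by
        unfold sd
        rw [if_neg (by omega), if_pos (by omega), hd]
        simp only
        congr 1
        · ring
        · ring
      rw [hsd, ← eW_lt]
      refine use (p.1, p.2 + j) ?_ px (by simp only; rw [abs_le]; omega) _ (Or.inl rfl)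
      have bx := boxC P hk (t := (p.1, p.2 + j)) (by simp only; omega) (by simp only; omega)
        (by simp only; omega) (by simp only; omega)
      rcases lt_or_ge (p.2 + j) (z.2 - z.1) with h | h
      · exact inn _ (bx.2.2.1 h)
      · refine lay _ (bx.2.2.2.1 h) ?_
        rw [hd]
        refine (boxC P hk ?_ ?_ ?_ ?_).2.2.1 ?_ <;> simp only [Prod.fst_sub, Prod.snd_sub] <;>
          omega
  · -- left wall
    refine ⟨(S.P.side i).1.2 * (2 * H) + 2 * H - p.2, (col_range (n := 2 * H) (by omega) (by omega)).1,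
      (col_range (n := 2 * H) (by omega) (by omega)).2, ?_⟩
    have hline := PI_line (Λ := (Lam3 S H : Set (ℤ × ℤ))) (I := I) p ((S.P.side i).2 - 1)
      (p.1 - (z.1 + z.2) + 1).toNat ?_
    · have e1 : ((p.1 - (z.1 + z.2) + 1).toNat : ℤ) = p.1 - (z.1 + z.2) + 1 :=
        Int.toNat_of_nonneg (by omega)
      rw [e1] at hline
      have e2 : ol (2 * H) (S.P.side i) ((S.P.side i).1.2 * (2 * H) + 2 * H - p.2) =
          (p.1 + (p.1 - (z.1 + z.2) + 1) * (dir ((S.P.side i).2 - 1)).1,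
            p.2 + (p.1 - (z.1 + z.2) + 1) * (dir ((S.P.side i).2 - 1)).2) := by
        unfold ol wp
        rcases io_dir (S.P.side i).2 with ⟨m, -⟩ | ⟨m, -⟩ | ⟨m, -⟩ | ⟨m, n1, n2, n3⟩
        · omega
        · omega
        · omega
        · rw [tail_io, n1, n2, n3, a]
          refine Prod.ext ?_ ?_ <;> simp only [Prod.fst_add, Prod.snd_add, Prod.fst_sub,
            Prod.snd_sub] <;> ring
      rw [e2]
      exact hline
    · intro j hj
      have hj' : (j : ℤ) < p.1 - (z.1 + z.2) + 1 := by omega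
      have hd := (dirs (k := (S.P.side i).2)).2.2.2 hk
      have hsd : sd (p.1 + j * (dir ((S.P.side i).2 - 1)).1, p.2 + j *
          (dir ((S.P.side i).2 - 1)).2) ((S.P.side i).2 - 1) = hz (p.1 - j - 1) p.2 := by
        unfold sd
        rw [if_neg (by omega), if_neg (by omega), if_pos (by omega), hd]
        simp only
        congr 1
        · ring
        · ring
      rw [hsd, ← eS_lt]
      refine use (p.1 - j - 1, p.2) ?_ (by simp only; rw [abs_le]; omega) py _
        (Or.inr (Or.inr (Or.inl rfl)))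
      have bx := boxL P hk (t := (p.1 - j - 1, p.2)) (by simp only; omega) (by simp only; omega)
        (by simp only; omega) (by simp only; omega)
      rcases lt_or_ge (p.1 - j - 1) (z.1 + z.2) with h | h
      · refine lay _ (bx.2.2.2.1 h) ?_
        rw [hd]
        refine (boxL P hk ?_ ?_ ?_ ?_).2.2.1 ?_ <;> simp only [Prod.fst_sub, Prod.snd_sub] <;>
          omega
      · exact inn _ (bx.2.2.1 h)

/-- **One exit ⟹ the third end is not reached.** -/
theorem one_third (hH : 2 ≤ H) (hi : i < S.N) {j : Fin 3} (ha : Arc S j i)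
    (P : Plc (2 * H) (S.P.side i).1 (S.P.side i).2 z p K ρ) (hB : B ≤ K) {ω : Finset (ℤ × ℤ)}
    (hfar : ∃ c, (c = eW (lt p) ∨ c = yy S H p (j + 1) ∨ c = yy S H p (j + 2)) ∧
      c ≠ yy S H p j ∧ (GW S H p ω).Reachable (yy S H p j) c)
    (h : OneExit (Lam3 S H : Set (ℤ × ℤ)) (Del S.P.Q (2 * H) p) (ω ∪ Wp S H p) z (ρ - 3) B) :
    ¬ (GW S H p ω).Reachable (eW (lt p)) (yy S H p (j + 2)) := by
  obtain ⟨I, b, h1, h2, h3⟩ := h
  have hH' : 0 < H := by omega
  obtain ⟨a, a0, a1, hpi⟩ := path_out hH' hi P h2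
  have hs := isSide_side' S.P i
  have hz : eW (lt p) ∈ I := by
    refine h2 (lt p) (EE_Lam (EE_of (i := i) hH' (lt_odd p) ?_)) (mem_in (lt_odd p) ?_ ?_) _
      (Or.inl rfl)
    · rw [tt_lt]; exact P.hp
    · rw [tt_lt]; exact P.px
    · rw [tt_lt]; exact P.py
  have hy : ∀ j', yy S H p j' ∉ I := by
    intro j' hc
    obtain ⟨e, he, hse⟩ := h3 _ hc
    exact yy_far P hB j' he hse
  refine third_end_V hH (by rw [P.hp]; exact hs.1) h1 hz (hy j) (hy (j + 2)) hfar ha a0 a1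
    (q := p) (Or.inl ?_) hpi
  have : eW (lt p) = vt p.1 p.2 := eW_lt p.1 p.2
  rw [this, Pool.Agent.H47.W.pa_vt]

end

end Pool.Agent.H97.W
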