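import Mathlib
import Pool.Agent.H97.W.Third

set_option autoImplicit false
open Finset

/-! # Probability that the third end is reached from near a side -/

namespace Pool.Agent.H97.W

open Pool.Agent.H75.Perc hiding WL CT hh PB EE
open Pool.Agent.H75.TwoArm Pool.Agent.H99.W Pool.Agent.H13.W
open Pool.Agent.H33.Q1 Pool.Agent.H21.FM
open Pool.Agent.Q1.M4 (Cell Good IsSide nextSide tail head PType)
open Pool.Agent.H74.W (Lam3 Del Ex Wp yy GW Cv Aft mem_Wp)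
open Pool.Agent.H99.NC (BR inR inR_iff)
open Pool.Agent.H70.W (mem_BR)
open Pool.Agent.H47.W (Arc)
open Pool.Agent.H58.W (PB PB_mono)

/-- one exit near a side: the four walls together -/
theorem one_prob : ∃ C α : ℝ, 0 < C ∧ 0 < α ∧
    ∀ {β : Type} [DecidableEq β] (S : Shape) (H i : ℕ) (p z : ℤ × ℤ) (ρ M : ℤ) (b : ℤ × ℤ → β),
    0 < H → i < S.N → ρ ≤ M → Plc (2 * H) (S.P.side i).1 (S.P.side i).2 z p (M + 8) ρ →
    Nat' (2 * H) (S.P.side i).1 b z (M + 8) →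
    PB (EE S H) b (fun ω => ¬ OneExit (Lam3 S H : Set (ℤ × ℤ)) (Del S.P.Q (2 * H) p)
      (ω ∪ Wp S H p) z (ρ - 3) (M + 7)) ≤ C * ((ρ : ℝ) / M) ^ α := by
  obtain ⟨C1, α1, hC1, hα1, h1⟩ := wallL_prob
  obtain ⟨C2, α2, hC2, hα2, h2⟩ := wallC_prob
  obtain ⟨C3, α3, hC3, hα3, h3⟩ := wallR_prob
  obtain ⟨C4, α4, hC4, hα4, h4⟩ := wallF_prob
  refine ⟨max (max C1 C2) (max C3 C4), min (min α1 α2) (min α3 α4),
    lt_of_lt_of_le hC1 (le_trans (le_max_left _ _) (le_max_left _ _)),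
    lt_min (lt_min hα1 hα2) (lt_min hα3 hα4), ?_⟩
  intro β _ S H i p z ρ M b hH hi hρM P hb
  have h7 := P.h7
  have hq0 : 0 < (ρ : ℝ) / M := by
    have : (0 : ℝ) < ρ := by exact_mod_cast (by omega : 0 < ρ)
    have : (0 : ℝ) < M := by exact_mod_cast (by omega : 0 < M)
    positivity
  have hq1 : (ρ : ℝ) / M ≤ 1 := by
    have : (0 : ℝ) < M := by exact_mod_cast (by omega : 0 < M)
    rw [div_le_one this]
    exact_mod_cast hρM
  have key : ∀ C' α' : ℝ, 0 < C' → C' ≤ max (max C1 C2) (max C3 C4) →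
      min (min α1 α2) (min α3 α4) ≤ α' → C' * ((ρ : ℝ) / M) ^ α' ≤
        max (max C1 C2) (max C3 C4) * ((ρ : ℝ) / M) ^ min (min α1 α2) (min α3 α4) := by
    intro C' α' hC' hC hα
    refine mul_le_mul hC (Real.rpow_le_rpow_of_exponent_ge hq0 hq1 hα)
      (Real.rpow_nonneg hq0.le _) (hC'.le.trans hC)
  rcases P.pos with ⟨hk, -⟩ | ⟨hk, -⟩ | ⟨hk, -⟩ | ⟨hk, -⟩
  · exact (h4 _ _ _ _ _ z ρ M p.1 p.2 _ (by omega) hρM (geoF hH hi P hk hb)).trans
      (key C4 α4 hC4 (le_trans (le_max_right _ _) (le_max_right _ _))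
        (le_trans (min_le_right _ _) (min_le_right _ _)))
  · exact (h3 _ _ _ _ _ z ρ M p.2 _ (by omega) hρM (geoR hH hi P hk hb)).trans
      (key C3 α3 hC3 (le_trans (le_max_left _ _) (le_max_right _ _))
        (le_trans (min_le_right _ _) (min_le_left _ _)))
  · exact (h2 _ _ _ _ _ z ρ M p.1 p.2 _ (by omega) hρM (geoC hH hi P hk hb)).trans
      (key C2 α2 hC2 (le_trans (le_max_right _ _) (le_max_left _ _))
        (le_trans (min_le_left _ _) (min_le_right _ _)))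
  · exact (h1 _ _ _ _ _ z ρ M p.2 _ (by omega) hρM (geoL hH hi P hk hb)).trans
      (key C1 α1 hC1 (le_trans (le_max_left _ _) (le_max_left _ _))
        (le_trans (min_le_left _ _) (min_le_left _ _)))

/-- **The third end is not reached from near a side.** -/
theorem third_prob : ∃ C α : ℝ, 0 < C ∧ 0 < α ∧
    ∀ {β : Type} [DecidableEq β] (S : Shape) (H i : ℕ) (j : Fin 3) (p z : ℤ × ℤ) (ρ M : ℤ)
    (b : ℤ × ℤ → β), 2 ≤ H → i < S.N → Arc S j i → ρ ≤ M →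
    Plc (2 * H) (S.P.side i).1 (S.P.side i).2 z p (M + 8) ρ →
    Nat' (2 * H) (S.P.side i).1 b z (M + 8) →
    (∀ ω ⊆ EE S H, ∃ c, (c = eW (lt p) ∨ c = yy S H p (j + 1) ∨ c = yy S H p (j + 2)) ∧
      c ≠ yy S H p j ∧ (GW S H p ω).Reachable (yy S H p j) c) →
    PB (EE S H) b (fun ω => (GW S H p ω).Reachable (eW (lt p)) (yy S H p (j + 2))) ≤
      C * ((ρ : ℝ) / M) ^ α := by
  obtain ⟨C, α, hC, hα, h⟩ := one_prob
  refine ⟨C, α, hC, hα, ?_⟩
  intro β _ S H i j p z ρ M b hH hi ha hρM P hb hfar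
  refine le_trans ?_ (h S H i p z ρ M b (by omega) hi hρM P hb)
  apply PB_mono
  intro ω hω hr hex
  exact one_third hH hi ha P (by omega) (hfar ω hω) hex hr

end Pool.Agent.H97.W
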