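import Mathlib
import Pool.Agent.H97.W.ThirdP

set_option autoImplicit false
open Finset

/-! # Placement and natural coins near a point of a side

`vz H w` : the even vertex next to the point `w` of the plane (coarse coordinates). `plc_of` : the placement
of `vz H z0` and of a tile `p` near the point `z0` of a side. `nat_of` : there are no plates near `z0`.
`om_cell` : a point of the open domain near `z0` belongs to the open cell of the side. -/

namespace Pool.Agent.H97.W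

open Pool.Agent.H75.Perc hiding WL CT hh PB EE
open Pool.Agent.H75.TwoArm Pool.Agent.H99.W Pool.Agent.H13.W
open Pool.Agent.H33.Q1 Pool.Agent.H21.FM
open Pool.Agent.Q1.M4 (Cell Good IsSide nextSide tail head PType Om Reg pt rect isOpen_Om mem_rect
  line_inner line_uniq)
open Pool.Agent.H14.FM (ic)
open Pool.Agent.H58.W (plV)
open Pool.Agent.H50.W (bk bk_none ct_ct)
open Pool.Agent.H99.NC (BR inR inR_iff)
open Pool.Agent.H70.W (mem_BR)

/-- the even vertex next to the point `w` -/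
noncomputable def vz (H : ℕ) (w : ℂ) : ℤ × ℤ :=
  (⌊w.re * H⌋ - ⌊w.im * H⌋, ⌊w.re * H⌋ + ⌊w.im * H⌋)

lemma vz_x (H : ℕ) (w : ℂ) : (vz H w).1 + (vz H w).2 = 2 * ⌊w.re * H⌋ := by
  unfold vz; simp only; ring

lemma vz_y (H : ℕ) (w : ℂ) : (vz H w).2 - (vz H w).1 = 2 * ⌊w.im * H⌋ := by
  unfold vz; simp only; ring

lemma ic_eq (a : ℤ) : ic a = (a : ℝ) := rfl

/-- coordinates of a point of a side -/
lemma sidePt_xy (P : PType) (i : ℕ) (t : ℝ) :
    ((P.side i).2 % 4 = 0 ∧ (P.sidePt ic ic i t).re = (P.side i).1.1 + t ∧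
      (P.sidePt ic ic i t).im = (P.side i).1.2) ∨
    ((P.side i).2 % 4 = 1 ∧ (P.sidePt ic ic i t).re = (P.side i).1.1 + 1 ∧
      (P.sidePt ic ic i t).im = (P.side i).1.2 + t) ∨
    ((P.side i).2 % 4 = 2 ∧ (P.sidePt ic ic i t).re = (P.side i).1.1 + 1 - t ∧
      (P.sidePt ic ic i t).im = (P.side i).1.2 + 1) ∨
    ((P.side i).2 % 4 = 3 ∧ (P.sidePt ic ic i t).re = (P.side i).1.1 ∧
      (P.sidePt ic ic i t).im = (P.side i).1.2 + 1 - t) := by
  have h1 : P.vert (i + 1) = P.vert i + dir (P.side i).2 := P.vert_head i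
  have hre : (P.sidePt ic ic i t).re = ((P.vert i).1 : ℝ) + t * ((dir (P.side i).2).1 : ℝ) := by
    unfold PType.sidePt pt
    rw [h1]
    simp [ic_eq]
  have him : (P.sidePt ic ic i t).im = ((P.vert i).2 : ℝ) + t * ((dir (P.side i).2).2 : ℝ) := by
    unfold PType.sidePt pt
    rw [h1]
    simp [ic_eq]
  have hv : P.vert i = tail (P.side i) := rfl
  rw [hre, him, hv, tail_io]
  rcases io_dir (P.side i).2 with ⟨a, b, c, -⟩ | ⟨a, b, c, -⟩ | ⟨a, b, c, -⟩ | ⟨a, b, c, -⟩ <;>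
    rw [b, c]
  · left
    refine ⟨a, ?_, ?_⟩ <;> simp
  · right; left
    refine ⟨a, ?_, ?_⟩ <;> simp
  · right; right; left
    refine ⟨a, ?_, ?_⟩ <;> simp <;> ring
  · right; right; right
    refine ⟨a, ?_, ?_⟩ <;> simp <;> ring

lemma floor_int {a : ℤ} {H : ℕ} {x : ℝ} (h : x = a) : ⌊x * H⌋ = a * H := by
  rw [h]
  have : ((a : ℝ) * H) = ((a * H : ℤ) : ℝ) := by push_cast; ring
  rw [this, Int.floor_intCast]

lemma floor_lo (x : ℝ) : x - 1 < (⌊x⌋ : ℝ) := Int.sub_one_lt_floor x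

lemma floor_hi (x : ℝ) : (⌊x⌋ : ℝ) ≤ x := Int.floor_le x

/-- the floor of the coordinates near a side: margins -/
lemma margin {a M : ℤ} {H : ℕ} {t κ : ℝ} (h1 : κ ≤ t) (h2 : κ ≤ 1 - t) (hκ : 8 * (M : ℝ) + 100 ≤
    3 * κ * (2 * H)) {x : ℝ} (hx : x = a + t) (hκ0 : 0 < κ) :
    a * (2 * H) + 2 * (M + 8) + 6 ≤ 2 * ⌊x * H⌋ ∧ 2 * ⌊x * H⌋ + 2 * (M + 8) + 6 ≤
      a * (2 * H) + 2 * H := by
  have hH0 : (0 : ℝ) ≤ H := Nat.cast_nonneg H
  have f1 := floor_lo (x * H)
  have f2 := floor_hi (x * H)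
  have g1 : κ * H ≤ t * H := mul_le_mul_of_nonneg_right h1 hH0
  have g2 : κ * H ≤ (1 - t) * H := mul_le_mul_of_nonneg_right h2 hH0
  have g3 : 0 ≤ κ * H := mul_nonneg hκ0.le hH0
  constructor
  · have : ((a * (2 * H) + 2 * (M + 8) + 6 : ℤ) : ℝ) ≤ ((2 * ⌊x * H⌋ : ℤ) : ℝ) := by
      push_cast
      rw [hx] at f1 ⊢
      nlinarith
    exact_mod_cast this
  · have : ((2 * ⌊x * H⌋ + 2 * (M + 8) + 6 : ℤ) : ℝ) ≤ ((a * (2 * H) + 2 * H : ℤ) : ℝ) := by
      push_cast
      rw [hx] at f2 ⊢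
      nlinarith
    exact_mod_cast this

/-- **Placement.** -/
theorem plc_of {S : Shape} {H i : ℕ} {t κ R : ℝ} {p : ℤ × ℤ} {M ρ : ℤ} (h1 : κ ≤ t)
    (h2 : κ ≤ 1 - t) (hκ0 : 0 < κ) (hp : ct (2 * H) p = (S.P.side i).1)
    (hx : |(p.1 : ℝ) - (S.P.sidePt ic ic i t).re * (2 * H)| ≤ R)
    (hy : |(p.2 : ℝ) - (S.P.sidePt ic ic i t).im * (2 * H)| ≤ R) (hR : R + 8 ≤ ρ) (h7 : 7 ≤ ρ)
    (hM : ρ ≤ M) (hκ : 8 * (M : ℝ) + 100 ≤ 3 * κ * (2 * H)) :
    Plc (2 * H) (S.P.side i).1 (S.P.side i).2 (vz H (S.P.sidePt ic ic i t)) p (M + 8) ρ := by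
  have hH0 : (0 : ℝ) ≤ H := Nat.cast_nonneg H
  have hκ1 : κ ≤ 1 / 2 := by linarith
  have near : ∀ (q : ℤ) (x : ℝ), |(q : ℝ) - x * (2 * H)| ≤ R → |q - 2 * ⌊x * H⌋| ≤ ρ - 6 := by
    intro q x h
    have f1 := floor_lo (x * H)
    have f2 := floor_hi (x * H)
    rw [abs_le] at h ⊢
    constructor
    · have : ((-(ρ - 6) : ℤ) : ℝ) ≤ ((q - 2 * ⌊x * H⌋ : ℤ) : ℝ) := by
        push_cast
        nlinarith
      exact_mod_cast this
    · have : ((q - 2 * ⌊x * H⌋ : ℤ) : ℝ) ≤ ((ρ - 6 : ℤ) : ℝ) := by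
        push_cast
        nlinarith
      exact_mod_cast this
  refine ⟨hp, ?_, ?_, h7, by omega, ?_, ?_⟩
  · rw [vz_x]; exact near _ _ hx
  · rw [vz_y]; exact near _ _ hy
  · have : ((2 * (M + 8) + 6 : ℤ) : ℝ) ≤ ((2 * H : ℤ) : ℝ) := by
      push_cast
      nlinarith
    exact_mod_cast this
  · rw [vz_x, vz_y]
    rcases sidePt_xy S.P i t with ⟨k, a, b⟩ | ⟨k, a, b⟩ | ⟨k, a, b⟩ | ⟨k, a, b⟩
    · left
      obtain ⟨m1, m2⟩ := margin h1 h2 hκ a hκ0
      refine ⟨k, ?_, m1, m2⟩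
      rw [floor_int b]; ring
    · right; left
      obtain ⟨m1, m2⟩ := margin h1 h2 hκ b hκ0
      refine ⟨k, ?_, m1, m2⟩
      rw [floor_int (a := (S.P.side i).1.1 + 1) (by rw [a]; push_cast; ring)]; ring
    · right; right; left
      obtain ⟨m1, m2⟩ := margin (t := 1 - t) h2 (by linarith) hκ (a := (S.P.side i).1.1)
        (x := (S.P.sidePt ic ic i t).re) (by rw [a]; ring) hκ0
      refine ⟨k, ?_, m1, m2⟩
      rw [floor_int (a := (S.P.side i).1.2 + 1) (by rw [b]; push_cast; ring)]; ring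
    · right; right; right
      obtain ⟨m1, m2⟩ := margin (t := 1 - t) h2 (by linarith) hκ (a := (S.P.side i).1.2)
        (x := (S.P.sidePt ic ic i t).im) (by rw [b]; ring) hκ0
      refine ⟨k, ?_, m1, m2⟩
      rw [floor_int (a := (S.P.side i).1.1) a]; ring

/-! ### Plates -/

open Classical in
lemma mem_chG {Q : Finset Cell} {c : Cell} (h : c ∈ chG Q) : c ∈ Q ∧ (c.1, c.2 - 1) ∈ Q := by
  unfold chG at h
  rw [mem_filter] at h
  exact ⟨h.1, h.2.1⟩

/-- no plate in the middle of a cell -/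
lemma pl_none {Q : Finset Cell} {b : ℤ} {N M' : ℕ} {f c : Cell} (hN : 0 < N) (hM' : 0 < M')
    (hc : ct ((N * M' : ℕ) : ℤ) f = c)
    (hA : (c.1, c.2 - 1) ∈ Q → ((N * M' : ℕ) : ℤ) * c.2 + N * (b - c.1) ≤ f.2)
    (hB : (c.1, c.2 + 1) ∈ Q → f.2 < ((N * M' : ℕ) : ℤ) * (c.2 + 1) - N * (b - c.1)) :
    plV (chG Q) b N M' f = none := by
  have hM0 : 0 < N * M' := Nat.mul_pos hN hM'
  have hM : (0 : ℤ) < ((N * M' : ℕ) : ℤ) := by exact_mod_cast hM0
  have hM1 : (0 : ℤ) < (M' : ℤ) := by exact_mod_cast hM'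
  have hN1 : (0 : ℤ) < (N : ℤ) := by exact_mod_cast hN
  obtain ⟨⟨c1, c2⟩, c3, c4⟩ := (ct_eq hM).1 hc
  have hf1 : f.1 / ((N * M' : ℕ) : ℤ) = c.1 := congrArg Prod.fst hc
  have hK : N * c.1 ≤ f.1 / (M' : ℤ) := by
    rw [Int.le_ediv_iff_mul_le hM1]
    push_cast at c1
    nlinarith
  unfold plV
  simp only
  rw [if_neg]
  rintro ⟨h1, h2, h3⟩
  set M : ℤ := ((N * M' : ℕ) : ℤ) with hMdef
  set Y : ℤ := (f.2 + M / 2) / M with hY
  have hY1 : M * Y ≤ f.2 + M / 2 := Int.mul_ediv_self_le hM.ne'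
  have hY2 : f.2 + M / 2 < M * Y + M := by
    have := Int.lt_mul_ediv_self_add (x := f.2 + M / 2) hM
    exact this
  have hM2 : 0 ≤ M / 2 ∧ 2 * (M / 2) ≤ M := by omega
  have hYc : Y = c.2 ∨ Y = c.2 + 1 := by
    have a1 : c.2 - 1 < Y := by
      by_contra hcon
      have : Y ≤ c.2 - 1 := by omega
      nlinarith
    have a2 : Y < c.2 + 2 := by
      by_contra hcon
      have : c.2 + 2 ≤ Y := by omega
      nlinarith
    omega
  rw [hf1] at h1
  obtain ⟨g1, g2⟩ := mem_chG h1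
  simp only at g2
  rcases hYc with hYc | hYc
  · rw [hYc] at g2 h3
    have := hA g2
    nlinarith
  · rw [hYc] at g1 h2
    have := hB g1
    nlinarith

/-- **Natural coins near a point of a side.** -/
theorem nat_of {S : Shape} {h i N M' : ℕ} {b : ℤ} {t κ : ℝ} {M : ℤ} (h1 : κ ≤ t)
    (h2 : κ ≤ 1 - t) (hκ0 : 0 < κ) (hN : 0 < N) (hM' : 0 < M') (hh : 0 < h)
    (hκ : 8 * (M : ℝ) + 100 ≤ 3 * κ * (2 * ((N * M' * h : ℕ) : ℝ)))
    (hb : ((b - (S.P.side i).1.1 : ℤ) : ℝ) ≤ κ / 4 * M') :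
    Nat' (2 * ((N * M' * h : ℕ) : ℤ)) (S.P.side i).1 (bk (2 * (h : ℤ)) (plV (chG S.P.Q) b N M'))
      (vz (N * M' * h) (S.P.sidePt ic ic i t)) (M + 8) := by
  have key : ∀ e ∈ BR (vz (N * M' * h) (S.P.sidePt ic ic i t)) (M + 8),
      ct (2 * ((N * M' * h : ℕ) : ℤ)) (tt e) = (S.P.side i).1 →
      bk (2 * (h : ℤ)) (plV (chG S.P.Q) b N M') e = Sum.inl e := by
    intro e he hce
    apply bk_none
    have hbx := tt_box he
    rw [vz_x, vz_y] at hbx
    obtain ⟨-, -, -, -, y1, y2⟩ := hbx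
    have hs := isSide_side' S.P i
    have hh2 : (0 : ℤ) < 2 * h := by omega
    have hNr : (0 : ℝ) < N := by exact_mod_cast hN
    have hMr : (0 : ℝ) < M' := by exact_mod_cast hM'
    have hhr : (0 : ℝ) < h := by exact_mod_cast hh
    set n : ℝ := 2 * ((N * M' * h : ℕ) : ℝ) with hn
    have hn' : n = 2 * (N * M' * h) := by rw [hn]; push_cast; ring
    have hn0 : 0 < n := by rw [hn']; positivity
    have hκ1 : κ ≤ 1 / 2 := by linarith
    have hκn : κ * n ≤ 1 / 2 * n := mul_le_mul_of_nonneg_right hκ1 hn0.le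
    have hκn0 : 0 < κ * n := by positivity
    have hbn : (N : ℝ) * ((b - (S.P.side i).1.1 : ℤ) : ℝ) * (2 * h) ≤ κ / 4 * n := by
      rw [hn']
      have : (N : ℝ) * ((b - (S.P.side i).1.1 : ℤ) : ℝ) * (2 * h) ≤ N * (κ / 4 * M') * (2 * h) := by
        apply mul_le_mul_of_nonneg_right _ (by positivity)
        exact mul_le_mul_of_nonneg_left hb hNr.le
      linarith
    -- the vertical position of the box
    have Y1 : 2 * (⌊(S.P.sidePt ic ic i t).im * ((N * M' * h : ℕ) : ℝ)⌋ : ℝ) - 2 * (M + 8) - 1 ≤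
        ((tt e).2 : ℝ) := by exact_mod_cast y1
    have Y2 : ((tt e).2 : ℝ) ≤ 2 * (⌊(S.P.sidePt ic ic i t).im * ((N * M' * h : ℕ) : ℝ)⌋ : ℝ) +
        2 * (M + 8) := by exact_mod_cast y2
    have f1 := floor_lo ((S.P.sidePt ic ic i t).im * ((N * M' * h : ℕ) : ℝ))
    have f2 := floor_hi ((S.P.sidePt ic ic i t).im * ((N * M' * h : ℕ) : ℝ))
    have e1 : 2 * ((S.P.sidePt ic ic i t).im * ((N * M' * h : ℕ) : ℝ)) =
        (S.P.sidePt ic ic i t).im * n := by rw [hn]; ring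
    have Y1' : (S.P.sidePt ic ic i t).im * n - 2 * M - 19 ≤ ((tt e).2 : ℝ) := by linarith
    have Y2' : ((tt e).2 : ℝ) ≤ (S.P.sidePt ic ic i t).im * n + 2 * M + 16 := by linarith
    have fA : ((S.P.side i).1.2 : ℝ) * n + κ / 4 * n ≤ ((tt e).2 : ℝ) →
        ((N * M' : ℕ) : ℤ) * (S.P.side i).1.2 + N * (b - (S.P.side i).1.1) ≤
          (ct (2 * (h : ℤ)) (tt e)).2 := by
      intro hA
      unfold ct
      simp only
      rw [Int.le_ediv_iff_mul_le hh2]
      have : (((((N * M' : ℕ) : ℤ) * (S.P.side i).1.2 + N * (b - (S.P.side i).1.1)) * (2 * h) : ℤ) :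
          ℝ) ≤ (((tt e).2 : ℤ) : ℝ) := by
        refine le_trans ?_ hA
        have : (((((N * M' : ℕ) : ℤ) * (S.P.side i).1.2 + N * (b - (S.P.side i).1.1)) * (2 * h) : ℤ) :
          ℝ) = ((S.P.side i).1.2 : ℝ) * n + (N : ℝ) * ((b - (S.P.side i).1.1 : ℤ) : ℝ) * (2 * h) := by
          rw [hn']; push_cast; ring
        rw [this]
        linarith
      exact_mod_cast this
    have fB : ((tt e).2 : ℝ) < ((S.P.side i).1.2 + 1 : ℝ) * n - κ / 4 * n →
        (ct (2 * (h : ℤ)) (tt e)).2 < ((N * M' : ℕ) : ℤ) * ((S.P.side i).1.2 + 1) -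
          N * (b - (S.P.side i).1.1) := by
      intro hB
      unfold ct
      simp only
      apply Int.ediv_lt_of_lt_mul hh2
      have : (((tt e).2 : ℤ) : ℝ) < (((((N * M' : ℕ) : ℤ) * ((S.P.side i).1.2 + 1) -
          N * (b - (S.P.side i).1.1)) * (2 * h) : ℤ) : ℝ) := by
        refine lt_of_lt_of_le hB ?_
        have : (((((N * M' : ℕ) : ℤ) * ((S.P.side i).1.2 + 1) -
          N * (b - (S.P.side i).1.1)) * (2 * h) : ℤ) : ℝ) =
          ((S.P.side i).1.2 + 1 : ℝ) * n - (N : ℝ) * ((b - (S.P.side i).1.1 : ℤ) : ℝ) * (2 * h) := by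
          rw [hn']; push_cast; ring
        rw [this]
        linarith
      exact_mod_cast this
    have hct : ct ((N * M' : ℕ) : ℤ) (ct (2 * (h : ℤ)) (tt e)) = (S.P.side i).1 := by
      rw [ct_ct]; exact hce
    rcases sidePt_xy S.P i t with ⟨k, a, b'⟩ | ⟨k, a, b'⟩ | ⟨k, a, b'⟩ | ⟨k, a, b'⟩
    · have hd := (dirs (k := (S.P.side i).2)).1 k
      refine pl_none hN hM' hct (fun hq => ?_) (fun _ => fB ?_)
      · have := hs.2
        rw [hd] at this
        exact absurd hq (by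
          have e2 : ((S.P.side i).1.1, (S.P.side i).1.2 - 1) = (S.P.side i).1 + (0, -1) := by
            refine Prod.ext ?_ ?_ <;> simp [sub_eq_add_neg]
          rw [e2]; exact this)
      · rw [b'] at Y2'
        nlinarith
    · refine pl_none hN hM' hct (fun _ => fA ?_) (fun _ => fB ?_)
      · rw [b'] at Y1'
        have : κ * n ≤ t * n := mul_le_mul_of_nonneg_right h1 hn0.le
        nlinarith
      · rw [b'] at Y2'
        have : κ * n ≤ (1 - t) * n := mul_le_mul_of_nonneg_right h2 hn0.le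
        nlinarith
    · have hd := (dirs (k := (S.P.side i).2)).2.2.1 k
      refine pl_none hN hM' hct (fun _ => fA ?_) (fun hq => ?_)
      · rw [b'] at Y1'
        nlinarith
      · have := hs.2
        rw [hd] at this
        exact absurd hq (by
          have e2 : ((S.P.side i).1.1, (S.P.side i).1.2 + 1) = (S.P.side i).1 + (0, 1) := by
            refine Prod.ext ?_ ?_ <;> simp
          rw [e2]; exact this)
    · refine pl_none hN hM' hct (fun _ => fA ?_) (fun _ => fB ?_)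
      · rw [b'] at Y1'
        have : κ * n ≤ (1 - t) * n := mul_le_mul_of_nonneg_right h2 hn0.le
        nlinarith
      · rw [b'] at Y2'
        have : κ * n ≤ t * n := mul_le_mul_of_nonneg_right h1 hn0.le
        nlinarith
  intro e he hce e' he' hce' hbb
  rw [key e he hce, key e' he' hce'] at hbb
  exact Sum.inl.inj hbb

/-! ### The open domain -/

/-- a cell which contains a point of the open domain belongs to the polygon -/
lemma om_rect {Q : Finset Cell} {z : ℂ} (hz : z ∈ Om Q ic ic) {d : Cell} (hd : z ∈ rect ic ic d) :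
    d ∈ Q := by
  have hic : StrictMono ic := fun a b h => by simpa [ic_eq] using h
  obtain ⟨r, hr, hb⟩ := Metric.isOpen_iff.1 (isOpen_Om Q ic ic) z hz
  rw [mem_rect] at hd
  obtain ⟨x, x1, x2, x3⟩ := line_inner hic hd.1.1 hd.1.2 (half_pos hr)
  obtain ⟨y, y1, y2, y3⟩ := line_inner hic hd.2.1 hd.2.2 (half_pos hr)
  have hm : (⟨x, y⟩ : ℂ) ∈ Metric.ball z r := by
    rw [Metric.mem_ball, Complex.dist_eq]
    refine lt_of_le_of_lt (Complex.norm_le_abs_re_add_abs_im _) ?_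
    simp only [Complex.sub_re, Complex.sub_im]
    linarith
  have hreg := Pool.Agent.Q1.M4.Om_subset Q ic ic (hb hm)
  obtain ⟨c, hc, hcz⟩ := hreg
  rw [mem_rect] at hcz
  simp only at hcz
  have e1 := line_uniq hic x2 x3 hcz.1.1 hcz.1.2
  have e2 := line_uniq hic y2 y3 hcz.2.1 hcz.2.2
  have : c = d := Prod.ext e1 e2
  rw [← this]
  exact hc

/-- **Near a point of a side the open domain is the open cell of the side.** -/
theorem om_cell {S : Shape} {i : ℕ} {t κ : ℝ} {z : ℂ} (h1 : κ ≤ t) (h2 : κ ≤ 1 - t)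
    (hz : z ∈ Om S.P.Q ic ic) (hd : dist z (S.P.sidePt ic ic i t) < κ) :
    ((S.P.side i).1.1 < z.re ∧ z.re < (S.P.side i).1.1 + 1) ∧
    ((S.P.side i).1.2 < z.im ∧ z.im < (S.P.side i).1.2 + 1) := by
  have hκ0 : 0 < κ := lt_of_le_of_lt dist_nonneg hd
  rw [Complex.dist_eq] at hd
  have hre := lt_of_le_of_lt (Complex.abs_re_le_norm _) hd
  have him := lt_of_le_of_lt (Complex.abs_im_le_norm _) hd
  rw [Complex.sub_re, abs_lt] at hre
  rw [Complex.sub_im, abs_lt] at him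
  have hs := isSide_side' S.P i
  rcases sidePt_xy S.P i t with ⟨k, a, b⟩ | ⟨k, a, b⟩ | ⟨k, a, b⟩ | ⟨k, a, b⟩ <;> rw [a] at hre <;>
    rw [b] at him
  · refine ⟨⟨by linarith, by linarith⟩, ?_, by linarith⟩
    by_contra hc
    push Not at hc
    have hQ := om_rect hz (d := (S.P.side i).1 + (0, -1)) (by
      rw [mem_rect]
      simp only [ic_eq, Prod.fst_add, Prod.snd_add]
      push_cast
      refine ⟨⟨by linarith, by linarith⟩, by linarith, by linarith⟩)
    rw [← (dirs (k := (S.P.side i).2)).1 k] at hQ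
    exact hs.2 hQ
  · refine ⟨⟨by linarith, ?_⟩, by linarith, by linarith⟩
    by_contra hc
    push Not at hc
    have hQ := om_rect hz (d := (S.P.side i).1 + (1, 0)) (by
      rw [mem_rect]
      simp only [ic_eq, Prod.fst_add, Prod.snd_add]
      push_cast
      refine ⟨⟨by linarith, by linarith⟩, by linarith, by linarith⟩)
    rw [← (dirs (k := (S.P.side i).2)).2.1 k] at hQ
    exact hs.2 hQ
  · refine ⟨⟨by linarith, by linarith⟩, by linarith, ?_⟩
    by_contra hc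
    push Not at hc
    have hQ := om_rect hz (d := (S.P.side i).1 + (0, 1)) (by
      rw [mem_rect]
      simp only [ic_eq, Prod.fst_add, Prod.snd_add]
      push_cast
      refine ⟨⟨by linarith, by linarith⟩, by linarith, by linarith⟩)
    rw [← (dirs (k := (S.P.side i).2)).2.2.1 k] at hQ
    exact hs.2 hQ
  · refine ⟨⟨?_, by linarith⟩, by linarith, by linarith⟩
    by_contra hc
    push Not at hc
    have hQ := om_rect hz (d := (S.P.side i).1 + (-1, 0)) (by
      rw [mem_rect]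
      simp only [ic_eq, Prod.fst_add, Prod.snd_add]
      push_cast
      refine ⟨⟨by linarith, by linarith⟩, by linarith, by linarith⟩)
    rw [← (dirs (k := (S.P.side i).2)).2.2.2 k] at hQ
    exact hs.2 hQ

end Pool.Agent.H97.W
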