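import Mathlib
import Pool.Agent.H97.W.SideA

set_option autoImplicit false
open Finset

/-! # The side condition of the glued world

`EndsH` : what is used about the far ends (72's `EndsV.lean`). `stSide_of` : `EndsH → StSide`. -/

namespace Pool.Agent.H97.W

open Pool.Agent.H75.Perc hiding WL CT hh PB EE tau
open Pool.Agent.H75.TwoArm Pool.Agent.H99.W Pool.Agent.H13.W
open Pool.Agent.H33.Q1 hiding Arc
open Pool.Agent.H21.FM
open Pool.Agent.Q1.M4 (Cell Good IsSide nextSide tail head PType Om Reg pt rect lat)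
open Pool.Agent.H14.FM (ic)
open Pool.Agent.H5.C3 (Gen)
open Pool.Agent.H58.W (plV PB PB_mono PB_congr PB_not PB_and_add PB_nonneg)
open Pool.Agent.H50.W (bk rf)
open Pool.Agent.H35.W (arcs)
open Pool.Agent.H47.W (Arc)
open Pool.Agent.H74.W
open Filter Metric

/-- **The far ends**: the far end `j` is joined to another end; the interior end is joined to exactly one
far end. -/
def EndsH : Prop := ∀ (S : Shape) (H : ℕ) (p : ℤ × ℤ), 2 ≤ H → ct (2 * (H : ℤ)) p ∈ S.P.Q →
  p.2 % (2 * (H : ℤ)) ≠ 0 → (p.2 + 1) % (2 * (H : ℤ)) ≠ 0 → ∀ ω ⊆ EE S H,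
    (∀ j : Fin 3, ∃ c, (c = eW (lt p) ∨ c = yy S H p (j + 1) ∨ c = yy S H p (j + 2)) ∧
      c ≠ yy S H p j ∧ (GW S H p ω).Reachable (yy S H p j) c) ∧
    ∃! j : Fin 3, (GW S H p ω).Reachable (eW (lt p)) (yy S H p j)

section prob

variable {α β : Type*} [DecidableEq α] [DecidableEq β]

lemma PB_sum3 (E : Finset α) (b : α → β) (A : Fin 3 → Finset α → Prop)
    (h : ∀ ω ⊆ E, ∃! j, A j ω) : PB E b (A 0) + PB E b (A 1) + PB E b (A 2) = 1 := by
  have h0 := PB_not E b (A 0)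
  have h1 := PB_and_add E b (fun ω => ¬ A 0 ω) (A 1)
  have e1 : PB E b (fun ω => ¬ A 0 ω ∧ A 1 ω) = PB E b (A 1) := by
    apply PB_congr
    intro ω hω
    obtain ⟨j, hj, hu⟩ := h ω hω
    constructor
    · exact fun k => k.2
    · intro k
      refine ⟨fun k0 => ?_, k⟩
      have := (hu 0 k0).trans (hu 1 k).symm
      exact absurd this (by decide)
  have e2 : PB E b (fun ω => ¬ A 0 ω ∧ ¬ A 1 ω) = PB E b (A 2) := by
    apply PB_congr
    intro ω hω
    obtain ⟨j, hj, hu⟩ := h ω hω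
    constructor
    · rintro ⟨k0, k1⟩
      have : j = 0 ∨ j = 1 ∨ j = 2 := by omega
      rcases this with rfl | rfl | rfl
      · exact absurd hj k0
      · exact absurd hj k1
      · exact hj
    · intro k
      refine ⟨fun k0 => ?_, fun k1 => ?_⟩
      · exact absurd ((hu 0 k0).trans (hu 2 k).symm) (by decide)
      · exact absurd ((hu 1 k1).trans (hu 2 k).symm) (by decide)
  rw [e1, e2] at h1
  linarith

end prob

lemma norm_tau : ‖tau‖ = 1 := by
  unfold tau
  have : (2 * (Real.pi : ℂ) / 3 * Complex.I) = ((2 * Real.pi / 3 : ℝ) : ℂ) * Complex.I := by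
    push_cast; ring
  rw [this]
  exact Complex.norm_exp_ofReal_mul_I _

/-- a convex combination with small third weight is near the line -/
lemma near_line (P : Fin 3 → ℝ) (h0 : ∀ j, 0 ≤ P j) (hs : P 0 + P 1 + P 2 = 1) (j : Fin 3)
    {ε : ℝ} (hj : P (j + 2) ≤ ε / 2) : ∃ s : ℝ,
    ‖(∑ m : Fin 3, tau ^ (m : ℕ) * (P m : ℂ)) -
      (tau ^ (j : ℕ) + s * (tau ^ ((j : ℕ) + 1) - tau ^ (j : ℕ)))‖ ≤ ε := by
  have hsc : (P 0 : ℂ) + P 1 + P 2 = 1 := by exact_mod_cast hs
  have key : ∀ (m : Fin 3) (u v : ℂ), ‖u‖ = 1 → ‖v‖ = 1 → P m ≤ ε / 2 →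
      ‖(P m : ℂ) * (u - v)‖ ≤ ε := by
    intro m u v hu hv hm
    rw [norm_mul, Complex.norm_real, Real.norm_eq_abs, abs_of_nonneg (h0 m)]
    have h2 : ‖u - v‖ ≤ 2 := by
      refine (norm_sub_le _ _).trans ?_
      rw [hu, hv]; norm_num
    calc P m * ‖u - v‖ ≤ ε / 2 * 2 := mul_le_mul hm h2 (norm_nonneg _) ((h0 m).trans hm)
      _ = ε := by ring
  have ht := norm_tau
  have ht2 : ‖tau ^ 2‖ = 1 := by rw [norm_pow, ht, one_pow]
  have h3 := tau_cube
  rw [Fin.sum_univ_three]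
  have hj3 : j = 0 ∨ j = 1 ∨ j = 2 := by omega
  rcases hj3 with rfl | rfl | rfl
  · refine ⟨P 1, ?_⟩
    refine le_trans (le_of_eq ?_) (key 2 (tau ^ 2) 1 ht2 (by simp) hj)
    congr 1
    simp only [Fin.val_zero, Fin.val_one, Fin.val_two, pow_zero, pow_one, zero_add]
    linear_combination hsc
  · refine ⟨P 2, ?_⟩
    refine le_trans (le_of_eq ?_) (key 0 1 tau (by simp) ht hj)
    congr 1
    simp only [Fin.val_zero, Fin.val_one, Fin.val_two, pow_zero, pow_one, Nat.reduceAdd]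
    linear_combination tau * hsc
  · refine ⟨P 0, ?_⟩
    refine le_trans (le_of_eq ?_) (key 1 tau (tau ^ 2) ht ht2 hj)
    congr 1
    simp only [Fin.val_zero, Fin.val_one, Fin.val_two, pow_zero, pow_one, Nat.reduceAdd]
    linear_combination tau ^ 2 * hsc - (P 0 : ℂ) * h3

/-- a point of an arc without the vertices -/
lemma arc_pt {S : Shape} {j : Fin 3} {z0 : ℂ}
    (h : z0 ∈ arcs S.P ic ic ((range S.N).image fun n => pt ic ic (S.P.vert n)) S.m2 S.m3 j) :
    ∃ i t, i < S.N ∧ Arc S j i ∧ 0 < t ∧ t < 1 ∧ z0 = S.P.sidePt ic ic i t := by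
  obtain ⟨hF, i, hi, t, ht, rfl⟩ := h
  obtain ⟨a1, a2, a3⟩ := Pool.Agent.H47.W.posN (S := S)
  have hiN : i < S.N ∧ Arc S j i := by
    have hj3 : j = 0 ∨ j = 1 ∨ j = 2 := by omega
    unfold Arc
    rcases hj3 with rfl | rfl | rfl
    · rw [if_pos rfl] at hi
      refine ⟨by omega, fun _ => hi, fun h => absurd h (by decide), fun h => absurd h (by decide)⟩
    · rw [if_neg (by decide), if_pos rfl] at hi
      refine ⟨by omega, fun h => absurd h (by decide), fun _ => hi, fun h => absurd h (by decide)⟩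
    · rw [if_neg (by decide), if_neg (by decide)] at hi
      refine ⟨hi.2, fun h => absurd h (by decide), fun h => absurd h (by decide), fun _ => hi⟩
  have hv : ∀ n, n ≤ S.N → pt ic ic (S.P.vert n) ∈ (range S.N).image fun n =>
      pt ic ic (S.P.vert n) := by
    intro n hn
    rw [mem_image]
    rcases Nat.lt_or_ge n S.N with h | h
    · exact ⟨n, mem_range.2 h, rfl⟩
    · refine ⟨0, mem_range.2 (by omega), ?_⟩
      have : n = S.P.N := le_antisymm hn h
      rw [this, PType.vert_N]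
  refine ⟨i, t, hiN.1, hiN.2, ?_, ?_, rfl⟩
  · refine lt_of_le_of_ne ht.1 fun h0 => hF ?_
    rw [← h0, PType.sidePt_zero]
    exact hv i hiN.1.le
  · refine lt_of_le_of_ne ht.2 fun h0 => hF ?_
    rw [h0, PType.sidePt_one]
    exact hv (i + 1) hiN.1

/-- the choice of the small radius -/
lemma exists_del {C α κ ε : ℝ} (hC : 0 < C) (hα : 0 < α) (hκ : 0 < κ) (hε : 0 < ε) :
    ∃ δ > 0, δ ≤ κ / 48 ∧ C * (24 * δ / κ) ^ α ≤ ε / 2 := by
  have hq : 0 < (ε / (2 * C)) ^ (1 / α) := Real.rpow_pos_of_pos (by positivity) _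
  refine ⟨min (κ / 48) (κ / 24 * (ε / (2 * C)) ^ (1 / α)), lt_min (by positivity) (by positivity),
    min_le_left _ _, ?_⟩
  have h1 : 24 * min (κ / 48) (κ / 24 * (ε / (2 * C)) ^ (1 / α)) / κ ≤ (ε / (2 * C)) ^ (1 / α) := by
    rw [div_le_iff₀ hκ]
    have := min_le_right (κ / 48) (κ / 24 * (ε / (2 * C)) ^ (1 / α))
    linarith
  have h0 : 0 ≤ 24 * min (κ / 48) (κ / 24 * (ε / (2 * C)) ^ (1 / α)) / κ := by
    have : 0 < min (κ / 48) (κ / 24 * (ε / (2 * C)) ^ (1 / α)) :=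
      lt_min (by positivity) (by positivity)
    positivity
  have h2 := Real.rpow_le_rpow h0 h1 hα.le
  rw [← Real.rpow_mul (by positivity), one_div_mul_cancel hα.ne', Real.rpow_one] at h2
  calc C * (24 * min (κ / 48) (κ / 24 * (ε / (2 * C)) ^ (1 / α)) / κ) ^ α
      ≤ C * (ε / (2 * C)) := mul_le_mul_of_nonneg_left h2 hC.le
    _ = ε / 2 := by field_simp

/-- **The side condition.** -/
theorem stSide_of (hE : EndsH) : StSide := by
  obtain ⟨C, α, hC, hα, hT⟩ := third_prob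
  intro S _ b _
  refine ⟨(range S.N).image fun n => pt ic ic (S.P.vert n), ?_⟩
  intro j z0 hz0 ε hε
  obtain ⟨i, t, hi, hA, ht0, ht1, rfl⟩ := arc_pt hz0
  set κ : ℝ := min t (1 - t) with hκdef
  have hκ0 : 0 < κ := lt_min ht0 (by linarith)
  have hκ1 : κ ≤ t := min_le_left _ _
  have hκ2 : κ ≤ 1 - t := min_le_right _ _
  obtain ⟨δ, hδ, hδκ, hδε⟩ := exists_del hC hα hκ0 hε
  refine ⟨δ, hδ, ?_⟩
  intro z hz hzO _
  rw [mem_ball] at hz
  obtain ⟨⟨g1, g2⟩, g3, g4⟩ := om_cell hκ1 hκ2 hzO (lt_of_lt_of_le hz (by linarith))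
  set c := (S.P.side i).1 with hc
  set m : ℝ := min (min (z.re - c.1) (c.1 + 1 - z.re)) (min (z.im - c.2) (c.2 + 1 - z.im)) with hm
  have hm0 : 0 < m := lt_min (lt_min (by linarith) (by linarith)) (lt_min (by linarith)
    (by linarith))
  have m1 : m ≤ z.re - c.1 := (min_le_left _ _).trans (min_le_left _ _)
  have m2 : m ≤ c.1 + 1 - z.re := (min_le_left _ _).trans (min_le_right _ _)
  have m3 : m ≤ z.im - c.2 := (min_le_right _ _).trans (min_le_left _ _)
  have m4 : m ≤ c.2 + 1 - z.im := (min_le_right _ _).trans (min_le_right _ _)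
  refine ⟨min δ (m / 2), lt_min hδ (by linarith), ?_⟩
  -- a large scale
  obtain ⟨n0, hn0⟩ := exists_nat_gt (max (max (9 / δ) (100 / κ)) (2 / m))
  obtain ⟨M0, hM0⟩ := exists_nat_gt (4 * ((b - c.1 : ℤ) : ℝ) / κ)
  unfold lK
  rw [eventually_curry_iff]
  filter_upwards [eventually_gt_atTop 0] with N hN
  filter_upwards [eventually_gt_atTop 0, eventually_ge_atTop M0] with M' hM' hM1
  filter_upwards [eventually_ge_atTop (max n0 2)] with h hh p hp
  have hh1 : n0 ≤ h := (le_max_left _ _).trans hh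
  have hh2 : 2 ≤ h := (le_max_right _ _).trans hh
  have hNM : 0 < N * M' := Nat.mul_pos hN hM'
  have hH2 : 2 ≤ N * M' * h := by nlinarith
  set H := N * M' * h with hH
  set n : ℝ := 2 * (H : ℝ) with hn
  have hnh : (h : ℝ) ≤ n := by
    have : h ≤ H := by rw [hH]; exact Nat.le_mul_of_pos_left h hNM
    have : (h : ℝ) ≤ (H : ℝ) := by exact_mod_cast this
    have h0 : (0 : ℝ) ≤ (H : ℝ) := Nat.cast_nonneg H
    rw [hn]; linarith
  have hn1 : max (max (9 / δ) (100 / κ)) (2 / m) < n := by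
    have : (n0 : ℝ) ≤ h := by exact_mod_cast hh1
    linarith
  have hnδ : 9 < δ * n := by
    have := lt_of_le_of_lt ((le_max_left _ _).trans (le_max_left _ _)) hn1
    rw [div_lt_iff₀ hδ] at this
    linarith
  have hnκ : 100 < κ * n := by
    have := lt_of_le_of_lt ((le_max_right _ _).trans (le_max_left _ _)) hn1
    rw [div_lt_iff₀ hκ0] at this
    linarith
  have hnm : 2 < m * n := by
    have := lt_of_le_of_lt (le_max_right _ _) hn1
    rw [div_lt_iff₀ hm0] at this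
    linarith
  have hnpos : 0 < n := by
    by_contra hcon
    push Not at hcon
    nlinarith
  -- the position of `p`
  have e1 : (RR (N, M') h : ℝ) = n := by
    unfold RR
    rw [hn, hH]; push_cast; ring
  have pre : (ps (N, M') h p).re = p.1 / n := by
    unfold ps lat
    rw [e1]
    exact Complex.div_ofReal_re _ _
  have pim : (ps (N, M') h p).im = p.2 / n := by
    unfold ps lat
    rw [e1]
    exact Complex.div_ofReal_im _ _
  rw [Complex.dist_eq] at hp
  have hre := lt_of_le_of_lt (Complex.abs_re_le_norm _) hp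
  have him := lt_of_le_of_lt (Complex.abs_im_le_norm _) hp
  rw [Complex.sub_re, pre, lt_min_iff, abs_lt, abs_lt] at hre
  rw [Complex.sub_im, pim, lt_min_iff, abs_lt, abs_lt] at him
  have hz0 := hz
  rw [Complex.dist_eq] at hz0
  have zre := lt_of_le_of_lt (Complex.abs_re_le_norm _) hz0
  have zim := lt_of_le_of_lt (Complex.abs_im_le_norm _) hz0
  rw [Complex.sub_re, abs_lt] at zre
  rw [Complex.sub_im, abs_lt] at zim
  set z0 := S.P.sidePt ic ic i t with hz0def
  have q1 : (p.1 : ℝ) = p.1 / n * n := by field_simp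
  have q2 : (p.2 : ℝ) = p.2 / n * n := by field_simp
  have mul_lt : ∀ {a b : ℝ}, a < b → a * n < b * n := fun hab => mul_lt_mul_of_pos_right hab hnpos
  have a1 : (c.1 : ℝ) * n < p.1 := by
    rw [q1]; exact mul_lt (by linarith [hre.2.1])
  have a2 : (p.1 : ℝ) < (c.1 + 1) * n := by
    rw [q1]; exact mul_lt (by linarith [hre.2.2])
  have a3 : (c.2 : ℝ) * n < p.2 := by
    rw [q2]; exact mul_lt (by linarith [him.2.1])
  have a4 : (p.2 : ℝ) + 1 < (c.2 + 1) * n := by
    have : (p.2 : ℝ) < (c.2 + 1 - m / 2) * n := by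
      rw [q2]; exact mul_lt (by linarith [him.2.2])
    nlinarith
  have nc : n = ((2 * (H : ℤ) : ℤ) : ℝ) := by rw [hn]; push_cast; ring
  have b1 : c.1 * (2 * (H : ℤ)) < p.1 := by
    rw [nc] at a1; exact_mod_cast a1
  have b2 : p.1 < c.1 * (2 * (H : ℤ)) + 2 * (H : ℤ) := by
    have : (p.1 : ℝ) < ((c.1 * (2 * (H : ℤ)) + 2 * (H : ℤ) : ℤ) : ℝ) := by
      rw [nc] at a2
      push_cast at a2 ⊢
      linarith
    exact_mod_cast this
  have b3 : c.2 * (2 * (H : ℤ)) < p.2 := by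
    rw [nc] at a3; exact_mod_cast a3
  have b4 : p.2 + 1 < c.2 * (2 * (H : ℤ)) + 2 * (H : ℤ) := by
    have : (p.2 : ℝ) + 1 < ((c.2 * (2 * (H : ℤ)) + 2 * (H : ℤ) : ℤ) : ℝ) := by
      rw [nc] at a4
      push_cast at a4 ⊢
      linarith
    exact_mod_cast this
  have hH0 : (0 : ℤ) < 2 * (H : ℤ) := by omega
  have hct : ct (2 * (H : ℤ)) p = c := ct_of hH0 b1.le b2 b3.le (by omega)
  have hQ : ct (2 * (H : ℤ)) p ∈ S.P.Q := by
    rw [hct]; exact (isSide_side' S.P i).1
  have hd1 : p.2 % (2 * (H : ℤ)) ≠ 0 := by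
    intro h0
    have h1 := Int.emod_add_mul_ediv p.2 (2 * (H : ℤ))
    rw [h0, zero_add] at h1
    exact no_mul b3 (by omega) (X := p.2 / (2 * (H : ℤ))) (by rw [mul_comm]; exact h1.symm)
  have hd2 : (p.2 + 1) % (2 * (H : ℤ)) ≠ 0 := by
    intro h0
    have h1 := Int.emod_add_mul_ediv (p.2 + 1) (2 * (H : ℤ))
    rw [h0, zero_add] at h1
    exact no_mul (m := p.2 + 1) (a := c.2) (by omega) b4 (X := (p.2 + 1) / (2 * (H : ℤ)))
      (by rw [mul_comm]; exact h1.symm)
  have hends := hE S H p hH2 hQ hd1 hd2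
  -- the observable
  set P : Fin 3 → ℝ := fun j => PB (EE S H) (bk (2 * (h : ℤ)) (plV (chG S.P.Q) b N M')) fun ω =>
    (GW S H p ω).Reachable (eW (lt p)) (yy S H p j) with hP
  have hHF : HF S b (N, M') h p = ∑ m : Fin 3, tau ^ (m : ℕ) * (P m : ℂ) := by
    unfold HF
    rw [dif_pos (show 0 < (N, M').1 * (N, M').2 from hNM), hf_rf S hNM (by omega)]
  have hsum : P 0 + P 1 + P 2 = 1 := PB_sum3 _ _
    (fun j ω => (GW S H p ω).Reachable (eW (lt p)) (yy S H p j)) fun ω hω => (hends ω hω).2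
  rw [hHF]
  refine near_line P (fun j => PB_nonneg _ _ _) hsum j ?_
  -- the third end
  set ρ : ℤ := ⌈2 * δ * n⌉ + 8 with hρ
  set M : ℤ := ⌊κ * n / 4⌋ with hM
  have r1 : 2 * δ * n + 8 ≤ ρ := by
    rw [hρ]; push_cast; linarith [Int.le_ceil (2 * δ * n)]
  have r2 : (ρ : ℝ) < 2 * δ * n + 9 := by
    rw [hρ]; push_cast; linarith [Int.ceil_lt_add_one (2 * δ * n)]
  have r3 : (M : ℝ) ≤ κ * n / 4 := floor_hi _
  have r4 : κ * n / 4 - 1 < M := floor_lo _
  have hδn : δ * n ≤ κ * n / 48 := by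
    have := mul_le_mul_of_nonneg_right hδκ hnpos.le
    linarith
  have hρM : ρ ≤ M := by
    have : (ρ : ℝ) ≤ M := by linarith
    exact_mod_cast this
  have h7 : 7 ≤ ρ := by
    have : (7 : ℝ) ≤ ρ := by linarith
    exact_mod_cast this
  have hkap : 8 * (M : ℝ) + 100 ≤ 3 * κ * (2 * (H : ℝ)) := by
    have : 3 * κ * (2 * (H : ℝ)) = 3 * (κ * n) := by rw [hn]; ring
    rw [this]
    linarith
  have hPlc : Plc (2 * (H : ℤ)) (S.P.side i).1 (S.P.side i).2 (vz H z0) p (M + 8) ρ := by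
    refine plc_of (R := 2 * δ * n) hκ1 hκ2 hκ0 hct ?_ ?_ (by linarith) h7 hρM hkap
    · have e2 : (p.1 : ℝ) - z0.re * (2 * H) = (p.1 / n - z0.re) * n := by
        rw [sub_mul, ← q1]
      rw [e2, abs_mul, abs_of_pos hnpos]
      refine mul_le_mul_of_nonneg_right ?_ hnpos.le
      rw [abs_le]
      constructor <;> linarith [hre.1.1, hre.1.2, zre.1, zre.2]
    · have e2 : (p.2 : ℝ) - z0.im * (2 * H) = (p.2 / n - z0.im) * n := by
        rw [sub_mul, ← q2]
      rw [e2, abs_mul, abs_of_pos hnpos]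
      refine mul_le_mul_of_nonneg_right ?_ hnpos.le
      rw [abs_le]
      constructor <;> linarith [him.1.1, him.1.2, zim.1, zim.2]
  have hb' : ((b - (S.P.side i).1.1 : ℤ) : ℝ) ≤ κ / 4 * M' := by
    have h1 : 4 * ((b - c.1 : ℤ) : ℝ) / κ < M' := by
      have : (M0 : ℝ) ≤ M' := by exact_mod_cast hM1
      linarith
    rw [div_lt_iff₀ hκ0] at h1
    linarith
  have hnat := nat_of (S := S) (i := i) (b := b) (M := M) hκ1 hκ2 hκ0 hN hM' (by omega : 0 < h)
    (by rw [← hH]; exact hkap) hb'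
  have hfin := hT S H i j p (vz H z0) ρ M (bk (2 * (h : ℤ)) (plV (chG S.P.Q) b N M')) hH2 hi hA
    hρM hPlc hnat fun ω hω => (hends ω hω).1 j
  refine le_trans hfin (le_trans ?_ hδε)
  have hM0' : (0 : ℝ) < M := by linarith
  have hρ0 : (0 : ℝ) < ρ := by linarith [mul_pos hδ hnpos]
  refine mul_le_mul_of_nonneg_left ?_ hC.le
  refine Real.rpow_le_rpow (by positivity) ?_ hα.le
  rw [div_le_div_iff₀ hM0' hκ0]
  have s1 : (ρ : ℝ) ≤ 3 * (δ * n) := by linarith
  have s2 : κ * n / 8 ≤ M := by linarith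
  calc (ρ : ℝ) * κ ≤ 3 * (δ * n) * κ := mul_le_mul_of_nonneg_right s1 hκ0.le
    _ = 24 * δ * (κ * n / 8) := by ring
    _ ≤ 24 * δ * M := mul_le_mul_of_nonneg_left s2 (by positivity)

end Pool.Agent.H97.W
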