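import Mathlib
import Pool.Agent.H45.W.Ends
import Pool.Agent.H47.W.Room8
import Pool.Agent.H97.W.Geo

set_option autoImplicit false
open Finset

/-! # The tiles and the sides round a vertex

The vertex `V` of the tile grid is the point `pv V`; the tiles round it are `lt (V + io k)` (counterclockwise),
the side `sd V k` is between the tiles `k` and `k - 1`. `dec` : a label, a point and two sides in these terms. -/

namespace Pool.Agent.H97.W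

open Pool.Agent.H75.Perc hiding WL CT hh PB EE
open Pool.Agent.H75.TwoArm Pool.Agent.H99.W Pool.Agent.H13.W
open Pool.Agent.H33.Q1 Pool.Agent.H21.FM
open Pool.Agent.Q1.M4 (Cell Good IsSide nextSide tail head PType)
open Pool.Agent.H45.W (sq od ev)
open Pool.Agent.H47.W (sd hz vt)

/-- the point of a vertex of the tile grid -/
def pv (V : ℤ × ℤ) : ℤ × ℤ := (V.1 - V.2, V.1 + V.2)

lemma pv_inj {V V' : ℤ × ℤ} (h : pv V = pv V') : V = V' := by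
  unfold pv at h
  simp only [Prod.mk.injEq] at h
  refine Prod.ext ?_ ?_ <;> omega

lemma io_congr {k l : ℤ} (h : k % 4 = l % 4) : io k = io l := by
  unfold io
  rw [h]

/-- the data of a direction -/
lemma rot (k : ℤ) :
    (k % 4 = 0 ∧ io k = (0, 0) ∧ io (k - 1) = (0, -1) ∧ io (k + 1) = (-1, 0) ∧ dir k = (1, 0) ∧
      dir (k - 1) = (0, -1) ∧ dir (k + 1) = (0, 1)) ∨
    (k % 4 = 1 ∧ io k = (-1, 0) ∧ io (k - 1) = (0, 0) ∧ io (k + 1) = (-1, -1) ∧ dir k = (0, 1) ∧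
      dir (k - 1) = (1, 0) ∧ dir (k + 1) = (-1, 0)) ∨
    (k % 4 = 2 ∧ io k = (-1, -1) ∧ io (k - 1) = (-1, 0) ∧ io (k + 1) = (0, -1) ∧ dir k = (-1, 0) ∧
      dir (k - 1) = (0, 1) ∧ dir (k + 1) = (0, -1)) ∨
    (k % 4 = 3 ∧ io k = (0, -1) ∧ io (k - 1) = (-1, -1) ∧ io (k + 1) = (0, 0) ∧ dir k = (0, -1) ∧
      dir (k - 1) = (-1, 0) ∧ dir (k + 1) = (1, 0)) := by
  have key : ∀ a b : ℤ, (a % 4 = b % 4) → io a = io b ∧ dir a = dir b := fun a b h =>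
    ⟨io_congr h, Pool.Agent.H21.FM.dir_congr h⟩
  have hk : k % 4 = 0 ∨ k % 4 = 1 ∨ k % 4 = 2 ∨ k % 4 = 3 := by omega
  rcases hk with h | h | h | h
  · left
    obtain ⟨a1, a2⟩ := key k 0 (by omega)
    obtain ⟨b1, b2⟩ := key (k - 1) 3 (by omega)
    obtain ⟨c1, c2⟩ := key (k + 1) 1 (by omega)
    rw [a1, a2, b1, b2, c1, c2]
    exact ⟨h, rfl, rfl, rfl, rfl, rfl, rfl⟩
  · right; left
    obtain ⟨a1, a2⟩ := key k 1 (by omega)
    obtain ⟨b1, b2⟩ := key (k - 1) 0 (by omega)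
    obtain ⟨c1, c2⟩ := key (k + 1) 2 (by omega)
    rw [a1, a2, b1, b2, c1, c2]
    exact ⟨h, rfl, rfl, rfl, rfl, rfl, rfl⟩
  · right; right; left
    obtain ⟨a1, a2⟩ := key k 2 (by omega)
    obtain ⟨b1, b2⟩ := key (k - 1) 1 (by omega)
    obtain ⟨c1, c2⟩ := key (k + 1) 3 (by omega)
    rw [a1, a2, b1, b2, c1, c2]
    exact ⟨h, rfl, rfl, rfl, rfl, rfl, rfl⟩
  · right; right; right
    obtain ⟨a1, a2⟩ := key k 3 (by omega)
    obtain ⟨b1, b2⟩ := key (k - 1) 2 (by omega)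
    obtain ⟨c1, c2⟩ := key (k + 1) 0 (by omega)
    rw [a1, a2, b1, b2, c1, c2]
    exact ⟨h, rfl, rfl, rfl, rfl, rfl, rfl⟩

lemma io_pred (k : ℤ) : io (k - 1) = io k + dir (k - 1) := by
  rcases rot k with ⟨-, a, b, -, -, c, -⟩ | ⟨-, a, b, -, -, c, -⟩ | ⟨-, a, b, -, -, c, -⟩ |
    ⟨-, a, b, -, -, c, -⟩ <;> rw [a, b, c] <;> simp

/-- sides round a vertex, explicitly -/
lemma sd_ex (V : ℤ × ℤ) : sd V 0 = ((pv V).1 + 1, (pv V).2 + 1) ∧ sd V 1 = ((pv V).1, (pv V).2 + 1) ∧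
    sd V 2 = pv V ∧ sd V 3 = ((pv V).1 + 1, (pv V).2) := by
  unfold sd pv hz vt
  refine ⟨?_, ?_, ?_, ?_⟩
  · rw [if_pos (by norm_num)]; refine Prod.ext ?_ ?_ <;> simp only <;> ring
  · rw [if_neg (by norm_num), if_pos (by norm_num)]
  · rw [if_neg (by norm_num), if_neg (by norm_num), if_pos (by norm_num)]
    refine Prod.ext ?_ ?_ <;> simp only <;> ring
  · rw [if_neg (by norm_num), if_neg (by norm_num), if_neg (by norm_num)]
    refine Prod.ext ?_ ?_ <;> simp only <;> ring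

/-- tiles round a vertex, explicitly -/
lemma lt_ex (V : ℤ × ℤ) : lt (V + io 0) = ((pv V).1, (pv V).2 + 1) ∧
    lt (V + io 1) = ((pv V).1 - 1, (pv V).2) ∧ lt (V + io 2) = ((pv V).1, (pv V).2 - 1) ∧
    lt (V + io 3) = ((pv V).1 + 1, (pv V).2) := by
  have e0 : io 0 = (0, 0) := rfl
  have e1 : io 1 = (-1, 0) := rfl
  have e2 : io 2 = (-1, -1) := rfl
  have e3 : io 3 = (0, -1) := rfl
  rw [e0, e1, e2, e3]
  unfold lt pv
  refine ⟨?_, ?_, ?_, ?_⟩ <;> refine Prod.ext ?_ ?_ <;>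
    simp only [Prod.fst_add, Prod.snd_add] <;> ring

lemma near_pt {e c P : ℤ × ℤ} (he : od e) (hP : ev P) (h1 : sq c e) (h2 : sq c P) :
    (e.1 = P.1 ∧ e.2 = P.2 + 1 ∧ ((c.1 = P.1 + 1 ∧ c.2 = P.2 + 1) ∨ (c.1 = P.1 ∧ c.2 = P.2 + 1))) ∨
    (e.1 = P.1 - 1 ∧ e.2 = P.2 ∧ ((c.1 = P.1 ∧ c.2 = P.2 + 1) ∨ (c.1 = P.1 ∧ c.2 = P.2))) ∨
    (e.1 = P.1 ∧ e.2 = P.2 - 1 ∧ ((c.1 = P.1 ∧ c.2 = P.2) ∨ (c.1 = P.1 + 1 ∧ c.2 = P.2))) ∨
    (e.1 = P.1 + 1 ∧ e.2 = P.2 ∧ ((c.1 = P.1 + 1 ∧ c.2 = P.2) ∨ (c.1 = P.1 + 1 ∧ c.2 = P.2 + 1))) := by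
  unfold od at he
  unfold ev at hP
  unfold Pool.Agent.H45.W.sq at h1 h2
  obtain ⟨h1, h1'⟩ := h1
  obtain ⟨h2, h2'⟩ := h2
  have hx : e.1 = P.1 ∨ e.1 = P.1 - 1 ∨ e.1 = P.1 + 1 := by omega
  have hy : e.2 = P.2 ∨ e.2 = P.2 - 1 ∨ e.2 = P.2 + 1 := by omega
  rcases hx with hx | hx | hx <;> rcases hy with hy | hy | hy
  · exfalso; omega
  · right; right; left
    exact ⟨hx, hy, by omega⟩
  · left
    exact ⟨hx, hy, by omega⟩
  · right; left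
    exact ⟨hx, hy, by omega⟩
  · exfalso; omega
  · exfalso; omega
  · right; right; right
    exact ⟨hx, hy, by omega⟩
  · exfalso; omega
  · exfalso; omega

lemma ev_pv {P : ℤ × ℤ} (hP : ev P) : ∃ V, P = pv V := by
  unfold ev at hP
  refine ⟨((P.1 + P.2) / 2, (P.2 - P.1) / 2), ?_⟩
  unfold pv
  refine Prod.ext ?_ ?_ <;> simp only <;> omega

lemma sd_cong (V : ℤ × ℤ) {k l : ℤ} (h : k % 4 = l % 4) : sd V k = sd V l :=
  Pool.Agent.H47.W.sd_congr V h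

/-- **a label, a point and a side** -/
lemma dec {e c P : ℤ × ℤ} (he : od e) (hP : ev P) (h1 : sq c e) (h2 : sq c P) :
    ∃ V k, P = pv V ∧ e = lt (V + io k) ∧ (0 ≤ k ∧ k < 4) ∧ (c = sd V k ∨ c = sd V (k + 1)) := by
  obtain ⟨V, rfl⟩ := ev_pv hP
  obtain ⟨s0, s1, s2, s3⟩ := sd_ex V
  obtain ⟨t0, t1, t2, t3⟩ := lt_ex V
  have s4 : sd V 4 = sd V 0 := sd_cong V (by norm_num)
  rcases near_pt he hP h1 h2 with ⟨a, b, k⟩ | ⟨a, b, k⟩ | ⟨a, b, k⟩ | ⟨a, b, k⟩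
  · refine ⟨V, 0, rfl, by rw [t0]; exact Prod.ext a b, by norm_num, ?_⟩
    rcases k with ⟨c1, c2⟩ | ⟨c1, c2⟩
    · left; rw [s0]; exact Prod.ext c1 c2
    · right; rw [show (0 : ℤ) + 1 = 1 from rfl, s1]; exact Prod.ext c1 c2
  · refine ⟨V, 1, rfl, by rw [t1]; exact Prod.ext a b, by norm_num, ?_⟩
    rcases k with ⟨c1, c2⟩ | ⟨c1, c2⟩
    · left; rw [s1]; exact Prod.ext c1 c2
    · right; rw [show (1 : ℤ) + 1 = 2 from rfl, s2]; exact Prod.ext c1 c2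
  · refine ⟨V, 2, rfl, by rw [t2]; exact Prod.ext a b, by norm_num, ?_⟩
    rcases k with ⟨c1, c2⟩ | ⟨c1, c2⟩
    · left; rw [s2]; exact Prod.ext c1 c2
    · right; rw [show (2 : ℤ) + 1 = 3 from rfl, s3]; exact Prod.ext c1 c2
  · refine ⟨V, 3, rfl, by rw [t3]; exact Prod.ext a b, by norm_num, ?_⟩
    rcases k with ⟨c1, c2⟩ | ⟨c1, c2⟩
    · left; rw [s3]; exact Prod.ext c1 c2
    · right; rw [show (3 : ℤ) + 1 = 4 from rfl, s4, s0]; exact Prod.ext c1 c2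

lemma io_inj {k l : ℤ} (h : io k = io l) : k % 4 = l % 4 := by
  rcases io_dir k with ⟨a, b, -⟩ | ⟨a, b, -⟩ | ⟨a, b, -⟩ | ⟨a, b, -⟩ <;>
    rcases io_dir l with ⟨a', b', -⟩ | ⟨a', b', -⟩ | ⟨a', b', -⟩ | ⟨a', b', -⟩ <;>
    rw [b, b'] at h <;> first | exact a.trans a'.symm | exact absurd h (by decide)

/-- **a label, a point and both sides** -/
lemma dec2 {e c c' P : ℤ × ℤ} (he : od e) (hP : ev P) (h1 : sq c e) (h2 : sq c P)
    (h3 : sq c' e) (h4 : sq c' P) (hne : c' ≠ c) :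
    ∃ V k, P = pv V ∧ e = lt (V + io k) ∧
      ((c = sd V k ∧ c' = sd V (k + 1)) ∨ (c = sd V (k + 1) ∧ c' = sd V k)) := by
  obtain ⟨V, k, e1, e2, hk, e3⟩ := dec he hP h1 h2
  obtain ⟨V', k', e1', e2', hk', e3'⟩ := dec he hP h3 h4
  obtain rfl := pv_inj (e1.symm.trans e1')
  have h5 : io k = io k' := by
    have := lt_inj (e2.symm.trans e2')
    exact add_left_cancel this
  have h6 := io_inj h5
  obtain rfl : k = k' := by omega
  refine ⟨V, k, e1, e2, ?_⟩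
  rcases e3 with e3 | e3 <;> rcases e3' with e3' | e3'
  · exact absurd (e3'.trans e3.symm) hne
  · exact Or.inl ⟨e3, e3'⟩
  · exact Or.inr ⟨e3, e3'⟩
  · exact absurd (e3'.trans e3.symm) hne

/-- the tiles of a side at a vertex -/
lemma oo_sd (V : ℤ × ℤ) (k : ℤ) : Pool.Agent.H45.W.ot (sd V k) (lt (V + io k)) = lt (V + io (k - 1)) ∧
    Pool.Agent.H45.W.ot (sd V (k + 1)) (lt (V + io k)) = lt (V + io (k + 1)) := by
  obtain ⟨s0, s1, s2, s3⟩ := sd_ex V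
  obtain ⟨t0, t1, t2, t3⟩ := lt_ex V
  unfold Pool.Agent.H45.W.ot
  have key : ∀ a b : ℤ, (a % 4 = b % 4) → sd V a = sd V b ∧ io a = io b := fun a b h =>
    ⟨sd_cong V h, io_congr h⟩
  have hk : k % 4 = 0 ∨ k % 4 = 1 ∨ k % 4 = 2 ∨ k % 4 = 3 := by omega
  rcases hk with h | h | h | h
  · rw [(key k 0 (by omega)).1, (key k 0 (by omega)).2, (key (k - 1) 3 (by omega)).2,
      (key (k + 1) 1 (by omega)).1, (key (k + 1) 1 (by omega)).2, s0, s1, t0, t1, t3]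
    constructor <;> refine Prod.ext ?_ ?_ <;> simp only <;> ring
  · rw [(key k 1 (by omega)).1, (key k 1 (by omega)).2, (key (k - 1) 0 (by omega)).2,
      (key (k + 1) 2 (by omega)).1, (key (k + 1) 2 (by omega)).2, s1, s2, t1, t0, t2]
    constructor <;> refine Prod.ext ?_ ?_ <;> simp only <;> ring
  · rw [(key k 2 (by omega)).1, (key k 2 (by omega)).2, (key (k - 1) 1 (by omega)).2,
      (key (k + 1) 3 (by omega)).1, (key (k + 1) 3 (by omega)).2, s2, s3, t2, t1, t3]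
    constructor <;> refine Prod.ext ?_ ?_ <;> simp only <;> ring
  · rw [(key k 3 (by omega)).1, (key k 3 (by omega)).2, (key (k - 1) 2 (by omega)).2,
      (key (k + 1) 0 (by omega)).1, (key (k + 1) 0 (by omega)).2, s3, s0, t3, t2, t0]
    constructor <;> refine Prod.ext ?_ ?_ <;> simp only <;> ring

/-- the labels of the side `sd V k` -/
lemma sq_sd (V : ℤ × ℤ) (k : ℤ) : sq (sd V k) (lt (V + io k)) ∧ sq (sd V k) (lt (V + io (k - 1))) ∧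
    sq (sd V k) (pv V) := by
  obtain ⟨s0, s1, s2, s3⟩ := sd_ex V
  obtain ⟨t0, t1, t2, t3⟩ := lt_ex V
  unfold Pool.Agent.H45.W.sq
  have key : ∀ a b : ℤ, (a % 4 = b % 4) → sd V a = sd V b ∧ io a = io b := fun a b h =>
    ⟨sd_cong V h, io_congr h⟩
  have hk : k % 4 = 0 ∨ k % 4 = 1 ∨ k % 4 = 2 ∨ k % 4 = 3 := by omega
  rcases hk with h | h | h | h
  · rw [(key k 0 (by omega)).1, (key k 0 (by omega)).2, (key (k - 1) 3 (by omega)).2, s0, t0, t3]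
    simp
  · rw [(key k 1 (by omega)).1, (key k 1 (by omega)).2, (key (k - 1) 0 (by omega)).2, s1, t1, t0]
    simp
  · rw [(key k 2 (by omega)).1, (key k 2 (by omega)).2, (key (k - 1) 1 (by omega)).2, s2, t2, t1]
    simp
  · rw [(key k 3 (by omega)).1, (key k 3 (by omega)).2, (key (k - 1) 2 (by omega)).2, s3, t3, t2]
    simp

/-- a point of a tile of a set -/
lemma PB_pv {Q : Set (ℤ × ℤ)} (hQ : ∀ e ∈ Q, od e) {V : ℤ × ℤ} (k : ℤ)
    (h : Pool.Agent.H45.W.PB Q (pv V)) : lt (V + io k) ∈ Q ∨ lt (V + io (k + 1)) ∈ Q ∨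
      lt (V + io (k + 2)) ∈ Q ∨ lt (V + io (k + 3)) ∈ Q := by
  obtain ⟨e, he, c, h1, h2⟩ := h
  have hP : ev (pv V) := by unfold ev pv; simp only; omega
  obtain ⟨V', k', e1, e2, -, -⟩ := dec (hQ e he) hP h1 h2
  obtain rfl := pv_inj e1
  have hk : k' % 4 = k % 4 ∨ k' % 4 = (k + 1) % 4 ∨ k' % 4 = (k + 2) % 4 ∨ k' % 4 = (k + 3) % 4 := by
    omega
  rcases hk with h | h | h | h
  · left; rw [← io_congr h, ← e2]; exact he
  · right; left; rw [← io_congr h, ← e2]; exact he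
  · right; right; left; rw [← io_congr h, ← e2]; exact he
  · right; right; right; rw [← io_congr h, ← e2]; exact he

lemma PB_mk {Q : Set (ℤ × ℤ)} {V : ℤ × ℤ} {k : ℤ} (h : lt (V + io k) ∈ Q) :
    Pool.Agent.H45.W.PB Q (pv V) :=
  ⟨_, h, sd V k, (sq_sd V k).1, (sq_sd V k).2.2⟩

end Pool.Agent.H97.W
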