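import Mathlib
import Pool.Agent.H97.W.WldA

set_option autoImplicit false
open Finset

/-! # The exit of the deleted row and the colours of the layer tiles

`ExH` : the deleted row from `p` leaves the polygon at the column `x1`, the wall is straight there. `ExT` :
`t0` is the index of the side of the exit. `wp_iff` : the colour of a layer tile is given by any of its sides.
`col_straight` : neighbours at a straight wall have the same colour. -/

namespace Pool.Agent.H97.W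

open Pool.Agent.H75.Perc hiding WL CT hh PB EE
open Pool.Agent.H75.TwoArm Pool.Agent.H99.W Pool.Agent.H13.W
open Pool.Agent.H33.Q1 Pool.Agent.H21.FM
open Pool.Agent.Q1.M4 (Cell Good IsSide nextSide tail head PType)
open Pool.Agent.H45.W (sq od ev)
open Pool.Agent.H47.W (sd hz vt)
open Pool.Agent.H74.W (Lam3 Del Ex Wp yy GW Cv Aft mem_Wp)

/-- **The exit.** The deleted row of `p` leaves the polygon at the column `x1`, next to a straight wall. -/
structure ExH (S : Shape) (h : ℕ) (p : ℤ × ℤ) (x1 : ℤ) : Prop where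
  le : p.1 ≤ x1
  inn : ∀ x, p.1 ≤ x → x < x1 → ct (2 * (h : ℤ)) (x, p.2) ∈ S.P.Q
  out : ∀ b : ℤ, -1 ≤ b → b ≤ 1 → ct (2 * (h : ℤ)) (x1, p.2 + b) ∉ S.P.Q
  inl : ∀ b : ℤ, -1 ≤ b → b ≤ 1 → ct (2 * (h : ℤ)) (x1 - 1, p.2 + b) ∈ S.P.Q

/-- the exit with the index of its side -/
structure ExT (S : Shape) (h : ℕ) (p : ℤ × ℤ) (x1 : ℤ) (t0 : ℕ) : Prop extends ExH S h p x1 where
  lt0 : t0 < S.N
  k0 : S.k t0 % 4 = 1
  c0 : (S.P.side t0).1 = ct (2 * (h : ℤ)) (x1 - 1, p.2)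
  ex : ∀ t, Ex S h p t ↔ t = t0

section cells

variable {n : ℤ} {Q : Finset Cell} {t : ℤ × ℤ} {d : ℤ}

lemma ct_back (hn : 0 < n) (h0 : ct n t ≠ ct n (t + dir d)) : ct n t = ct n (t + dir d) - dir d := by
  rcases ct_add_dir hn (p := t) (k := d) rfl with h | h
  · exact absurd h h0
  · exact h

lemma ct_fwd (hn : 0 < n) (h0 : ct n t ≠ ct n (t + dir d)) : ct n (t + dir d) = ct n t + dir d := by
  rw [ct_back hn h0, sub_add_cancel]

/-- the column of a tile whose left neighbour is in another cell -/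
lemma ct_left (hn : 0 < n) (h : ct n (t.1 - 1, t.2) ≠ ct n t) : t.1 = (ct n t).1 * n := by
  obtain ⟨⟨a1, a2⟩, a3, a4⟩ := (ct_eq hn (p := t) (c := ct n t)).1 rfl
  by_contra h1
  apply h
  rw [ct_eq hn]
  exact ⟨⟨by simp only; omega, by simp only; omega⟩, a3, a4⟩

lemma ct_shift (hn : 0 < n) {X y a : ℤ} (h0 : 0 ≤ a) (h1 : a < n) :
    ct n (X * n + a, y) = ct n (X * n, y) := by
  unfold ct
  refine Prod.ext ?_ rfl
  simp only
  rw [Int.mul_ediv_cancel _ hn.ne', add_comm, Int.add_mul_ediv_right _ _ hn.ne',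
    Int.ediv_eq_zero_of_lt h0 h1, zero_add]

/-- a tile has no neighbours in other cells on both sides -/
lemma no_two (hn : 2 ≤ n) (h : ct n (t + dir d) ≠ ct n t) : ct n (t - dir d) = ct n t := by
  obtain ⟨⟨a1, a2⟩, a3, a4⟩ := (ct_eq (by omega) (p := t) (c := ct n t)).1 rfl
  rw [ct_eq (by omega)]
  by_contra h1
  apply h
  rw [ct_eq (by omega)]
  rcases dir_cases d with ⟨-, e⟩ | ⟨-, e⟩ | ⟨-, e⟩ | ⟨-, e⟩ <;> rw [e] at h1 ⊢ <;>
    simp only [Prod.fst_add, Prod.snd_add, Prod.fst_sub, Prod.snd_sub] at h1 ⊢ <;> omega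

end cells

section

variable {S : Shape} {h : ℕ} {p t t' : ℤ × ℤ} {x1 : ℤ} {t0 : ℕ}

lemma dir_m (k : ℤ) : dir (k + 1) = -dir (k - 1) := by
  rcases rot k with ⟨-, -, -, -, -, a, b⟩ | ⟨-, -, -, -, -, a, b⟩ | ⟨-, -, -, -, -, a, b⟩ |
    ⟨-, -, -, -, -, a, b⟩ <;> rw [a, b] <;> simp

/-- the layer tile of a wall -/
lemma ly_exists (hh : 1 ≤ h) {k : ℤ} (h0 : ct (2 * (h : ℤ)) t ∉ S.P.Q)
    (h1 : ct (2 * (h : ℤ)) (t - dir (k - 1)) ∈ S.P.Q) : ∃ i < S.N,
      (S.P.side i).1 = ct (2 * (h : ℤ)) (t - dir (k - 1)) ∧ (S.k i - k) % 4 = 0 ∧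
      lt t ∈ LY (2 * h) (S.P.side i) := by
  have hn : (0 : ℤ) < 2 * h := by omega
  have e0 : t - dir (k - 1) + dir (k - 1) = t := by abel
  have h3 : ct (2 * (h : ℤ)) t = ct (2 * (h : ℤ)) (t - dir (k - 1)) + dir (k - 1) := by
    have := ct_fwd (t := t - dir (k - 1)) (d := k - 1) hn (by
      rw [e0]; intro h2; exact h0 (h2 ▸ h1))
    rwa [e0] at this
  obtain ⟨i, hi, a1, a2⟩ := S.P.all (ct (2 * (h : ℤ)) (t - dir (k - 1)), k)
    ⟨h1, by simp only; rw [← h3]; exact h0⟩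
  change (S.P.side i).1 = _ at a1
  change ((S.P.side i).2 - k) % 4 = 0 at a2
  have hd : dir ((S.P.side i).2 - 1) = dir (k - 1) := Pool.Agent.H21.FM.dir_congr (by omega)
  refine ⟨i, hi, a1, a2, ?_⟩
  rw [mem_LY hn, tt_lt, hd, a1]
  exact ⟨lt_odd t, h3, rfl⟩

lemma ly_data (hh : 1 ≤ h) {i : ℕ} (hi : lt t ∈ LY (2 * h) (S.P.side i)) :
    ct (2 * (h : ℤ)) t ∉ S.P.Q ∧ ct (2 * (h : ℤ)) t = (S.P.side i).1 + dir (S.k i - 1) ∧
      ct (2 * (h : ℤ)) (t - dir (S.k i - 1)) = (S.P.side i).1 := by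
  have hn : (0 : ℤ) < 2 * h := by omega
  rw [mem_LY hn, tt_lt] at hi
  obtain ⟨-, h1, h2⟩ := hi
  refine ⟨?_, h1, h2⟩
  rw [h1]
  exact (isSide_side' S.P i).2

lemma side_idx {i j : ℕ} (hi : i < S.N) (hj : j < S.N) (h1 : (S.P.side i).1 = (S.P.side j).1)
    (h2 : (S.k i - S.k j) % 4 = 0) : i = j := S.P.inj i hi j hj h1 h2

/-- the side after the side `i` -/
lemma next_idx {i j : ℕ} (hi : i < S.N) (hj : j < S.N) (h1 : (S.P.side (i + 1)).1 = (S.P.side j).1)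
    (h2 : (S.k (i + 1) - S.k j) % 4 = 0) : (j = i + 1 ∧ i + 1 < S.N) ∨ (i + 1 = S.N ∧ j = 0) := by
  rcases lt_or_ge (i + 1) S.N with h3 | h3
  · left
    exact ⟨(side_idx h3 hj h1 h2).symm, h3⟩
  · right
    have h4 : i + 1 = S.N := by omega
    refine ⟨h4, ?_⟩
    have h5 : S.P.side (i + 1) = ((S.P.side 0).1, (S.P.side 0).2 + 4) := by
      have := Pool.Agent.H33.Q1.side_period S.P 0
      rw [Nat.add_zero] at this
      rw [h4]; exact this
    unfold Shape.k at h2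
    rw [h5] at h1 h2
    simp only at h1 h2
    have h6 : 0 < S.N := by omega
    exact (side_idx h6 hj h1 (by unfold Shape.k; omega)).symm

/-- if the walk does not turn left at the vertex `i + 1`, then it is not a mark -/
lemma no_mark {i : ℕ} (h1 : (S.k (i + 1) - (S.k i + 1)) ≠ 0) :
    i + 1 ≠ S.m2 ∧ i + 1 ≠ S.m3 ∧ i + 1 ≠ S.N := by
  have key : (i + 1 = S.m2 ∨ i + 1 = S.m3 ∨ i + 1 = S.P.m ∨ i + 1 = S.P.N) → False := by
    intro h2
    have h3 := S.cvx i h2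
    apply h1
    unfold Shape.k
    rw [h3]
    simp
  exact ⟨fun e => key (Or.inl e), fun e => key (Or.inr (Or.inl e)),
    fun e => key (Or.inr (Or.inr (Or.inr e)))⟩

/-! ### The exit -/

lemma ExH.cell (X : ExH S h p x1) (hh : 1 ≤ h) : x1 = (ct (2 * (h : ℤ)) (x1, p.2)).1 * (2 * h) := by
  have hn : (0 : ℤ) < 2 * h := by omega
  refine ct_left (t := (x1, p.2)) hn fun e => ?_
  have h1 := X.out 0 (by omega) (by omega)
  have h2 := X.inl 0 (by omega) (by omega)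
  rw [add_zero] at h1 h2
  simp only at e
  rw [e] at h2
  exact h1 h2

/-- **the tiles near the exit** -/
lemma ExH.near (X : ExH S h p x1) (hh : 2 ≤ h) {a b : ℤ} (a0 : -1 ≤ a) (a1 : a ≤ 2) (b0 : -1 ≤ b)
    (b1 : b ≤ 1) : ct (2 * (h : ℤ)) (x1 + a, p.2 + b) ∈ S.P.Q ↔ a = -1 := by
  have hn : (0 : ℤ) < 2 * h := by omega
  constructor
  · intro h1
    by_contra h2
    have h3 := X.cell (by omega)
    set c := (ct (2 * (h : ℤ)) (x1, p.2)).1 with hc
    apply X.out b b0 b1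
    rw [h3] at h1 ⊢
    rwa [ct_shift hn (by omega) (by omega)] at h1
  · rintro rfl
    exact X.inl b b0 b1

lemma lt_mem_Del {Q : Finset Cell} {n : ℤ} : lt t ∈ Del Q n p ↔ t.2 = p.2 ∧ p.1 ≤ t.1 ∧
    ∀ x, p.1 ≤ x → x < t.1 → ct n (x, p.2) ∈ Q := by
  unfold Del
  rw [Set.mem_ofPred_eq, tt_lt]
  exact ⟨fun h => ⟨h.2.1, h.2.2.1, h.2.2.2⟩, fun h => ⟨lt_odd t, h.1, h.2.1, h.2.2⟩⟩

lemma ExH.del_iff (X : ExH S h p x1) : lt t ∈ Del S.P.Q (2 * h) p ↔ t.2 = p.2 ∧ p.1 ≤ t.1 ∧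
    t.1 ≤ x1 := by
  rw [lt_mem_Del]
  constructor
  · rintro ⟨h1, h2, h3⟩
    refine ⟨h1, h2, ?_⟩
    by_contra h4
    have h5 := h3 x1 X.le (by omega)
    have h6 := X.out 0 (by omega) (by omega)
    rw [add_zero] at h6
    exact h6 h5
  · rintro ⟨h1, h2, h3⟩
    exact ⟨h1, h2, fun x hx hx' => X.inn x hx (by omega)⟩

lemma ExH.del_out (X : ExH S h p x1) (h1 : lt t ∈ Del S.P.Q (2 * h) p)
    (h2 : ct (2 * (h : ℤ)) t ∉ S.P.Q) : t = (x1, p.2) := by
  rw [X.del_iff] at h1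
  obtain ⟨a, b, c⟩ := h1
  refine Prod.ext ?_ a
  by_contra h3
  have h4 := X.inn t.1 b (by simp only at h3; omega)
  rw [← a] at h4
  exact h2 h4

lemma ExH.ex_del (X : ExH S h p x1) : lt (x1, p.2) ∈ Del S.P.Q (2 * h) p := by
  rw [X.del_iff]
  exact ⟨rfl, X.le, le_rfl⟩

/-- the side of the exit tile -/
lemma ExH.ex_side (X : ExH S h p x1) (hh : 2 ≤ h) {i : ℕ}
    (hi : lt (x1, p.2) ∈ LY (2 * h) (S.P.side i)) :
    S.k i % 4 = 1 ∧ (S.P.side i).1 = ct (2 * (h : ℤ)) (x1 - 1, p.2) := by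
  obtain ⟨-, -, h3⟩ := ly_data (by omega) hi
  have h4 := (isSide_side' S.P i).1
  rw [← h3] at h4
  rcases rot (S.k i) with ⟨a, -, -, -, -, b, -⟩ | ⟨a, -, -, -, -, b, -⟩ | ⟨a, -, -, -, -, b, -⟩ |
    ⟨a, -, -, -, -, b, -⟩ <;> rw [b] at h3 h4
  · exfalso
    have e : ((x1, p.2) - (0, -1) : ℤ × ℤ) = (x1 + 0, p.2 + 1) := by
      refine Prod.ext ?_ ?_ <;> simp
    rw [e, X.near hh (by omega) (by omega) (by omega) (by omega)] at h4
    omega
  · have e : ((x1, p.2) - (1, 0) : ℤ × ℤ) = (x1 - 1, p.2) := by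
      refine Prod.ext ?_ ?_ <;> simp
    rw [e] at h3
    exact ⟨a, h3.symm⟩
  · exfalso
    have e : ((x1, p.2) - (0, 1) : ℤ × ℤ) = (x1 + 0, p.2 + -1) := by
      refine Prod.ext ?_ ?_ <;> simp; ring
    rw [e, X.near hh (by omega) (by omega) (by omega) (by omega)] at h4
    omega
  · exfalso
    have e : ((x1, p.2) - (-1, 0) : ℤ × ℤ) = (x1 + 1, p.2 + 0) := by
      refine Prod.ext ?_ ?_ <;> simp
    rw [e, X.near hh (by omega) (by omega) (by omega) (by omega)] at h4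
    omega

/-- **the side of the exit** -/
theorem ExH.toT (X : ExH S h p x1) (hh : 2 ≤ h) : ∃ t0, ExT S h p x1 t0 := by
  have h1 := X.out 0 (by omega) (by omega)
  have h2 := X.inl 0 (by omega) (by omega)
  rw [add_zero] at h1 h2
  have e : ((x1, p.2) - dir ((1 : ℤ) - 1) : ℤ × ℤ) = (x1 - 1, p.2) := by
    have : dir ((1 : ℤ) - 1) = (1, 0) := rfl
    rw [this]
    refine Prod.ext ?_ ?_ <;> simp
  obtain ⟨t0, a1, a2, a3, a4⟩ := ly_exists (t := (x1, p.2)) (k := 1) (by omega) h1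
    (by rw [e]; exact h2)
  rw [e] at a2
  have hk : S.k t0 % 4 = 1 := by omega
  refine ⟨t0, X, a1, hk, a2, fun t => ?_⟩
  unfold Ex
  constructor
  · rintro ⟨b1, b2, e', b3, b4⟩
    have ho : (e'.1 + e'.2) % 2 = 1 := b3.1
    rw [← lt_tt ho] at b3 b4
    have h5 := X.del_out b3 (ly_data (by omega) b4).1
    rw [h5] at b4
    obtain ⟨c1, c2⟩ := X.ex_side hh b4
    exact side_idx b1 a1 (c2.trans a2.symm) (by omega)
  · rintro rfl
    exact ⟨a1, hk, _, X.ex_del, a4⟩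

/-- the colour of a tile of the layer of the side `i` -/
def KC (S : Shape) (p : ℤ × ℤ) (t0 i : ℕ) (t : ℤ × ℤ) : Prop :=
  ¬ ((S.m2 ≤ i ∧ i < S.m3) ↔ (t0 < i ∨ (t0 = i ∧ p.2 < t.2)))

lemma ExT.aft (X : ExT S h p x1 t0) (i : ℕ) : Aft S h p i (lt t) ↔ (t0 < i ∨ (t0 = i ∧ p.2 < t.2)) := by
  unfold Aft
  rw [tt_lt]
  constructor
  · rintro ⟨t1, h1, h2⟩
    rw [(X.ex t1).1 h1] at h2
    exact h2
  · intro h2
    exact ⟨t0, (X.ex t0).2 rfl, h2⟩

/-- rows of the tiles of the exit side -/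
lemma ExT.rows (X : ExT S h p x1 t0) (hh : 2 ≤ h) (ht : lt t ∈ LY (2 * h) (S.P.side t0)) :
    ∃ c : Cell, ct (2 * (h : ℤ)) t = c ∧ (c.2 * (2 * h) ≤ t.2 ∧ t.2 < c.2 * (2 * h) + 2 * h) ∧
      (c.2 * (2 * h) ≤ p.2 ∧ p.2 < c.2 * (2 * h) + 2 * h) ∧ t.1 = x1 := by
  have hn : (0 : ℤ) < 2 * h := by omega
  obtain ⟨h1, h2, h3⟩ := ly_data (by omega) ht
  have hd : dir (S.k t0 - 1) = (1, 0) := by
    have := Pool.Agent.H21.FM.dir_congr (k := S.k t0 - 1) (l := 0) (by have := X.k0; omega)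
    rw [this]; rfl
  rw [hd] at h2 h3
  have h4 : ct (2 * (h : ℤ)) (x1, p.2) = ct (2 * (h : ℤ)) t := by
    have h5 := ct_fwd (n := 2 * (h : ℤ)) (t := (x1 - 1, p.2)) (d := 0) hn (by
      have e : ((x1 - 1, p.2) + dir 0 : ℤ × ℤ) = (x1, p.2) := by
        have : dir 0 = (1, 0) := rfl
        rw [this]
        refine Prod.ext ?_ ?_ <;> simp
      rw [e]
      intro h6
      have h7 := X.out 0 (by omega) (by omega)
      have h8 := X.inl 0 (by omega) (by omega)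
      rw [add_zero] at h7 h8
      exact h7 (h6 ▸ h8))
    have e : ((x1 - 1, p.2) + dir 0 : ℤ × ℤ) = (x1, p.2) := by
      have : dir 0 = (1, 0) := rfl
      rw [this]
      refine Prod.ext ?_ ?_ <;> simp
    rw [e] at h5
    rw [h5, h2, X.c0]
    rfl
  obtain ⟨⟨a1, a2⟩, a3⟩ := (ct_eq hn (p := t) (c := ct (2 * (h : ℤ)) t)).1 rfl
  obtain ⟨⟨b1, b2⟩, b3⟩ := (ct_eq hn (p := (x1, p.2)) (c := ct (2 * (h : ℤ)) t)).1 h4
  refine ⟨ct (2 * (h : ℤ)) t, rfl, a3, b3, ?_⟩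
  have c1 := X.cell (by omega)
  rw [h4] at c1
  have c2 : t.1 = (ct (2 * (h : ℤ)) t).1 * (2 * h) := by
    refine ct_left hn ?_
    have e : ((t.1 - 1, t.2) : ℤ × ℤ) = t - (1, 0) := by refine Prod.ext ?_ ?_ <;> simp
    rw [e, h3]
    intro h5
    exact h1 (h5 ▸ (isSide_side' S.P t0).1)
  rw [c2, ← c1]

lemma ExT.ne_row (X : ExT S h p x1 t0) (hh : 2 ≤ h) (ht : lt t ∈ LY (2 * h) (S.P.side t0))
    (hD : lt t ∉ Del S.P.Q (2 * h) p) : t.2 ≠ p.2 := by
  intro h1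
  obtain ⟨c, -, -, -, h2⟩ := X.rows hh ht
  apply hD
  rw [X.del_iff]
  exact ⟨h1, by rw [h2]; exact X.le, h2.le⟩

/-- last tile of the exit side -/
lemma ExT.last (X : ExT S h p x1 t0) (hh : 2 ≤ h) (ht : lt t ∈ LY (2 * h) (S.P.side t0))
    (hD : lt t ∉ Del S.P.Q (2 * h) p) (hl : ct (2 * (h : ℤ)) (t + dir (S.k t0)) ≠ ct (2 * (h : ℤ)) t) :
    p.2 < t.2 := by
  have hn : (0 : ℤ) < 2 * h := by omega
  have h1 := X.ne_row hh ht hD
  obtain ⟨c, h0, h2, h3, -⟩ := X.rows hh ht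
  have hd : dir (S.k t0) = (0, 1) := by
    have := Pool.Agent.H21.FM.dir_congr (k := S.k t0) (l := 1) (by have := X.k0; omega)
    rw [this]; rfl
  by_contra h4
  apply hl
  obtain ⟨a1, -⟩ := (ct_eq hn (p := t) (c := c)).1 h0
  rw [h0, ct_eq hn, hd]
  simp only [Prod.fst_add, Prod.snd_add]
  refine ⟨by simpa using a1, by omega, by omega⟩

/-- first tile of the exit side -/
lemma ExT.first (X : ExT S h p x1 t0) (hh : 2 ≤ h) (ht : lt t ∈ LY (2 * h) (S.P.side t0))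
    (hl : ct (2 * (h : ℤ)) (t - dir (S.k t0)) ≠ ct (2 * (h : ℤ)) t) :
    ¬ p.2 < t.2 := by
  have hn : (0 : ℤ) < 2 * h := by omega
  obtain ⟨c, h0, h2, h3, -⟩ := X.rows hh ht
  have hd : dir (S.k t0) = (0, 1) := by
    have := Pool.Agent.H21.FM.dir_congr (k := S.k t0) (l := 1) (by have := X.k0; omega)
    rw [this]; rfl
  intro h4
  apply hl
  obtain ⟨a1, -⟩ := (ct_eq hn (p := t) (c := c)).1 h0
  rw [h0, ct_eq hn, hd]
  simp only [Prod.fst_sub, Prod.snd_sub]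
  refine ⟨by simpa using a1, by omega, by omega⟩

/-- colours at a vertex which is not a mark -/
lemma ExT.col_next (X : ExT S h p x1 t0) (hh : 2 ≤ h) {i : ℕ} (m2 : i + 1 ≠ S.m2)
    (m3 : i + 1 ≠ S.m3) (h1 : lt t ∈ LY (2 * h) (S.P.side i)) (d1 : lt t ∉ Del S.P.Q (2 * h) p)
    (l1 : ct (2 * (h : ℤ)) (t + dir (S.k i)) ≠ ct (2 * (h : ℤ)) t)
    (h2 : lt t' ∈ LY (2 * h) (S.P.side (i + 1)))
    (l2 : ct (2 * (h : ℤ)) (t' - dir (S.k (i + 1))) ≠ ct (2 * (h : ℤ)) t') :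
    KC S p t0 i t ↔ KC S p t0 (i + 1) t' := by
  unfold KC
  have a1 : (S.m2 ≤ i ∧ i < S.m3) ↔ (S.m2 ≤ i + 1 ∧ i + 1 < S.m3) := by omega
  have a2 : (t0 < i ∨ (t0 = i ∧ p.2 < t.2)) ↔ (t0 < i + 1 ∨ (t0 = i + 1 ∧ p.2 < t'.2)) := by
    rcases lt_trichotomy t0 i with h3 | h3 | h3
    · exact ⟨fun _ => Or.inl (by omega), fun _ => Or.inl h3⟩
    · subst h3
      exact ⟨fun _ => Or.inl (by omega), fun _ => Or.inr ⟨rfl, X.last hh h1 d1 l1⟩⟩
    · constructor
      · rintro (h4 | h4) <;> omega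
      · rintro (h4 | ⟨h4, h5⟩)
        · omega
        · subst h4
          exact absurd h5 (X.first hh h2 l2)
  rw [a1, a2]

/-- a tile of two layers (reflex vertex) -/
lemma ExT.reflex (X : ExT S h p x1 t0) (hh : 2 ≤ h) {i j : ℕ} (hi : i < S.N) (hj : j < S.N)
    (h1 : lt t ∈ LY (2 * h) (S.P.side i)) (h2 : lt t ∈ LY (2 * h) (S.P.side j))
    (hk : (S.k j - (S.k i - 1)) % 4 = 0) (hD : lt t ∉ Del S.P.Q (2 * h) p) :
    KC S p t0 i t ↔ KC S p t0 j t := by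
  obtain ⟨a1, a2, a3⟩ := ly_data (by omega) h1
  obtain ⟨-, b2, b3⟩ := ly_data (by omega) h2
  have si := isSide_side' S.P i
  have sj := isSide_side' S.P j
  have e1 : dir (S.k j - 1) = -dir (S.k i) := by
    have e2 : dir (S.k j - 1) = dir (S.k i - 1 - 1) := Pool.Agent.H21.FM.dir_congr (by omega)
    have e3 := dir_m (S.k i - 1)
    rw [sub_add_cancel] at e3
    rw [e2, e3, neg_neg]
  have e4 : dir (S.k j) = dir (S.k i - 1) := Pool.Agent.H21.FM.dir_congr (by omega)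
  rw [e1, sub_neg_eq_add] at b3
  -- the next cell
  have c1 : (S.P.side i).1 + dir (S.k i) + dir (S.k i - 1) = (S.P.side j).1 := by
    have : (S.P.side j).1 = ct (2 * (h : ℤ)) t + dir (S.k i) := by rw [b2, e1]; abel
    rw [this, a2]; abel
  have nx : S.P.side (i + 1) = ((S.P.side j).1, S.k i - 1) := by
    rw [Pool.Agent.H47.W.side_succ]
    unfold nextSide
    change (if (S.P.side i).1 + dir (S.k i) + dir (S.k i - 1) ∈ S.P.Q then _ else _) = _
    rw [if_pos (by rw [c1]; exact sj.1)]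
    exact Prod.ext c1 rfl
  have kn : S.k (i + 1) = S.k i - 1 := by
    have := congrArg Prod.snd nx
    exact this
  obtain ⟨m2, m3, mN⟩ := no_mark (S := S) (i := i) (by omega)
  rcases next_idx hi hj (by rw [nx]) (by omega) with ⟨h3, h4⟩ | ⟨h3, -⟩
  · subst h3
    refine X.col_next hh m2 m3 h1 hD ?_ h2 ?_
    · rw [b3]
      intro e
      exact a1 (e ▸ sj.1)
    · rw [e4, a3]
      intro e
      exact a1 (e ▸ si.1)
  · exact absurd h3 mN

/-- **the colour of a layer tile** -/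
theorem ExT.wp_iff (X : ExT S h p x1 t0) (hh : 2 ≤ h) {i : ℕ} (hi : i < S.N)
    (h1 : lt t ∈ LY (2 * h) (S.P.side i)) (hD : lt t ∉ Del S.P.Q (2 * h) p) :
    lt t ∈ Wp S h p ↔ KC S p t0 i t := by
  rw [mem_Wp]
  constructor
  · rintro ⟨j, hj, h2, h3⟩
    rw [X.aft] at h3
    change KC S p t0 j t at h3
    obtain ⟨a1, a2, a3⟩ := ly_data (by omega) h1
    obtain ⟨-, b2, b3⟩ := ly_data (by omega) h2
    have si := isSide_side' S.P i
    have sj := isSide_side' S.P j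
    have hk : (S.k j - S.k i) % 4 = 0 ∨ (S.k j - (S.k i - 1)) % 4 = 0 ∨
        (S.k i - (S.k j - 1)) % 4 = 0 ∨ (S.k j - S.k i) % 4 = 2 := by omega
    rcases hk with hk | hk | hk | hk
    · have e1 : dir (S.k j - 1) = dir (S.k i - 1) := Pool.Agent.H21.FM.dir_congr (by omega)
      rw [e1, a3] at b3
      have := side_idx hj hi b3.symm hk
      rwa [this] at h3
    · exact (X.reflex hh hi hj h1 h2 hk hD).2 h3
    · exact (X.reflex hh hj hi h2 h1 hk hD).1 h3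
    · exfalso
      have e1 : dir (S.k j - 1) = -dir (S.k i - 1) := by
        rw [← dir_m]
        exact Pool.Agent.H21.FM.dir_congr (by omega)
      rw [e1, sub_neg_eq_add] at b3
      have h5 := no_two (n := 2 * (h : ℤ)) (t := t) (d := S.k i - 1) (by omega) (by
        rw [b3]; intro e; exact a1 (e ▸ sj.1))
      rw [a3] at h5
      exact a1 (h5 ▸ si.1)
  · intro h2
    refine ⟨i, hi, h1, ?_⟩
    rw [X.aft]
    exact h2

/-- **neighbours at a straight wall have the same colour** -/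
theorem ExT.col_straight (X : ExT S h p x1 t0) (hh : 2 ≤ h) {k : ℤ}
    (o1 : ct (2 * (h : ℤ)) t ∉ S.P.Q) (o2 : ct (2 * (h : ℤ)) (t + dir k) ∉ S.P.Q)
    (i1 : ct (2 * (h : ℤ)) (t - dir (k - 1)) ∈ S.P.Q)
    (i2 : ct (2 * (h : ℤ)) (t + dir k - dir (k - 1)) ∈ S.P.Q)
    (d1 : lt t ∉ Del S.P.Q (2 * h) p) (d2 : lt (t + dir k) ∉ Del S.P.Q (2 * h) p) :
    lt t ∈ Wp S h p ↔ lt (t + dir k) ∈ Wp S h p := by
  have hn : (0 : ℤ) < 2 * h := by omega
  obtain ⟨i, hi, a1, a2, a3⟩ := ly_exists (by omega) o1 i1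
  obtain ⟨j, hj, b1, b2, b3⟩ := ly_exists (by omega) o2 i2
  rw [X.wp_iff hh hi a3 d1, X.wp_iff hh hj b3 d2]
  obtain ⟨-, a4, a5⟩ := ly_data (by omega) a3
  obtain ⟨-, b4, b5⟩ := ly_data (by omega) b3
  have ek : dir (S.k i) = dir k := Pool.Agent.H21.FM.dir_congr (by omega)
  have ek1 : dir (S.k i - 1) = dir (k - 1) := Pool.Agent.H21.FM.dir_congr (by omega)
  have fk : dir (S.k j) = dir k := Pool.Agent.H21.FM.dir_congr (by omega)
  have fk1 : dir (S.k j - 1) = dir (k - 1) := Pool.Agent.H21.FM.dir_congr (by omega)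
  rw [ek1] at a4
  rw [fk1] at b4
  by_cases hc : ct (2 * (h : ℤ)) t = ct (2 * (h : ℤ)) (t + dir k)
  · -- the same side
    have h1 : (S.P.side i).1 = (S.P.side j).1 := by
      rw [a4, b4] at hc
      exact add_right_cancel hc
    obtain rfl := side_idx hi hj h1 (by omega)
    by_cases h2 : t0 = i
    · subst h2
      have n1 := X.ne_row hh a3 d1
      have n2 := X.ne_row hh b3 d2
      have hd : dir k = (0, 1) := by
        rw [← ek]
        have := Pool.Agent.H21.FM.dir_congr (k := S.k t0) (l := 1) (by have := X.k0; omega)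
        rw [this]; rfl
      unfold KC
      rw [hd] at n2 ⊢
      simp only [Prod.snd_add] at n2 ⊢
      have : p.2 < t.2 ↔ p.2 < t.2 + 1 := by omega
      rw [this]
    · unfold KC
      have : (t0 < i ∨ t0 = i ∧ p.2 < t.2) ↔ (t0 < i ∨ t0 = i ∧ p.2 < (t + dir k).2) := by
        constructor <;> rintro (h3 | h3)
        · exact Or.inl h3
        · exact absurd h3.1 h2
        · exact Or.inl h3
        · exact absurd h3.1 h2
      rw [this]
  · have h1 := ct_fwd hn hc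
    have c1 : (S.P.side i).1 + dir (S.k i) = (S.P.side j).1 := by
      rw [ek]
      have : (S.P.side j).1 = ct (2 * (h : ℤ)) (t + dir k) - dir (k - 1) := by rw [b4]; abel
      rw [this, h1, a4]; abel
    have nx : S.P.side (i + 1) = ((S.P.side j).1, S.k i) := by
      rw [Pool.Agent.H47.W.side_succ]
      unfold nextSide
      change (if (S.P.side i).1 + dir (S.k i) + dir (S.k i - 1) ∈ S.P.Q then _ else
        if (S.P.side i).1 + dir (S.k i) ∈ S.P.Q then _ else _) = _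
      rw [if_neg, if_pos (by rw [c1]; exact (isSide_side' S.P j).1)]
      · exact Prod.ext c1 rfl
      · rw [c1, ek1, ← b4]
        exact o2
    have kn : S.k (i + 1) = S.k i := by
      have := congrArg Prod.snd nx
      exact this
    obtain ⟨m2, m3, mN⟩ := no_mark (S := S) (i := i) (by omega)
    rcases next_idx hi hj (by rw [nx]) (by omega) with ⟨h3, h4⟩ | ⟨h3, -⟩
    · subst h3
      refine X.col_next hh m2 m3 a3 d1 ?_ b3 ?_
      · rw [ek]; exact fun e => hc e.symm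
      · rw [fk, add_sub_cancel_right]; exact hc
    · exact absurd h3 mN

end

end Pool.Agent.H97.W
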