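import Mathlib
import Pool.Agent.H97.W.WldB

set_option autoImplicit false
open Finset

/-! # Convex vertices and marks of the glued world

`cvx_at` : a vertex with one tile of the polygon is the head of a side before a left turn. `yy_val` : the far
ends. `ExT.cvx` : the tiles round a convex vertex. -/

namespace Pool.Agent.H97.W

open Pool.Agent.H75.Perc hiding WL CT hh PB EE
open Pool.Agent.H75.TwoArm Pool.Agent.H99.W Pool.Agent.H13.W
open Pool.Agent.H33.Q1 Pool.Agent.H21.FM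
open Pool.Agent.Q1.M4 (Cell Good IsSide nextSide tail head PType)
open Pool.Agent.H45.W (sq od ev)
open Pool.Agent.H47.W (sd hz vt mkS mkS_true mkS_false vx3 vx3_lt oc_head posN lamV3 mk3 ott dg_ott)
open Pool.Agent.H74.W (Lam3 Del Ex Wp yy GW Cv Aft mem_Wp)
open Pool.Agent.H37.W (dg dg_eq dg_not_LY)

section

variable {S : Shape} {h : ℕ} {p t t' V : ℤ × ℤ} {x1 : ℤ} {t0 : ℕ}

/-! ### Corners of the exit tile -/

lemma corner_of {j : ℤ} {x y : ℤ} (h : V + io j = (x, y)) :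
    x ≤ V.1 ∧ V.1 ≤ x + 1 ∧ y ≤ V.2 ∧ V.2 ≤ y + 1 := by
  have h1 := congrArg Prod.fst h
  have h2 := congrArg Prod.snd h
  simp only [Prod.fst_add, Prod.snd_add] at h1 h2
  rcases io_dir j with ⟨-, a, -⟩ | ⟨-, a, -⟩ | ⟨-, a, -⟩ | ⟨-, a, -⟩ <;> rw [a] at h1 h2 <;>
    simp only at h1 h2 <;> omega

lemma ExH.tiles (X : ExH S h p x1) (hh : 2 ≤ h)
    (hV : x1 ≤ V.1 ∧ V.1 ≤ x1 + 1 ∧ p.2 ≤ V.2 ∧ V.2 ≤ p.2 + 1) (j : ℤ) :
    ct (2 * (h : ℤ)) (V + io j) ∈ S.P.Q ↔ (V + io j).1 = x1 - 1 := by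
  have key : -1 ≤ (io j).1 ∧ (io j).1 ≤ 0 ∧ -1 ≤ (io j).2 ∧ (io j).2 ≤ 0 := by
    rcases io_dir j with ⟨-, a, -⟩ | ⟨-, a, -⟩ | ⟨-, a, -⟩ | ⟨-, a, -⟩ <;> rw [a] <;> simp
  have e : V + io j = (x1 + (V.1 + (io j).1 - x1), p.2 + (V.2 + (io j).2 - p.2)) := by
    refine Prod.ext ?_ ?_ <;> simp only [Prod.fst_add, Prod.snd_add] <;> ring
  have h1 := X.near hh (a := V.1 + (io j).1 - x1) (b := V.2 + (io j).2 - p.2) (by omega) (by omega)
    (by omega) (by omega)
  rw [← e] at h1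
  rw [h1]
  simp only [Prod.fst_add]
  omega

/-- the vertices of the exit tile are not convex -/
lemma ExH.no_cvx (X : ExH S h p x1) (hh : 2 ≤ h) {k : ℤ}
    (hf : ct (2 * (h : ℤ)) (V + io (k + 1)) ∈ S.P.Q)
    (hL : ct (2 * (h : ℤ)) (V + io (k + 2)) ∉ S.P.Q) (hR : ct (2 * (h : ℤ)) (V + io k) ∉ S.P.Q)
    (j : ℤ) : V + io j ≠ (x1, p.2) := by
  intro he
  have hV := corner_of he
  rw [X.tiles hh hV] at hf hL hR
  simp only [Prod.fst_add] at hf hL hR
  have e1 : k + 1 - 1 = k := by ring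
  have e2 : k + 1 + 1 = k + 2 := by ring
  rcases rot (k + 1) with ⟨-, a, b, c, -⟩ | ⟨-, a, b, c, -⟩ | ⟨-, a, b, c, -⟩ | ⟨-, a, b, c, -⟩ <;>
    rw [e1] at b <;> rw [e2] at c <;> rw [a] at hf <;> rw [c] at hL <;> rw [b] at hR <;>
    simp only at hf hL hR <;> omega

/-! ### Convex vertices -/

lemma ct_cross {n : ℤ} {k : ℤ} (h1 : ct n (t + dir (k - 1)) = ct n t + dir (k - 1)) :
    ct n (t + dir k + dir (k - 1)) = ct n (t + dir k) + dir (k - 1) := by
  unfold ct at *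
  rcases rot k with ⟨-, -, -, -, a, b, -⟩ | ⟨-, -, -, -, a, b, -⟩ | ⟨-, -, -, -, a, b, -⟩ |
    ⟨-, -, -, -, a, b, -⟩ <;> rw [b] at h1 <;> rw [a, b] <;>
    simp only [Prod.ext_iff, Prod.fst_add, Prod.snd_add, add_zero] at h1 ⊢ <;>
    simp_all

lemma fL (V : ℤ × ℤ) (k : ℤ) : V + io (k + 2) - dir (k - 1) = V + io (k + 1) ∧
    V + io k = V + io (k + 1) + dir k ∧ V + io (k - 1) = V + io k + dir (k - 1) ∧
    V + io (k + 2) = V + io (k + 1) + dir (k - 1) := by
  have h1 := io_pred (k + 2)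
  have h2 := io_pred (k + 1)
  have h3 := io_pred k
  have e1 : k + 2 - 1 = k + 1 := by ring
  rw [e1, dir_m] at h1
  rw [add_sub_cancel_right] at h2
  refine ⟨?_, ?_, ?_, ?_⟩
  · rw [h1]; abel
  · rw [h2]; abel
  · rw [h3]; abel
  · rw [h1]; abel

/-- **a convex vertex** is the head of a side before a left turn -/
theorem cvx_at (hh : 1 ≤ h) {k : ℤ} (hf : ct (2 * (h : ℤ)) (V + io (k + 1)) ∈ S.P.Q)
    (hL : ct (2 * (h : ℤ)) (V + io (k + 2)) ∉ S.P.Q)
    (hG : ct (2 * (h : ℤ)) (V + io (k - 1)) ∉ S.P.Q) (hR : ct (2 * (h : ℤ)) (V + io k) ∉ S.P.Q) :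
    ∃ i < S.N, (S.k i - k) % 4 = 0 ∧
      S.P.side (i + 1) = ((S.P.side i).1, (S.P.side i).2 + 1) ∧
      V = wp (2 * h) (S.P.side i) (2 * h) ∧ lt (V + io (k + 2)) ∈ LY (2 * h) (S.P.side i) ∧
      lt (V + io k) ∈ LY (2 * h) (S.P.side (i + 1)) ∧
      (S.P.side i).1 = ct (2 * (h : ℤ)) (V + io (k + 1)) := by
  have hn : (0 : ℤ) < 2 * h := by omega
  obtain ⟨f1, f2, f3, f4⟩ := fL V k
  obtain ⟨i, hi, a1, a2, a3⟩ := ly_exists (t := V + io (k + 2)) (k := k) hh hL (by rw [f1]; exact hf)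
  rw [f1] at a1
  obtain ⟨-, a4, -⟩ := ly_data hh a3
  have ek : dir (S.k i) = dir k := Pool.Agent.H21.FM.dir_congr (by omega)
  have ek1 : dir (S.k i - 1) = dir (k - 1) := Pool.Agent.H21.FM.dir_congr (by omega)
  have eo : io (S.k i) = io k := io_congr (by omega)
  rw [ek1] at a4
  -- the cells
  have cR : ct (2 * (h : ℤ)) (V + io k) = (S.P.side i).1 + dir k := by
    rw [f2, a1]
    refine ct_fwd hn ?_
    rw [← f2]
    intro e
    exact hR (e ▸ hf)
  have cL : ct (2 * (h : ℤ)) (V + io (k + 1) + dir (k - 1)) = ct (2 * (h : ℤ)) (V + io (k + 1)) +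
      dir (k - 1) := by
    rw [← f4, a4, a1]
  have cG : ct (2 * (h : ℤ)) (V + io (k - 1)) = (S.P.side i).1 + dir k + dir (k - 1) := by
    have := ct_cross cL
    rw [← f2, ← f3, cR] at this
    exact this
  have nx : S.P.side (i + 1) = ((S.P.side i).1, (S.P.side i).2 + 1) := by
    rw [Pool.Agent.H47.W.side_succ]
    unfold nextSide
    change (if (S.P.side i).1 + dir (S.k i) + dir (S.k i - 1) ∈ S.P.Q then _ else
      if (S.P.side i).1 + dir (S.k i) ∈ S.P.Q then _ else _) = _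
    rw [ek, ek1, if_neg (by rw [← cG]; exact hG), if_neg (by rw [← cR]; exact hR)]
  refine ⟨i, hi, a2, nx, ?_, a3, ?_, a1⟩
  · obtain ⟨⟨b1, b2⟩, b3, b4⟩ := (ct_eq hn).1 a1.symm
    obtain ⟨⟨c1, c2⟩, c3, c4⟩ := (ct_eq hn).1 cR
    obtain ⟨⟨d1, d2⟩, d3, d4⟩ := (ct_eq hn).1 a4
    unfold wp
    rw [tail_io]
    change V = (2 * (h : ℤ) * ((S.P.side i).1 - io (S.k i)).1 + 2 * (h : ℤ) * (dir (S.k i)).1,
      2 * (h : ℤ) * ((S.P.side i).1 - io (S.k i)).2 + 2 * (h : ℤ) * (dir (S.k i)).2)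
    rw [ek, eo]
    have g1 := io_pred (k + 2)
    have e1 : k + 2 - 1 = k + 1 := by ring
    rw [e1, dir_m] at g1
    have g2 : io (k + 2) = io (k + 1) + dir (k - 1) := by rw [g1]; abel
    rw [g2] at d1 d2 d3 d4
    rcases rot k with ⟨-, a, -, b, c, d, -⟩ | ⟨-, a, -, b, c, d, -⟩ | ⟨-, a, -, b, c, d, -⟩ |
      ⟨-, a, -, b, c, d, -⟩ <;>
      simp only [a, b, c, d, Prod.fst_add, Prod.snd_add, Prod.fst_sub, Prod.snd_sub] at * <;>
      refine Prod.ext ?_ ?_ <;> simp only <;> linarith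
  · rw [nx, mem_LY hn, tt_lt]
    simp only
    have e1 : (S.P.side i).2 + 1 - 1 = S.k i := by unfold Shape.k; ring
    rw [e1, ek]
    refine ⟨lt_odd _, cR, ?_⟩
    rw [f2, add_sub_cancel_right, a1]

/-! ### The far ends -/

lemma vx_val : vx3 S 0 = S.N - 1 ∧ vx3 S 1 = S.m2 - 1 ∧ vx3 S 2 = S.m3 - 1 := by
  refine ⟨?_, ?_, ?_⟩
  · unfold vx3; rw [if_pos rfl]
  · unfold vx3; rw [if_neg (by decide), if_pos rfl]
  · unfold vx3; rw [if_neg (by decide), if_neg (by decide)]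

/-- **the far ends** in terms of the side of the exit -/
theorem ExT.yy_val (X : ExT S h p x1 t0) : yy S h p 0 = mkS (2 * h) (S.P.side (vx3 S 0)) true ∧
    yy S h p 1 = mkS (2 * h) (S.P.side (vx3 S 1)) (decide (t0 < S.m2)) ∧
    yy S h p 2 = mkS (2 * h) (S.P.side (vx3 S 2)) (decide (¬ t0 < S.m3)) := by
  classical
  obtain ⟨a1, a2, a3⟩ := posN (S := S)
  obtain ⟨w0, w1, w2⟩ := vx_val (S := S)
  have hx : ∀ m, (∃ t, Ex S h p t ∧ t < m) ↔ t0 < m := by
    intro m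
    constructor
    · rintro ⟨t, h1, h2⟩
      rwa [(X.ex t).1 h1] at h2
    · intro h1
      exact ⟨t0, (X.ex t0).2 rfl, h1⟩
  refine ⟨?_, ?_, ?_⟩
  · have e : vx3 S 0 + 1 = S.N := by omega
    have hc := S.cvx (vx3 S 0) (Or.inr (Or.inr (Or.inr e)))
    unfold yy
    rw [if_pos rfl, ← oc_head (h := h) (vx3 S 0) true hc (k := S.k (vx3 S 0 + 1) + 1) (by simp), e,
      Pool.Agent.H21.FM.wv_side_N, S.kN]
    unfold Pool.Agent.H21.FM.r1 v1
    exact Pool.Agent.H5.Q1.oc_congr _ (by omega)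
  · have e : vx3 S 1 + 1 = S.m2 := by omega
    have hc := S.cvx (vx3 S 1) (Or.inl e)
    unfold yy
    rw [if_neg (by decide), if_pos rfl, hx]
    by_cases h1 : t0 < S.m2
    · rw [if_pos h1, ← oc_head (h := h) (vx3 S 1) (decide (t0 < S.m2)) hc
        (k := S.k (vx3 S 1 + 1) + 1) (by simp [h1]), e]
    · rw [if_neg h1, ← oc_head (h := h) (vx3 S 1) (decide (t0 < S.m2)) hc
        (k := S.k (vx3 S 1 + 1) + 0) (by simp [h1]), e]
  · have e : vx3 S 2 + 1 = S.m3 := by omega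
    have hc := S.cvx (vx3 S 2) (Or.inr (Or.inl e))
    unfold yy
    rw [if_neg (by decide), if_neg (by decide), hx]
    by_cases h1 : t0 < S.m3
    · rw [if_pos h1, ← oc_head (h := h) (vx3 S 2) (decide (¬ t0 < S.m3)) hc
        (k := S.k (vx3 S 2 + 1) + 0) (by simp [h1]), e]
    · rw [if_neg h1, ← oc_head (h := h) (vx3 S 2) (decide (¬ t0 < S.m3)) hc
        (k := S.k (vx3 S 2 + 1) + 1) (by simp only [h1]; simp), e]

lemma LY_N : LY (2 * (h : ℤ)) (S.P.side S.N) = LY (2 * (h : ℤ)) (S.P.side 0) := by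
  have : S.P.side S.N = ((S.P.side 0).1, (S.P.side 0).2 + 4) := by
    have := Pool.Agent.H33.Q1.side_period S.P 0
    rwa [Nat.add_zero] at this
  rw [this, LY_four]

lemma k_N : S.k S.N = S.k 0 + 4 := by
  have := Pool.Agent.H33.Q1.side_period S.P 0
  rw [Nat.add_zero] at this
  unfold Shape.k
  rw [show S.N = S.P.N from rfl, this]

/-- the sides at a mark -/
lemma mk_sd {i : ℕ} {k : ℤ} (hV : V = wp (2 * h) (S.P.side i) (2 * h)) (hk : (S.k i - k) % 4 = 0) :
    mkS (2 * h) (S.P.side i) true = sd V k ∧ mkS (2 * h) (S.P.side i) false = sd V (k - 1) := by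
  rw [mkS_true, mkS_false, ← hV]
  unfold Shape.k at hk
  exact ⟨sd_cong V (by omega), sd_cong V (by omega)⟩

/-- **a mark**: one of the two layer tiles is closed, the far end is its side to the missing tile -/
theorem ExT.mark (X : ExT S h p x1 t0) (hh : 2 ≤ h) {i : ℕ} {j : Fin 3} (hi : i = vx3 S j) {k : ℤ}
    (hV : V = wp (2 * h) (S.P.side i) (2 * h)) (hk : (S.k i - k) % 4 = 0)
    (hc : S.P.side (i + 1) = ((S.P.side i).1, (S.P.side i).2 + 1))
    (h1 : lt t ∈ LY (2 * h) (S.P.side i)) (d1 : lt t ∉ Del S.P.Q (2 * h) p)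
    (l1 : ct (2 * (h : ℤ)) (t + dir (S.k i)) ≠ ct (2 * (h : ℤ)) t)
    (h2 : lt t' ∈ LY (2 * h) (S.P.side (i + 1))) (d2 : lt t' ∉ Del S.P.Q (2 * h) p)
    (l2 : ct (2 * (h : ℤ)) (t' - dir (S.k (i + 1))) ≠ ct (2 * (h : ℤ)) t') :
    (yy S h p j = sd V k ∧ lt t' ∉ Wp S h p ∧ lt t ∈ Wp S h p) ∨
      (yy S h p j = sd V (k - 1) ∧ lt t ∉ Wp S h p ∧ lt t' ∈ Wp S h p) := by
  classical
  obtain ⟨a1, a2, a3⟩ := posN (S := S)
  obtain ⟨v0, v1, v2⟩ := vx_val (S := S)
  obtain ⟨y0, y1, y2⟩ := X.yy_val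
  obtain ⟨s1, s2⟩ := mk_sd (h := h) hV hk
  have hiN : i < S.N := hi ▸ vx3_lt j
  rw [X.wp_iff hh hiN h1 d1]
  have hlast : t0 = i → p.2 < t.2 := by
    rintro rfl
    exact X.last hh h1 d1 l1
  have hj : j = 0 ∨ j = 1 ∨ j = 2 := by omega
  rcases hj with rfl | rfl | rfl
  · -- the vertex `N`
    have e : i + 1 = S.N := by omega
    left
    rw [y0, ← hi, s1]
    rw [e, LY_N] at h2
    rw [e, k_N] at l2
    have hd : dir (S.k 0 + 4) = dir (S.k 0) := Pool.Agent.H21.FM.dir_congr (by omega)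
    rw [hd] at l2
    rw [X.wp_iff hh (by omega) h2 d2]
    have hfirst : t0 = 0 → ¬ p.2 < t'.2 := by
      rintro rfl
      exact X.first hh h2 l2
    have ht := X.lt0
    refine ⟨rfl, ?_, ?_⟩
    · unfold KC
      rw [not_not]
      constructor
      · intro h3; omega
      · rintro (h3 | ⟨h3, h4⟩)
        · omega
        · exact absurd h4 (hfirst h3)
    · unfold KC
      intro h3
      have h4 : t0 < i ∨ (t0 = i ∧ p.2 < t.2) := by
        rcases lt_or_eq_of_le (show t0 ≤ i by omega) with h5 | h5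
        · exact Or.inl h5
        · exact Or.inr ⟨h5, hlast h5⟩
      have := h3.2 h4
      omega
  · -- the vertex `m2`
    have e : i + 1 = S.m2 := by omega
    rw [X.wp_iff hh (by omega) h2 d2]
    rw [e] at h2 l2 ⊢
    have hfirst : t0 = S.m2 → ¬ p.2 < t'.2 := by
      intro h3
      rw [← h3] at h2 l2
      exact X.first hh h2 l2
    rw [y1, ← hi]
    by_cases ht : t0 < S.m2
    · left
      rw [decide_eq_true ht, s1]
      refine ⟨rfl, ?_, ?_⟩
      · unfold KC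
        rw [not_not]
        exact ⟨fun _ => Or.inl ht, fun _ => ⟨le_rfl, by omega⟩⟩
      · unfold KC
        intro h3
        have h4 : t0 < i ∨ (t0 = i ∧ p.2 < t.2) := by
          rcases lt_or_eq_of_le (show t0 ≤ i by omega) with h5 | h5
          · exact Or.inl h5
          · exact Or.inr ⟨h5, hlast h5⟩
        have := h3.2 h4
        omega
    · right
      rw [decide_eq_false ht, s2]
      refine ⟨rfl, ?_, ?_⟩
      · unfold KC
        rw [not_not]
        constructor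
        · intro h3; omega
        · rintro (h3 | ⟨h3, h4⟩) <;> omega
      · unfold KC
        intro h3
        rcases h3.1 ⟨le_rfl, by omega⟩ with h4 | ⟨h4, h5⟩
        · exact ht h4
        · exact hfirst h4 h5
  · -- the vertex `m3`
    have e : i + 1 = S.m3 := by omega
    rw [X.wp_iff hh (by omega) h2 d2]
    rw [e] at h2 l2 ⊢
    have hfirst : t0 = S.m3 → ¬ p.2 < t'.2 := by
      intro h3
      rw [← h3] at h2 l2
      exact X.first hh h2 l2
    rw [y2, ← hi]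
    by_cases ht : t0 < S.m3
    · right
      rw [decide_eq_false (not_not.2 ht), s2]
      refine ⟨rfl, ?_, ?_⟩
      · unfold KC
        rw [not_not]
        refine ⟨fun _ => ?_, fun _ => ⟨by omega, by omega⟩⟩
        rcases lt_or_eq_of_le (show t0 ≤ i by omega) with h5 | h5
        · exact Or.inl h5
        · exact Or.inr ⟨h5, hlast h5⟩
      · unfold KC
        intro h3
        have := h3.2 (Or.inl ht)
        omega
    · left
      rw [decide_eq_true ht, s1]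
      refine ⟨rfl, ?_, ?_⟩
      · unfold KC
        rw [not_not]
        constructor
        · intro h3; omega
        · rintro (h3 | ⟨h3, h4⟩)
          · exact absurd h3 ht
          · exact absurd h4 (hfirst h3)
      · unfold KC
        intro h3
        rcases h3.1 ⟨by omega, by omega⟩ with h4 | ⟨h4, -⟩ <;> omega

end

end Pool.Agent.H97.W
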