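import Mathlib
import Pool.Agent.H97.W.WldC
import Pool.Agent.H29.W.WldX

set_option autoImplicit false
open Finset

/-! # The tiles round a vertex at the wall

`ExT.cvx` : the tiles round a convex vertex. `ExT.nxt_v` : the next tile round a vertex. -/

namespace Pool.Agent.H97.W

open Pool.Agent.H75.Perc hiding WL CT hh PB EE
open Pool.Agent.H75.TwoArm Pool.Agent.H99.W Pool.Agent.H13.W
open Pool.Agent.H33.Q1 Pool.Agent.H21.FM
open Pool.Agent.Q1.M4 (Cell Good IsSide nextSide tail head PType)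
open Pool.Agent.H45.W (sq od ev Pass)
open Pool.Agent.H47.W (sd hz vt mkS mkS_true mkS_false vx3 vx3_lt oc_head posN lamV3 mk3 ott dg_ott
  ott_one ott_zero mem_Lam3 mk3_red mk3_of)
open Pool.Agent.H74.W (Lam3 Del Ex Wp yy GW Cv Aft mem_Wp)
open Pool.Agent.H37.W (dg dg_eq dg_not_LY)

section

variable {S : Shape} {h : ℕ} {p t t' V : ℤ × ℤ} {x1 : ℤ} {t0 : ℕ}

/-- the admissible ends -/
def FF (S : Shape) (h : ℕ) (p : ℤ × ℤ) : Set (ℤ × ℤ) := {eW (lt p)} ∪ Set.range (yy S h p)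

/-- a tile of a layer belongs to the region -/
lemma ly_lam {i : ℕ} (hi : i ≤ S.N) (h1 : lt t ∈ LY (2 * h) (S.P.side i)) :
    lt t ∈ (Lam3 S h : Set (ℤ × ℤ)) := by
  obtain ⟨a1, a2, a3⟩ := posN (S := S)
  rcases lt_or_eq_of_le hi with h2 | h2
  · exact LY_Lam h2 h1
  · rw [h2, LY_N] at h1
    exact LY_Lam (by omega) h1

/-- **the tiles round a convex vertex** -/
theorem ExT.cvx (X : ExT S h p x1 t0) (hh : 2 ≤ h) {k : ℤ}
    (hf : ct (2 * (h : ℤ)) (V + io (k + 1)) ∈ S.P.Q)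
    (hL : ct (2 * (h : ℤ)) (V + io (k + 2)) ∉ S.P.Q)
    (hG : ct (2 * (h : ℤ)) (V + io (k - 1)) ∉ S.P.Q) (hR : ct (2 * (h : ℤ)) (V + io k) ∉ S.P.Q) :
    (pv V).1 % 2 = 0 ∧ lt (V + io (k + 2)) ∉ Del S.P.Q (2 * h) p ∧
      lt (V + io (k - 1)) ∉ Del S.P.Q (2 * h) p ∧ lt (V + io k) ∉ Del S.P.Q (2 * h) p ∧
      lt (V + io (k - 1)) ∉ Wp S h p ∧ lt (V + io (k + 2)) ∈ (Lam3 S h : Set (ℤ × ℤ)) ∧
      lt (V + io k) ∈ (Lam3 S h : Set (ℤ × ℤ)) ∧
      ((lt (V + io (k - 1)) ∈ (Lam3 S h : Set (ℤ × ℤ)) ∧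
          (lt (V + io (k + 2)) ∈ Wp S h p ↔ lt (V + io k) ∈ Wp S h p)) ∨
        (lt (V + io (k - 1)) ∉ (Lam3 S h : Set (ℤ × ℤ)) ∧ ∃ j : Fin 3,
          lt (V + io (k - 1)) = dg S h (vx3 S j) ∧
          ((yy S h p j = sd V k ∧ lt (V + io k) ∉ Wp S h p ∧ lt (V + io (k + 2)) ∈ Wp S h p) ∨
          (yy S h p j = sd V (k - 1) ∧ lt (V + io (k + 2)) ∉ Wp S h p ∧
            lt (V + io k) ∈ Wp S h p)))) := by
  have hn : (0 : ℤ) < 2 * h := by omega
  obtain ⟨a1, a2, a3⟩ := posN (S := S)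
  obtain ⟨w0, w1, w2⟩ := vx_val (S := S)
  have nD : ∀ j : ℤ, ct (2 * (h : ℤ)) (V + io j) ∉ S.P.Q → lt (V + io j) ∉ Del S.P.Q (2 * h) p := by
    intro j h1 h2
    exact X.no_cvx hh hf hL hR j (X.del_out h2 h1)
  obtain ⟨i, hi, hk, hc, hV, hLy, hRy, hc0⟩ := cvx_at (by omega) hf hL hG hR
  obtain ⟨f1, f2, f3, f4⟩ := fL V k
  have ek : dir (S.k i) = dir k := Pool.Agent.H21.FM.dir_congr (by omega)
  have kn : S.k (i + 1) = S.k i + 1 := by
    have := congrArg Prod.snd hc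
    exact this
  have ek1 : dir (S.k (i + 1)) = -dir (k - 1) := by
    rw [← dir_m, kn]
    exact Pool.Agent.H21.FM.dir_congr (by omega)
  -- the tiles at the corner
  have l1 : ct (2 * (h : ℤ)) (V + io (k + 2) + dir (S.k i)) ≠ ct (2 * (h : ℤ)) (V + io (k + 2)) := by
    obtain ⟨-, b2, -⟩ := ly_data (by omega) hLy
    have eG : V + io (k + 2) + dir (S.k i) = V + io (k - 1) := by
      rw [ek, f4, f3, f2]; abel
    have cG : ct (2 * (h : ℤ)) (V + io (k - 1)) = ct (2 * (h : ℤ)) (V + io k) + dir (k - 1) := by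
      have ek2 : dir (S.k i - 1) = dir (k - 1) := Pool.Agent.H21.FM.dir_congr (by omega)
      have := ct_cross (n := 2 * (h : ℤ)) (t := V + io (k + 1)) (k := k) (by
        rw [← f4, b2, ek2, hc0])
      rwa [← f2, ← f3] at this
    obtain ⟨-, c2, c3⟩ := ly_data (by omega) hRy
    rw [eG, cG, c2, b2, kn, add_sub_cancel_right, hc]
    simp only
    have ek2 : dir (S.k i - 1) = dir (k - 1) := Pool.Agent.H21.FM.dir_congr (by omega)
    rw [ek2, ek]
    intro e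
    have e2 : dir k = 0 := by
      have e3 : (S.P.side i).1 + dir k + dir (k - 1) = (S.P.side i).1 + dir (k - 1) + dir k := by abel
      rw [e3] at e
      exact (add_eq_left).1 e
    rcases rot k with ⟨-, -, -, -, c, -⟩ | ⟨-, -, -, -, c, -⟩ | ⟨-, -, -, -, c, -⟩ |
      ⟨-, -, -, -, c, -⟩ <;> rw [c] at e2 <;> exact absurd e2 (by decide)
  have l2 : ct (2 * (h : ℤ)) (V + io k - dir (S.k (i + 1))) ≠ ct (2 * (h : ℤ)) (V + io k) := by
    obtain ⟨-, b2, -⟩ := ly_data (by omega) hLy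
    obtain ⟨-, c2, c3⟩ := ly_data (by omega) hRy
    have ek2 : dir (S.k i - 1) = dir (k - 1) := Pool.Agent.H21.FM.dir_congr (by omega)
    have cG : ct (2 * (h : ℤ)) (V + io (k - 1)) = ct (2 * (h : ℤ)) (V + io k) + dir (k - 1) := by
      have := ct_cross (n := 2 * (h : ℤ)) (t := V + io (k + 1)) (k := k) (by
        rw [← f4, b2, ek2, hc0])
      rwa [← f2, ← f3] at this
    rw [ek1, sub_neg_eq_add, ← f3, cG]
    intro e
    have e2 : dir (k - 1) = 0 := (add_eq_left).1 e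
    rcases rot k with ⟨-, -, -, -, -, c, -⟩ | ⟨-, -, -, -, -, c, -⟩ | ⟨-, -, -, -, -, c, -⟩ |
      ⟨-, -, -, -, -, c, -⟩ <;> rw [c] at e2 <;> exact absurd e2 (by decide)
  -- the diagonal tile
  have eg : lt (V + io (k - 1)) = dg S h i := by
    rw [dg_eq]
    congr 1
    unfold Pool.Agent.H33.Q1.ot it
    rw [← hV, f3]
    have e1 : io (S.P.side i).2 = io k := io_congr (by unfold Shape.k at hk; omega)
    have e2 : dir ((S.P.side i).2 - 1) = dir (k - 1) :=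
      Pool.Agent.H21.FM.dir_congr (by unfold Shape.k at hk; omega)
    rw [e1, e2]
  have gW : lt (V + io (k - 1)) ∉ Wp S h p := by
    rw [eg, mem_Wp]
    rintro ⟨j, -, h1, -⟩
    exact dg_not_LY (by omega) hc h1
  refine ⟨?_, nD _ hL, nD _ hG, nD _ hR, gW, ly_lam hi.le hLy,
    ly_lam hi hRy, ?_⟩
  · rw [hV]
    unfold pv wp
    simp only
    have : 2 * (h : ℤ) * (tail (S.P.side i)).1 + 2 * (h : ℤ) * (dir (S.P.side i).2).1 -
        (2 * (h : ℤ) * (tail (S.P.side i)).2 + 2 * (h : ℤ) * (dir (S.P.side i).2).2) =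
        2 * ((h : ℤ) * ((tail (S.P.side i)).1 + (dir (S.P.side i).2).1 - (tail (S.P.side i)).2 -
          (dir (S.P.side i).2).2)) := by ring
    rw [this]
    omega
  · by_cases hm : i + 1 = S.m2 ∨ i + 1 = S.m3 ∨ i + 1 = S.N
    · right
      constructor
      · have h1 := (lamV3 (S := S) (h := h) (by omega)).mark i (mk3_of (by
          rw [Nat.mod_eq_of_lt hi]; exact hm))
        rw [dg_ott, Nat.mod_eq_of_lt hi, ← eg] at h1
        exact h1
      · have hj : ∃ j : Fin 3, i = vx3 S j := by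
          rcases hm with h1 | h1 | h1
          · exact ⟨1, by omega⟩
          · exact ⟨2, by omega⟩
          · exact ⟨0, by omega⟩
        obtain ⟨j, hj⟩ := hj
        refine ⟨j, by rw [← hj]; exact eg, X.mark hh hj hV hk hc hLy (nD _ hL) l1 hRy (nD _ hR) l2⟩
    · left
      push Not at hm
      obtain ⟨m2, m3, mN⟩ := hm
      constructor
      · rw [eg, mem_coe, mem_Lam3]
        exact Or.inr (Or.inr ⟨i, hi, ⟨hc, m2, m3, mN⟩, rfl⟩)
      · rw [X.wp_iff hh hi hLy (nD _ hL), X.wp_iff hh (by omega) hRy (nD _ hR)]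
        exact X.col_next hh m2 m3 hLy (nD _ hL) l1 hRy l2

end

end Pool.Agent.H97.W
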