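import Mathlib
import Pool.Agent.H97.W.WldD

set_option autoImplicit false
open Finset

/-! # The next tile round a vertex at the wall -/

namespace Pool.Agent.H97.W

open Pool.Agent.H75.Perc hiding WL CT hh PB EE
open Pool.Agent.H75.TwoArm Pool.Agent.H99.W Pool.Agent.H13.W
open Pool.Agent.H33.Q1 Pool.Agent.H21.FM
open Pool.Agent.Q1.M4 (Cell Good IsSide nextSide tail head PType)
open Pool.Agent.H45.W (sq od ev Pass)
open Pool.Agent.H47.W (sd hz vt)
open Pool.Agent.H74.W (Lam3 Del Ex Wp yy GW Cv Aft mem_Wp)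

section

variable {S : Shape} {h : ℕ} {p t t' V P c : ℤ × ℤ} {x1 : ℤ} {t0 : ℕ} {T : Finset (ℤ × ℤ)}

lemma side_v {u c : ℤ × ℤ} (h1 : sq c (lt u)) (h2 : sq c (lt (u + (0, 1)))) :
    c = eN (lt u) ∧ c = eS (lt (u + (0, 1))) := by
  unfold Pool.Agent.H45.W.sq lt at h1 h2
  unfold eN eS lt
  simp only [Prod.fst_add, Prod.snd_add] at h1 h2 ⊢
  constructor <;> refine Prod.ext ?_ ?_ <;> simp only <;> omega

lemma mem_w (hh : 1 ≤ h) (hT : T ⊆ EE S h) (ho : ct (2 * (h : ℤ)) t ∉ S.P.Q) :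
    lt t ∈ T ∪ Wp S h p ↔ lt t ∈ Wp S h p := by
  rw [mem_union]
  constructor
  · rintro (h1 | h1)
    · exfalso
      have h2 := hT h1
      unfold EE at h2
      rw [lt_mem_TL (by omega)] at h2
      exact ho h2
    · exact h1
  · exact Or.inr

lemma wall_lam (hh : 1 ≤ h) {k : ℤ} (h0 : ct (2 * (h : ℤ)) t ∉ S.P.Q)
    (h1 : ct (2 * (h : ℤ)) (t - dir (k - 1)) ∈ S.P.Q) : lt t ∈ (Lam3 S h : Set (ℤ × ℤ)) := by
  obtain ⟨i, hi, -, -, h2⟩ := ly_exists hh h0 h1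
  exact LY_Lam hi h2

lemma ExH.dir_exit (X : ExH S h p x1) (hh : 2 ≤ h) {k : ℤ}
    (h1 : ct (2 * (h : ℤ)) ((x1, p.2) - dir (k - 1)) ∈ S.P.Q) : dir k = (0, 1) := by
  rcases rot k with ⟨-, -, -, -, a, b, -⟩ | ⟨-, -, -, -, a, b, -⟩ | ⟨-, -, -, -, a, b, -⟩ |
    ⟨-, -, -, -, a, b, -⟩ <;> rw [b] at h1
  · exfalso
    have e : ((x1, p.2) - (0, -1) : ℤ × ℤ) = (x1 + 0, p.2 + 1) := by
      refine Prod.ext ?_ ?_ <;> simp
    rw [e, X.near hh (by omega) (by omega) (by omega) (by omega)] at h1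
    omega
  · exact a
  · exfalso
    have e : ((x1, p.2) - (0, 1) : ℤ × ℤ) = (x1 + 0, p.2 + -1) := by
      refine Prod.ext ?_ ?_ <;> simp; ring
    rw [e, X.near hh (by omega) (by omega) (by omega) (by omega)] at h1
    omega
  · exfalso
    have e : ((x1, p.2) - (-1, 0) : ℤ × ℤ) = (x1 + 1, p.2 + 0) := by
      refine Prod.ext ?_ ?_ <;> simp
    rw [e, X.near hh (by omega) (by omega) (by omega) (by omega)] at h1
    omega

/-- backwards along a straight wall -/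
theorem ExT.pass_back (X : ExT S h p x1 t0) (hh : 2 ≤ h) (hT : T ⊆ EE S h) {k : ℤ}
    (o1 : ct (2 * (h : ℤ)) t ∉ S.P.Q) (o2 : ct (2 * (h : ℤ)) (t + dir k) ∉ S.P.Q)
    (i1 : ct (2 * (h : ℤ)) (t - dir (k - 1)) ∈ S.P.Q)
    (i2 : ct (2 * (h : ℤ)) (t + dir k - dir (k - 1)) ∈ S.P.Q)
    (hD : lt (t + dir k) ∉ Del S.P.Q (2 * h) p)
    (hw : lt (t + dir k) ∈ T ∪ Wp S h p ↔ P.1 % 2 = 1) (c1 : sq c (lt t))
    (c2 : sq c (lt (t + dir k))) :
    Pass (Lam3 S h : Set (ℤ × ℤ)) (Del S.P.Q (2 * h) p) (T ∪ Wp S h p) (FF S h p) (lt t) c P := by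
  by_cases d : lt t ∈ Del S.P.Q (2 * h) p
  · right; left
    refine ⟨wall_lam (by omega) o1 i1, d, Or.inr ?_⟩
    have e := X.del_out d o1
    have hk := X.dir_exit hh (by rw [← e]; exact i1)
    rw [hk] at c2
    exact (side_v c1 c2).1
  · left
    refine ⟨wall_lam (by omega) o1 i1, d, ?_⟩
    rw [mem_w (by omega) hT o1, X.col_straight hh o1 o2 i1 i2 d hD, ← mem_w (by omega) hT o2]
    exact hw

/-- forwards along a straight wall -/
theorem ExT.pass_fwd (X : ExT S h p x1 t0) (hh : 2 ≤ h) (hT : T ⊆ EE S h) {k : ℤ}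
    (o1 : ct (2 * (h : ℤ)) t ∉ S.P.Q) (o2 : ct (2 * (h : ℤ)) (t + dir k) ∉ S.P.Q)
    (i1 : ct (2 * (h : ℤ)) (t - dir (k - 1)) ∈ S.P.Q)
    (i2 : ct (2 * (h : ℤ)) (t + dir k - dir (k - 1)) ∈ S.P.Q)
    (hD : lt t ∉ Del S.P.Q (2 * h) p)
    (hw : lt t ∈ T ∪ Wp S h p ↔ P.1 % 2 = 1) (c1 : sq c (lt t)) (c2 : sq c (lt (t + dir k))) :
    Pass (Lam3 S h : Set (ℤ × ℤ)) (Del S.P.Q (2 * h) p) (T ∪ Wp S h p) (FF S h p)
      (lt (t + dir k)) c P := by
  by_cases d : lt (t + dir k) ∈ Del S.P.Q (2 * h) p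
  · right; left
    refine ⟨wall_lam (by omega) o2 i2, d, Or.inl ?_⟩
    have e := X.del_out d o2
    have hk := X.dir_exit hh (k := k) (by rw [← e]; exact i2)
    rw [hk] at c2 ⊢
    exact (side_v c1 c2).2
  · left
    refine ⟨wall_lam (by omega) o2 i2, d, ?_⟩
    rw [mem_w (by omega) hT o2, ← X.col_straight hh o1 o2 i1 i2 hD d, ← mem_w (by omega) hT o1]
    exact hw

/-- a closed tile at an even vertex -/
lemma pass_cl (hh : 1 ≤ h) (hT : T ⊆ EE S h) (hP : P.1 % 2 = 0)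
    (h1 : lt t ∈ (Lam3 S h : Set (ℤ × ℤ))) (h2 : lt t ∉ Del S.P.Q (2 * h) p)
    (h3 : lt t ∉ Wp S h p) (h4 : ct (2 * (h : ℤ)) t ∉ S.P.Q) :
    Pass (Lam3 S h : Set (ℤ × ℤ)) (Del S.P.Q (2 * h) p) (T ∪ Wp S h p) (FF S h p) (lt t) c P := by
  left
  refine ⟨h1, h2, ?_⟩
  rw [mem_w hh hT h4]
  exact ⟨fun h => absurd h h3, fun h => by omega⟩

lemma pass_out (hP : P.1 % 2 = 0) (hT : T ⊆ EE S h) (hh : 1 ≤ h)
    (h1 : lt t ∈ (Lam3 S h : Set (ℤ × ℤ))) (h2 : lt t ∉ Del S.P.Q (2 * h) p)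
    (h4 : ct (2 * (h : ℤ)) t ∉ S.P.Q)
    (h5 : Pass (Lam3 S h : Set (ℤ × ℤ)) (Del S.P.Q (2 * h) p) (T ∪ Wp S h p) (FF S h p) (lt t) c P) :
    lt t ∉ Wp S h p := by
  rcases h5 with h5 | h5 | h5
  · have := h5.2.2
    rw [mem_w hh hT h4] at this
    intro h6
    have := this.1 h6
    omega
  · exact absurd h5.2.1 h2
  · exact absurd h1 h5.1

/-- **the next tile round a vertex** -/
theorem ExT.nxt_v (X : ExT S h p x1 t0) (hh : 2 ≤ h) (hT : T ⊆ EE S h) {P e c c' : ℤ × ℤ}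
    (hPB : Pool.Agent.H45.W.PB (EE S h : Set (ℤ × ℤ)) P) (hP : ev P)
    (heL : e ∈ (Lam3 S h : Set (ℤ × ℤ))) (heQ : e ∉ (EE S h : Set (ℤ × ℤ)))
    (heD : e ∉ Del S.P.Q (2 * h) p) (hw : e ∈ T ∪ Wp S h p ↔ P.1 % 2 = 1) (s1 : sq c e)
    (s2 : sq c P) (s3 : sq c' e) (s4 : sq c' P) (hne : c' ≠ c)
    (hs : Pool.Agent.H45.W.ot c' e ∈ (EE S h : Set (ℤ × ℤ)) ∨
      Pass (Lam3 S h : Set (ℤ × ℤ)) (Del S.P.Q (2 * h) p) (T ∪ Wp S h p) (FF S h p)
        (Pool.Agent.H45.W.ot c' e) c' P) :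
    Pool.Agent.H45.W.ot c e ∈ (EE S h : Set (ℤ × ℤ)) ∨
      Pass (Lam3 S h : Set (ℤ × ℤ)) (Del S.P.Q (2 * h) p) (T ∪ Wp S h p) (FF S h p)
        (Pool.Agent.H45.W.ot c e) c P := by
  have hn : (0 : ℤ) < 2 * h := by omega
  have mQ : ∀ u : ℤ × ℤ, lt u ∈ (EE S h : Set (ℤ × ℤ)) ↔ ct (2 * (h : ℤ)) u ∈ S.P.Q := by
    intro u
    rw [mem_coe]
    unfold EE
    exact lt_mem_TL hn
  have he : od e := lam_odd (by omega) heL
  obtain ⟨V, k, rfl, rfl, hcc⟩ := dec2 he hP s1 s2 s3 s4 hne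
  rw [mQ] at heQ
  have hpb := PB_pv (fun e he => lam_odd (S := S) (H := h) (by omega) (EE_Lam he)) k hPB
  simp only [mQ] at hpb
  obtain ⟨o1, o2⟩ := oo_sd V k
  have e3 : io (k + 3) = io (k - 1) := io_congr (by omega)
  rw [e3] at hpb
  -- relations between the tiles
  have r1 : V + io (k - 1) + dir (k + 1) = V + io k := by
    rw [(fL V k).2.2.1, dir_m]; abel
  have r2 : V + io (k - 1) - dir (k + 1 - 1) = V + io (k + 2) := by
    have h1 := (fL V (k + 2)).2.1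
    have h2 : dir (k + 2) = -dir k := by
      have := dir_m (k + 1)
      rw [add_sub_cancel_right] at this
      rw [← this]; congr 1; ring
    rw [h2, show k + 2 + 1 = k + 3 from by ring, e3] at h1
    rw [add_sub_cancel_right, h1]; abel
  have r3 : V + io k - dir (k + 1 - 1) = V + io (k + 1) := by
    rw [add_sub_cancel_right, (fL V k).2.1]; abel
  have r4 : V + io k + dir (k + 2) = V + io (k + 1) := by
    have h2 : dir (k + 2) = -dir k := by
      have := dir_m (k + 1)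
      rw [add_sub_cancel_right] at this
      rw [← this]; congr 1; ring
    rw [h2, (fL V k).2.1]; abel
  have r5 : V + io k - dir (k + 2 - 1) = V + io (k - 1) := by
    have h2 : dir (k + 2 - 1) = -dir (k - 1) := by
      rw [← dir_m]; congr 1; ring
    rw [h2, (fL V k).2.2.1]; abel
  have r6 : V + io (k + 1) - dir (k + 2 - 1) = V + io (k + 2) := by
    have h2 : dir (k + 2 - 1) = -dir (k - 1) := by
      rw [← dir_m]; congr 1; ring
    rw [h2, (fL V k).2.2.2]; abel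
  rcases hcc with ⟨rfl, rfl⟩ | ⟨rfl, rfl⟩
  · -- target `k - 1`, source `k + 1`
    rw [o1]
    rw [o2] at hs
    rw [mQ] at hs ⊢
    by_cases i0 : ct (2 * (h : ℤ)) (V + io (k - 1)) ∈ S.P.Q
    · exact Or.inl i0
    right
    by_cases i1 : ct (2 * (h : ℤ)) (V + io (k + 1)) ∈ S.P.Q
    · by_cases i2 : ct (2 * (h : ℤ)) (V + io (k + 2)) ∈ S.P.Q
      · refine X.pass_back hh hT (k := k + 1) i0 (by rw [r1]; exact heQ) (by rw [r2]; exact i2)
          (by rw [r1, r3]; exact i1) (by rw [r1]; exact heD) (by rw [r1]; exact hw)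
          (sq_sd V k).2.1 (by rw [r1]; exact (sq_sd V k).1)
      · obtain ⟨hev, -, dG, -, wG, -, -, hm⟩ := X.cvx hh i1 i2 i0 heQ
        have hR : lt (V + io k) ∉ Wp S h p := by
          rw [mem_w (by omega) hT heQ] at hw
          intro h6
          have := hw.1 h6
          omega
        rcases hm with ⟨g1, -⟩ | ⟨g1, j, -, ⟨g2, -, -⟩ | ⟨-, -, g3⟩⟩
        · exact pass_cl (by omega) hT hev g1 dG wG i0
        · exact Or.inr (Or.inr ⟨g1, Or.inr ⟨j, g2⟩⟩)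
        · exact absurd g3 hR
    · have i2 : ct (2 * (h : ℤ)) (V + io (k + 2)) ∈ S.P.Q := by tauto
      have c1 : ct (2 * (h : ℤ)) (V + io (k + 1 + 1)) ∈ S.P.Q := by
        rw [show k + 1 + 1 = k + 2 from by ring]; exact i2
      have c2 : ct (2 * (h : ℤ)) (V + io (k + 1 + 2)) ∉ S.P.Q := by
        rw [show k + 1 + 2 = k + 3 from by ring, e3]; exact i0
      have c3 : ct (2 * (h : ℤ)) (V + io (k + 1 - 1)) ∉ S.P.Q := by
        rw [add_sub_cancel_right]; exact heQ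
      obtain ⟨hev, dL, dG, dR, wG, lL, lR, hm⟩ := X.cvx hh c1 c2 c3 i1
      rw [show k + 1 + 2 = k + 3 from by ring, e3] at dL lL hm
      rw [add_sub_cancel_right] at dG wG hm
      have hR := pass_out hev hT (by omega) lR dR i1 (hs.resolve_left i1)
      rcases hm with ⟨-, g1⟩ | ⟨g1, -⟩
      · exact pass_cl (by omega) hT hev lL dL (fun h6 => hR (g1.1 h6)) i0
      · exact absurd heL g1
  · -- target `k + 1`, source `k - 1`
    rw [o2]
    rw [o1] at hs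
    rw [mQ] at hs ⊢
    by_cases i0 : ct (2 * (h : ℤ)) (V + io (k + 1)) ∈ S.P.Q
    · exact Or.inl i0
    right
    by_cases i1 : ct (2 * (h : ℤ)) (V + io (k - 1)) ∈ S.P.Q
    · by_cases i2 : ct (2 * (h : ℤ)) (V + io (k + 2)) ∈ S.P.Q
      · have := X.pass_fwd hh hT (t := V + io k) (k := k + 2) (P := pv V) (c := sd V (k + 1)) heQ
          (by rw [r4]; exact i0) (by rw [r5]; exact i1) (by rw [r4, r6]; exact i2) heD hw
          (by have := (sq_sd V (k + 1)).2.1; rwa [add_sub_cancel_right] at this)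
          (by rw [r4]; exact (sq_sd V (k + 1)).1)
        rwa [r4] at this
      · have c1 : ct (2 * (h : ℤ)) (V + io (k - 2 + 1)) ∈ S.P.Q := by
          rw [show k - 2 + 1 = k - 1 from by ring]; exact i1
        have c2 : ct (2 * (h : ℤ)) (V + io (k - 2 + 2)) ∉ S.P.Q := by
          rw [sub_add_cancel]; exact heQ
        have e5 : io (k - 2 - 1) = io (k + 1) := io_congr (by omega)
        have e6 : io (k - 2) = io (k + 2) := io_congr (by omega)
        have e7 : sd V (k - 2 - 1) = sd V (k + 1) := sd_cong V (by omega)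
        obtain ⟨hev, dL, dG, dR, wG, lL, lR, hm⟩ := X.cvx hh (k := k - 2) c1 c2
          (by rw [e5]; exact i0) (by rw [e6]; exact i2)
        rw [e5] at dG wG hm
        rw [sub_add_cancel] at dL lL hm
        rw [e7] at hm
        have hL : lt (V + io k) ∉ Wp S h p := by
          rw [mem_w (by omega) hT heQ] at hw
          intro h6
          have := hw.1 h6
          omega
        rcases hm with ⟨g1, -⟩ | ⟨g1, j, -, ⟨-, -, g3⟩ | ⟨g2, -, -⟩⟩
        · exact pass_cl (by omega) hT hev g1 dG wG i0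
        · exact absurd g3 hL
        · exact Or.inr (Or.inr ⟨g1, Or.inr ⟨j, g2⟩⟩)
    · have i2 : ct (2 * (h : ℤ)) (V + io (k + 2)) ∈ S.P.Q := by tauto
      have c1 : ct (2 * (h : ℤ)) (V + io (k + 1 + 1)) ∈ S.P.Q := by
        rw [show k + 1 + 1 = k + 2 from by ring]; exact i2
      have c2 : ct (2 * (h : ℤ)) (V + io (k + 1 + 2)) ∉ S.P.Q := by
        rw [show k + 1 + 2 = k + 3 from by ring, e3]; exact i1
      have c3 : ct (2 * (h : ℤ)) (V + io (k + 1 - 1)) ∉ S.P.Q := by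
        rw [add_sub_cancel_right]; exact heQ
      obtain ⟨hev, dL, dG, dR, wG, lL, lR, hm⟩ := X.cvx hh c1 c2 c3 i0
      rw [show k + 1 + 2 = k + 3 from by ring, e3] at dL lL hm
      rw [add_sub_cancel_right] at dG wG hm
      have hL := pass_out hev hT (by omega) lL dL i1 (hs.resolve_left i1)
      rcases hm with ⟨-, g1⟩ | ⟨g1, -⟩
      · exact pass_cl (by omega) hT hev lR dR (fun h6 => hL (g1.2 h6)) i0
      · exact absurd heL g1

end

end Pool.Agent.H97.W
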