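import Mathlib
import Pool.Agent.H97.W.WldE

set_option autoImplicit false
open Finset

/-! # The glued world is a world

`wldV` : the local facts of the glued world `GW` (helper29's `WldX`), if the deleted row leaves the polygon
next to a straight wall (`ExH`). -/

namespace Pool.Agent.H97.W

open Pool.Agent.H75.Perc hiding WL CT hh PB EE
open Pool.Agent.H75.TwoArm Pool.Agent.H99.W Pool.Agent.H13.W
open Pool.Agent.H33.Q1 Pool.Agent.H21.FM
open Pool.Agent.Q1.M4 (Cell Good IsSide nextSide tail head PType)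
open Pool.Agent.H45.W (sq od ev Pass)
open Pool.Agent.H47.W (sd hz vt lamV3 FarT)
open Pool.Agent.H74.W (Lam3 Del Ex Wp yy GW Cv Aft mem_Wp)
open Pool.Agent.H29.W (WldX)

section

variable {S : Shape} {h : ℕ} {p t t' V P c : ℤ × ℤ} {x1 : ℤ} {t0 : ℕ} {T : Finset (ℤ × ℤ)}

lemma mem_EE (hh : 1 ≤ h) {u : ℤ × ℤ} : lt u ∈ (EE S h : Set (ℤ × ℤ)) ↔
    ct (2 * (h : ℤ)) u ∈ S.P.Q := by
  rw [mem_coe]
  unfold EE
  exact lt_mem_TL (by omega)

/-- the tiles next to the polygon belong to the region -/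
lemma lay_v (hh : 1 ≤ h) {e : ℤ × ℤ} (he : e ∈ (EE S h : Set (ℤ × ℤ))) (hs : sq c e) :
    Pool.Agent.H45.W.ot c e ∈ (Lam3 S h : Set (ℤ × ℤ)) := by
  have ho : od e := lam_odd (by omega) (EE_Lam he)
  obtain ⟨P, g1, g2, -⟩ := Pool.Agent.H45.W.exists_pt c 0 (Or.inl rfl)
  obtain ⟨V, k, rfl, rfl, -, hc⟩ := dec ho g1 hs g2
  obtain ⟨o1, o2⟩ := oo_sd V k
  rw [mem_EE hh] at he
  rcases hc with rfl | rfl
  · rw [o1]
    by_cases h1 : ct (2 * (h : ℤ)) (V + io (k - 1)) ∈ S.P.Q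
    · exact EE_Lam ((mem_EE hh).2 h1)
    · refine wall_lam hh (k := k) h1 ?_
      rw [(fL V k).2.2.1, add_sub_cancel_right]
      exact he
  · rw [o2]
    by_cases h1 : ct (2 * (h : ℤ)) (V + io (k + 1)) ∈ S.P.Q
    · exact EE_Lam ((mem_EE hh).2 h1)
    · refine wall_lam hh (k := k + 3) h1 ?_
      have h2 : dir (k + 3 - 1) = -dir k := by
        have := dir_m (k + 1)
        rw [add_sub_cancel_right] at this
        rw [← this]; congr 1; ring
      have h3 : V + io (k + 1) - dir (k + 3 - 1) = V + io k := by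
        rw [h2, (fL V k).2.1]; abel
      rw [h3]
      exact he

/-- indices of the sides at a straight wall -/
lemma straight_idx (hh : 1 ≤ h) {k : ℤ}
    (o1 : ct (2 * (h : ℤ)) t ∉ S.P.Q) (o2 : ct (2 * (h : ℤ)) (t + dir k) ∉ S.P.Q)
    (i1 : ct (2 * (h : ℤ)) (t - dir (k - 1)) ∈ S.P.Q)
    (i2 : ct (2 * (h : ℤ)) (t + dir k - dir (k - 1)) ∈ S.P.Q) :
    ∃ i j, i < S.N ∧ j < S.N ∧ lt t ∈ LY (2 * h) (S.P.side i) ∧
      lt (t + dir k) ∈ LY (2 * h) (S.P.side j) ∧ (S.k i - k) % 4 = 0 ∧ (S.k j - k) % 4 = 0 ∧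
      (S.P.side i).1 = ct (2 * (h : ℤ)) (t - dir (k - 1)) ∧
      (S.P.side j).1 = ct (2 * (h : ℤ)) (t + dir k - dir (k - 1)) ∧
      (j = i ∨ (j = i + 1 ∧ i + 1 ≠ S.m2 ∧ i + 1 ≠ S.m3)) := by
  have hn : (0 : ℤ) < 2 * h := by omega
  obtain ⟨i, hi, a1, a2, a3⟩ := ly_exists hh o1 i1
  obtain ⟨j, hj, b1, b2, b3⟩ := ly_exists hh o2 i2
  refine ⟨i, j, hi, hj, a3, b3, a2, b2, a1, b1, ?_⟩
  obtain ⟨-, a4, a5⟩ := ly_data hh a3
  obtain ⟨-, b4, b5⟩ := ly_data hh b3
  have ek : dir (S.k i) = dir k := Pool.Agent.H21.FM.dir_congr (by omega)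
  have ek1 : dir (S.k i - 1) = dir (k - 1) := Pool.Agent.H21.FM.dir_congr (by omega)
  have fk1 : dir (S.k j - 1) = dir (k - 1) := Pool.Agent.H21.FM.dir_congr (by omega)
  rw [ek1] at a4
  rw [fk1] at b4
  by_cases hc : ct (2 * (h : ℤ)) t = ct (2 * (h : ℤ)) (t + dir k)
  · left
    have h1 : (S.P.side i).1 = (S.P.side j).1 := by
      rw [a4, b4] at hc
      exact add_right_cancel hc
    exact (side_idx hi hj h1 (by omega)).symm
  · right
    have h1 := ct_fwd hn hc
    have c1 : (S.P.side i).1 + dir (S.k i) = (S.P.side j).1 := by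
      rw [ek]
      have : (S.P.side j).1 = ct (2 * (h : ℤ)) (t + dir k) - dir (k - 1) := by rw [b4]; abel
      rw [this, h1, a4]; abel
    have nx : S.P.side (i + 1) = ((S.P.side j).1, S.k i) := by
      rw [Pool.Agent.H47.W.side_succ]
      unfold nextSide
      change (if (S.P.side i).1 + dir (S.k i) + dir (S.k i - 1) ∈ S.P.Q then _ else
        if (S.P.side i).1 + dir (S.k i) ∈ S.P.Q then _ else _) = _
      rw [if_neg, if_pos (by rw [c1]; exact (isSide_side' S.P j).1)]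
      · exact Prod.ext c1 rfl
      · rw [c1, ek1, ← b4]
        exact o2
    have kn : S.k (i + 1) = S.k i := by
      have := congrArg Prod.snd nx
      exact this
    obtain ⟨m2, m3, mN⟩ := no_mark (S := S) (i := i) (by omega)
    rcases next_idx hi hj (by rw [nx]) (by omega) with ⟨h3, h4⟩ | ⟨h3, -⟩
    · exact ⟨h3, m2, m3⟩
    · exact absurd h3 mN

/-- **the colours at the exit are opposite** -/
theorem ExT.opp (X : ExT S h p x1 t0) (hh : 2 ≤ h) :
    lt (x1, p.2 + 1) ∈ Wp S h p ↔ lt (x1, p.2 - 1) ∉ Wp S h p := by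
  have d1 : dir 1 = (0, 1) := rfl
  have d0 : dir ((1 : ℤ) - 1) = (1, 0) := rfl
  have nr : ∀ a b : ℤ, -1 ≤ a → a ≤ 2 → -1 ≤ b → b ≤ 1 →
      (ct (2 * (h : ℤ)) (x1 + a, p.2 + b) ∈ S.P.Q ↔ a = -1) := fun a b a0 a1 b0 b1 =>
    X.near hh a0 a1 b0 b1
  have hup : lt (x1, p.2 + 1) ∈ Wp S h p ↔ ¬ (S.m2 ≤ t0 ∧ t0 < S.m3) := by
    have e1 : ((x1, p.2) + dir 1 : ℤ × ℤ) = (x1 + 0, p.2 + 1) := by
      rw [d1]; refine Prod.ext ?_ ?_ <;> simp
    have e2 : ((x1, p.2) : ℤ × ℤ) = (x1 + 0, p.2 + 0) := by simp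
    have e3 : ((x1, p.2) - dir ((1 : ℤ) - 1) : ℤ × ℤ) = (x1 + -1, p.2 + 0) := by
      rw [d0]; refine Prod.ext ?_ ?_ <;> simp; ring
    have e4 : ((x1, p.2) + dir 1 - dir ((1 : ℤ) - 1) : ℤ × ℤ) = (x1 + -1, p.2 + 1) := by
      rw [d0, d1]; refine Prod.ext ?_ ?_ <;> simp; ring
    obtain ⟨i, j, hi, hj, a1, a2, a3, a4, a5, a6, a7⟩ := straight_idx (S := S) (h := h)
      (t := (x1, p.2)) (k := 1) (by omega)
      (by rw [e2, nr 0 0 (by omega) (by omega) (by omega) (by omega)]; omega)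
      (by rw [e1, nr 0 1 (by omega) (by omega) (by omega) (by omega)]; omega)
      (by rw [e3, nr (-1) 0 (by omega) (by omega) (by omega) (by omega)])
      (by rw [e4, nr (-1) 1 (by omega) (by omega) (by omega) (by omega)])
    have e5 : ((x1 + -1, p.2 + 0) : ℤ × ℤ) = (x1 - 1, p.2) := by
      refine Prod.ext ?_ ?_ <;> simp; ring
    rw [e3, e5] at a5
    obtain rfl := side_idx X.lt0 hi (X.c0.trans a5.symm) (by have := X.k0; omega)
    have e6 : ((x1 + 0, p.2 + 1) : ℤ × ℤ) = (x1, p.2 + 1) := by simp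
    rw [e1, e6] at a2
    have hD : lt (x1, p.2 + 1) ∉ Del S.P.Q (2 * h) p := by
      rw [X.del_iff]; simp
    rw [X.wp_iff hh hj a2 hD]
    unfold KC
    simp only
    rcases a7 with rfl | ⟨rfl, m2, m3⟩ <;> omega
  have hdn : lt (x1, p.2 - 1) ∈ Wp S h p ↔ (S.m2 ≤ t0 ∧ t0 < S.m3) := by
    have e1 : ((x1, p.2 - 1) + dir 1 : ℤ × ℤ) = (x1 + 0, p.2 + 0) := by
      rw [d1]; refine Prod.ext ?_ ?_ <;> simp
    have e2 : ((x1, p.2 - 1) : ℤ × ℤ) = (x1 + 0, p.2 + -1) := by
      refine Prod.ext ?_ ?_ <;> simp; ring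
    have e3 : ((x1, p.2 - 1) - dir ((1 : ℤ) - 1) : ℤ × ℤ) = (x1 + -1, p.2 + -1) := by
      rw [d0]; refine Prod.ext ?_ ?_ <;> simp <;> ring
    have e4 : ((x1, p.2 - 1) + dir 1 - dir ((1 : ℤ) - 1) : ℤ × ℤ) = (x1 + -1, p.2 + 0) := by
      rw [d0, d1]; refine Prod.ext ?_ ?_ <;> simp; ring
    obtain ⟨i, j, hi, hj, a1, a2, a3, a4, a5, a6, a7⟩ := straight_idx (S := S) (h := h)
      (t := (x1, p.2 - 1)) (k := 1) (by omega)
      (by rw [e2, nr 0 (-1) (by omega) (by omega) (by omega) (by omega)]; omega)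
      (by rw [e1, nr 0 0 (by omega) (by omega) (by omega) (by omega)]; omega)
      (by rw [e3, nr (-1) (-1) (by omega) (by omega) (by omega) (by omega)])
      (by rw [e4, nr (-1) 0 (by omega) (by omega) (by omega) (by omega)])
    have e5 : ((x1 + -1, p.2 + 0) : ℤ × ℤ) = (x1 - 1, p.2) := by
      refine Prod.ext ?_ ?_ <;> simp; ring
    rw [e4, e5] at a6
    obtain rfl := side_idx X.lt0 hj (X.c0.trans a6.symm) (by have := X.k0; omega)
    have hD : lt (x1, p.2 - 1) ∉ Del S.P.Q (2 * h) p := by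
      rw [X.del_iff]; simp
    rw [X.wp_iff hh hi a1 hD]
    unfold KC
    simp only
    rcases a7 with rfl | ⟨rfl, m2, m3⟩ <;> omega
  rw [hup, hdn]

/-- **the glued world is a world** -/
theorem wldV (hh : 2 ≤ h) (X : ExH S h p x1) (hT : T ⊆ EE S h) :
    WldX (EE S h : Set (ℤ × ℤ)) (Lam3 S h : Set (ℤ × ℤ)) (Del S.P.Q (2 * h) p) (T ∪ Wp S h p)
      (FF S h p) := by
  obtain ⟨t0, X⟩ := X.toT hh
  have hn : (0 : ℤ) < 2 * h := by omega
  refine ⟨Finset.finite_toSet _, fun e he => lam_odd (by omega) he, fun e he => EE_Lam he,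
    fun e he c hs => lay_v (by omega) he hs,
    fun P e c c' h1 h2 h3 h4 h5 h6 h7 h8 h9 h10 h11 h12 =>
      X.nxt_v hh hT h1 h2 h3 h4 h5 h6 h7 h8 h9 h10 h11 h12, ?_, ?_⟩
  · intro e heL heD heQ P hPB hP hs
    have ho : (e.1 + e.2) % 2 = 1 := lam_odd (by omega) heL
    rw [← lt_tt ho] at heL heD heQ hs ⊢
    rw [mem_EE (by omega)] at heQ
    obtain ht := X.del_out heD heQ
    rw [ht] at heL heD heQ hs ⊢
    clear ht ho
    have eu : up (lt (x1, p.2)) = lt (x1, p.2 + 1) := by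
      unfold up lt
      refine Prod.ext ?_ ?_ <;> simp only <;> ring
    have ed : Pool.Agent.H13.W.dn (lt (x1, p.2)) = lt (x1, p.2 - 1) := by
      unfold Pool.Agent.H13.W.dn lt
      refine Prod.ext ?_ ?_ <;> simp only <;> ring
    rw [eu, ed]
    have d0 : dir ((1 : ℤ) - 1) = (1, 0) := rfl
    have qu : ct (2 * (h : ℤ)) (x1, p.2 + 1) ∉ S.P.Q := X.out 1 (by omega) (by omega)
    have qd : ct (2 * (h : ℤ)) (x1, p.2 - 1) ∉ S.P.Q := X.out (-1) (by omega) (by omega)
    have iu : ct (2 * (h : ℤ)) ((x1, p.2 + 1) - dir ((1 : ℤ) - 1)) ∈ S.P.Q := by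
      have := X.inl 1 (by omega) (by omega)
      rw [d0]
      convert this using 2
      refine Prod.ext ?_ ?_ <;> simp
    have id : ct (2 * (h : ℤ)) ((x1, p.2 - 1) - dir ((1 : ℤ) - 1)) ∈ S.P.Q := by
      have := X.inl (-1) (by omega) (by omega)
      rw [d0]
      convert this using 2
      refine Prod.ext ?_ ?_ <;> simp <;> ring
    have i0 : ct (2 * (h : ℤ)) (x1 - 1, p.2) ∈ S.P.Q := by
      have := X.inl 0 (by omega) (by omega)
      rwa [add_zero] at this
    -- the point is at the left side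
    have hV : ∃ V, P = pv V ∧ V.1 = x1 := by
      have h1 : ∃ c, sq c (lt (x1, p.2)) ∧ sq c P := by
        rcases hs with h1 | h1
        · exact ⟨_, Pool.Agent.H45.W.sq_eN _, h1⟩
        · exact ⟨_, Pool.Agent.H45.W.sq_eS _, h1⟩
      obtain ⟨c, h1, h2⟩ := h1
      obtain ⟨V, k, rfl, h4, -, -⟩ := dec (lt_odd _) hP h1 h2
      refine ⟨V, rfl, ?_⟩
      have h5 := corner_of (lt_inj h4).symm
      have h6 := PB_pv (fun e he => lam_odd (S := S) (H := h) (by omega) (EE_Lam he)) k hPB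
      simp only [mem_EE (S := S) (h := h) (by omega), X.tiles hh h5, Prod.fst_add] at h6
      have h7 : ∀ j, (io j).1 = 0 ∨ (io j).1 = -1 := by
        intro j
        rcases io_dir j with ⟨-, a, -⟩ | ⟨-, a, -⟩ | ⟨-, a, -⟩ | ⟨-, a, -⟩ <;> rw [a] <;> simp
      have b0 := h7 k
      have b1 := h7 (k + 1)
      have b2 := h7 (k + 2)
      have b3 := h7 (k + 3)
      omega
    obtain ⟨V, rfl, hV1⟩ := hV
    refine ⟨⟨wall_lam (by omega) (k := 1) qu iu, ?_, ?_⟩, ⟨wall_lam (by omega) (k := 1) qd id, ?_, ?_⟩,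
      ?_, ?_, ?_⟩
    · rw [X.del_iff]; simp
    · rw [mem_EE (by omega)]; exact qu
    · rw [X.del_iff]; simp
    · rw [mem_EE (by omega)]; exact qd
    · rw [mem_w (by omega) hT qu, mem_w (by omega) hT qd]
      exact X.opp hh
    · intro h1
      have h2 : V.2 = p.2 + 1 := by
        unfold Pool.Agent.H45.W.sq eN lt pv at h1
        simp only at h1
        omega
      have h3 : Pool.Agent.H13.W.dn (pv V) = pv (x1, p.2) := by
        unfold Pool.Agent.H13.W.dn pv
        refine Prod.ext ?_ ?_ <;> simp only <;> omega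
      rw [h3]
      refine PB_mk (k := 1) ?_
      rw [mem_EE (by omega)]
      have e1 : io 1 = (-1, 0) := rfl
      rw [e1]
      convert i0 using 2
      refine Prod.ext ?_ ?_ <;> simp; ring
    · intro h1
      have h2 : V.2 = p.2 := by
        unfold Pool.Agent.H45.W.sq eS lt pv at h1
        simp only at h1
        omega
      have h3 : up (pv V) = pv (x1, p.2 + 1) := by
        unfold up pv
        refine Prod.ext ?_ ?_ <;> simp only <;> omega
      rw [h3]
      refine PB_mk (k := 2) ?_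
      rw [mem_EE (by omega)]
      have e1 : io 2 = (-1, -1) := rfl
      rw [e1]
      convert i0 using 2
      refine Prod.ext ?_ ?_ <;> simp; ring
  · intro e heL heD
    have ho : (e.1 + e.2) % 2 = 1 := lam_odd (by omega) heL
    rw [← lt_tt ho] at heL heD ⊢
    obtain ⟨t, ht⟩ : ∃ t, t = tt e := ⟨_, rfl⟩
    rw [← ht] at heL heD ⊢
    have hd := X.del_iff.1 heD
    obtain ⟨h1, h2, h3⟩ := hd
    have er : Pool.Agent.H45.W.rt (lt t) = lt (t.1 + 1, t.2) := by
      unfold Pool.Agent.H45.W.rt lt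
      refine Prod.ext ?_ ?_ <;> simp only <;> ring
    have el : Pool.Agent.H45.W.lf (lt t) = lt (t.1 - 1, t.2) := by
      unfold Pool.Agent.H45.W.lf lt
      refine Prod.ext ?_ ?_ <;> simp only <;> ring
    rw [er, el]
    constructor
    · right
      rcases lt_or_eq_of_le h3 with h4 | h4
      · left
        rw [X.del_iff]
        exact ⟨h1, by simp only; omega, by simp only; omega⟩
      · right
        have h5 : FarT (2 * h) S.P.Q (t.1 + 1, t.2) := by
          intro a b a0 a1 b0 b1 h6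
          have e1 : ((t.1 + 1, t.2) + (a, b) : ℤ × ℤ) = (x1 + (1 + a), p.2 + b) := by
            refine Prod.ext ?_ ?_ <;> simp only [Prod.fst_add, Prod.snd_add] <;> omega
          rw [e1, X.near hh (by omega) (by omega) b0 b1] at h6
          omega
        exact (lamV3 (S := S) (h := h) (by omega)).far _ h5
    · by_cases h4 : t.1 = p.1
      · left; left
        have : t = p := Prod.ext h4 h1
        rw [this]
        rfl
      · right; left
        rw [X.del_iff]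
        exact ⟨h1, by simp only; omega, by simp only; omega⟩

end

end Pool.Agent.H97.W
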