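import Mathlib
import Pool.Agent.H97.W.WldV
import Pool.Agent.H97.W.Side

set_option autoImplicit false
open Finset

/-! # The far ends of the glued world, and the side condition

`exH_of` : the exit, if the row of `p` is not the first or the last row of its cell. `ends_V` : partners of
the far ends and of the interior end. `endsH : EndsH`. `stSide_proof : StSide`. -/

namespace Pool.Agent.H97.W

open Pool.Agent.H75.Perc hiding WL CT hh PB EE
open Pool.Agent.H75.TwoArm Pool.Agent.H99.W Pool.Agent.H13.W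
open Pool.Agent.H33.Q1 Pool.Agent.H21.FM
open Pool.Agent.Q1.M4 (Cell Good IsSide nextSide tail head PType)
open Pool.Agent.H45.W (sq od ev Pass AS)
open Pool.Agent.H47.W (sd hz vt lamV3 FarT ott ott_one ott_zero ct_ott posN vx3 vx3_lt vx3_inj vx3_mk
  dg_ott eW_isEnd yy_isEnd yy_ne mem_Del_self)
open Pool.Agent.H74.W (Lam3 Del Ex Wp yy GW Cv Aft mem_Wp)
open Pool.Agent.H29.W (WldX)
open Pool.Agent.H37.W (dg dg_eq dg_inj)

section

variable {S : Shape} {h : ℕ} {p t t' V P c : ℤ × ℤ} {x1 : ℤ} {t0 : ℕ} {T : Finset (ℤ × ℤ)}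

/-! ### The exit -/

lemma ct_row {n : ℤ} (hn : 0 < n) {x y b : ℤ} (h1 : y % n ≠ 0) (h2 : (y + 1) % n ≠ 0) (b0 : -1 ≤ b)
    (b1 : b ≤ 1) : ct n (x, y + b) = ct n (x, y) := by
  unfold ct
  refine Prod.ext rfl ?_
  simp only
  have e1 := Int.mul_ediv_add_emod y n
  have e2 := Int.emod_nonneg y hn.ne'
  have e3 := Int.emod_lt_of_pos y hn
  have e4 : y % n + 1 ≠ n := by
    intro e
    apply h2
    rw [← e1, add_assoc, e, Int.mul_add_emod_self_left, Int.emod_self]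
  have e5 : y + b = (y % n + b) + n * (y / n) := by linarith
  rw [e5, Int.add_mul_ediv_left _ _ hn.ne', Int.ediv_eq_zero_of_lt (by omega) (by omega), zero_add]

/-- **existence of the exit** -/
theorem exH_of (hh : 1 ≤ h) (hp : ct (2 * (h : ℤ)) p ∈ S.P.Q) (h1 : p.2 % (2 * (h : ℤ)) ≠ 0)
    (h2 : (p.2 + 1) % (2 * (h : ℤ)) ≠ 0) : ∃ x1, ExH S h p x1 := by
  classical
  have hn : (0 : ℤ) < 2 * h := by omega
  -- a column outside
  have hex : ∃ k : ℕ, ct (2 * (h : ℤ)) (p.1 + k, p.2) ∉ S.P.Q := by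
    by_contra hcon
    push Not at hcon
    have hinj : Function.Injective fun k : ℕ => ct (2 * (h : ℤ)) (p.1 + ((2 * h * k : ℕ) : ℤ), p.2) := by
      intro a b hab
      simp only at hab
      have h3 := congrArg Prod.fst hab
      unfold ct at h3
      simp only at h3
      have e : ∀ k : ℕ, (p.1 + ((2 * h * k : ℕ) : ℤ)) / (2 * (h : ℤ)) = p.1 / (2 * h) + k := by
        intro k
        push_cast
        exact Int.add_mul_ediv_left _ _ hn.ne'
      rw [e, e] at h3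
      exact_mod_cast add_left_cancel h3
    have h3 : Set.Infinite (Set.range fun k : ℕ =>
        ct (2 * (h : ℤ)) (p.1 + ((2 * h * k : ℕ) : ℤ), p.2)) := Set.infinite_range_of_injective hinj
    apply h3
    refine (Finset.finite_toSet S.P.Q).subset ?_
    rintro _ ⟨k, rfl⟩
    exact hcon _
  have hmin := fun m => Nat.find_min hex (m := m)
  have hsp := Nat.find_spec hex
  set k := Nat.find hex with hk
  have k0 : k ≠ 0 := by
    intro e
    rw [e] at hsp
    simp only [Nat.cast_zero, add_zero] at hsp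
    exact hsp hp
  refine ⟨p.1 + k, by omega, fun x hx hx' => ?_, fun b b0 b1 => ?_, fun b b0 b1 => ?_⟩
  · have h3 := hmin (x - p.1).toNat (by omega)
    rw [not_not] at h3
    have e : p.1 + ((x - p.1).toNat : ℤ) = x := by omega
    rwa [e] at h3
  · rw [ct_row hn h1 h2 b0 b1]
    exact hsp
  · rw [ct_row hn h1 h2 b0 b1]
    have h3 := hmin (k - 1) (by omega)
    rw [not_not] at h3
    have e : p.1 + ((k - 1 : ℕ) : ℤ) = p.1 + k - 1 := by omega
    rwa [e] at h3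

/-! ### The vertex of a mark -/

/-- **the vertex of a mark** is convex -/
lemma mark_vertex (hh : 1 ≤ h) (j : Fin 3) : ∃ (V : ℤ × ℤ) (k : ℤ),
    ct (2 * (h : ℤ)) (V + io (k + 1)) ∈ S.P.Q ∧ ct (2 * (h : ℤ)) (V + io (k + 2)) ∉ S.P.Q ∧
      ct (2 * (h : ℤ)) (V + io (k - 1)) ∉ S.P.Q ∧ ct (2 * (h : ℤ)) (V + io k) ∉ S.P.Q ∧
      lt (V + io (k - 1)) = dg S h (vx3 S j) := by
  have hn : (0 : ℤ) < 2 * h := by omega
  set i := vx3 S j with hi
  set s := S.P.side i with hs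
  have hside := isSide_side' S.P i
  rw [← hs] at hside
  have hc : S.P.side (i + 1) = ((S.P.side i).1, (S.P.side i).2 + 1) :=
    (lamV3 (S := S) (h := h) hh).cvx i (vx3_mk j)
  obtain ⟨c1, c2⟩ := Pool.Agent.H47.W.cvx_cells hc
  rw [← hs] at c1 c2
  refine ⟨wp (2 * h) s (2 * h), s.2, ?_⟩
  set V := wp (2 * (h : ℤ)) s (2 * h) with hV
  obtain ⟨f1, f2, f3, f4⟩ := fL V s.2
  have eR : V + io s.2 = ott (2 * h) s (2 * h) 0 := by rw [ott_zero]; rfl
  have eG : V + io (s.2 - 1) = ott (2 * h) s (2 * h) 1 := by rw [f3, ott_one]; rfl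
  have ef : V + io (s.2 + 1) = it (2 * h) s (2 * h - 1) := by
    have h1 : V + io (s.2 + 1) = V + io s.2 - dir s.2 := by rw [f2]; abel
    rw [h1, hV]
    unfold it wp
    refine Prod.ext ?_ ?_ <;> simp only [Prod.fst_add, Prod.snd_add, Prod.fst_sub, Prod.snd_sub] <;>
      ring
  have eL : V + io (s.2 + 2) = Pool.Agent.H33.Q1.ot (2 * h) s (2 * h - 1) := by
    rw [f4, ef]; rfl
  refine ⟨?_, ?_, ?_, ?_, ?_⟩
  · rw [ef, ct_it s (by omega) (by omega)]
    exact hside.1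
  · rw [eL, ct_ot s (by omega) (by omega)]
    exact hside.2
  · rw [eG, ct_ott hn s (a := 1) (b := 1) (by omega) (by omega) (by omega) (by omega)]
    convert c2 using 2
    refine Prod.ext ?_ ?_ <;> simp <;> ring
  · rw [eR, ct_ott hn s (a := 1) (b := 0) (by omega) (by omega) (by omega) (by omega)]
    convert c1 using 2
    refine Prod.ext ?_ ?_ <;> simp
  · rw [eG, hs, dg_ott, Nat.mod_eq_of_lt (vx3_lt j)]

/-- **a far end is a visited side with a neighbour** -/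
theorem ExT.yy_as (X : ExT S h p x1 t0) (hh : 2 ≤ h) (hT : T ⊆ EE S h) (j : Fin 3) :
    AS (EE S h : Set (ℤ × ℤ)) (Lam3 S h : Set (ℤ × ℤ)) (Del S.P.Q (2 * h) p) (T ∪ Wp S h p)
      (FF S h p) (yy S h p j) ∧ ∃ x, (GW S h p T).Adj (yy S h p j) x := by
  classical
  obtain ⟨V, k, hf, hL, hG, hR, hd⟩ := mark_vertex (S := S) (h := h) (by omega) j
  obtain ⟨hev, dL, dG, dR, wG, lL, lR, hm⟩ := X.cvx hh hf hL hG hR
  have nG : lt (V + io (k - 1)) ∉ (Lam3 S h : Set (ℤ × ℤ)) := by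
    have h1 := (lamV3 (S := S) (h := h) (by omega)).mark (vx3 S j) (vx3_mk j)
    rw [dg_ott, Nat.mod_eq_of_lt (vx3_lt j), ← hd] at h1
    exact h1
  rcases hm with ⟨h1, -⟩ | ⟨-, j', h1, h2⟩
  · exact absurd h1 nG
  have hj : j' = j := vx3_inj (dg_inj (by omega) (vx3_lt j') (vx3_lt j) (h1.symm.trans hd))
  rw [hj] at h2
  have hF : yy S h p j ∈ FF S h p := Or.inr ⟨j, rfl⟩
  have hPB : Pool.Agent.H45.W.PB (EE S h : Set (ℤ × ℤ)) (pv V) :=
    PB_mk (k := k + 1) ((mem_EE (by omega)).2 hf)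
  have hP : ev (pv V) := by unfold Pool.Agent.H45.W.ev pv; simp only; omega
  obtain ⟨o1, o2⟩ := oo_sd V k
  rcases h2 with ⟨e1, w1, -⟩ | ⟨e1, w1, -⟩
  · -- the tile `k`
    rw [e1] at hF ⊢
    obtain ⟨s1, s2, s3⟩ := sq_sd V k
    refine ⟨Or.inr ⟨pv V, hP, s3, hPB, fun e he hs => ?_⟩, ?_⟩
    · rcases Pool.Agent.H45.W.lab_cases' (lt_odd (V + io k)) s1 he hs with h3 | h3
      · rw [h3]
        exact pass_cl (by omega) hT hev lR dR w1 hR
      · rw [h3, o1]
        exact Or.inr (Or.inr ⟨nG, hF⟩)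
    · obtain ⟨d, hd⟩ := Pool.Agent.H45.W.exists_nb (w := T ∪ Wp S h p) (lt_odd (V + io k)) s1
        (Or.inl dR)
      exact ⟨d, _, lR, hd⟩
  · -- the tile `k + 2`
    rw [e1] at hF ⊢
    obtain ⟨s1, s2, s3⟩ := sq_sd V (k - 1)
    have e2 : io (k - 1 - 1) = io (k + 2) := io_congr (by omega)
    rw [e2] at s2
    have o3 : Pool.Agent.H45.W.ot (sd V (k - 1)) (lt (V + io (k - 1))) = lt (V + io (k + 2)) := by
      rw [(oo_sd V (k - 1)).1, e2]
    refine ⟨Or.inr ⟨pv V, hP, s3, hPB, fun e he hs => ?_⟩, ?_⟩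
    · rcases Pool.Agent.H45.W.lab_cases' (lt_odd (V + io (k - 1))) s1 he hs with h3 | h3
      · rw [h3]
        exact Or.inr (Or.inr ⟨nG, hF⟩)
      · rw [h3, o3]
        exact pass_cl (by omega) hT hev lL dL w1 hL
    · obtain ⟨d, hd⟩ := Pool.Agent.H45.W.exists_nb (w := T ∪ Wp S h p) (lt_odd (V + io (k + 2))) s2
        (Or.inl dL)
      exact ⟨d, _, lL, hd⟩

/-- **the interior end is a visited side with a neighbour** -/
theorem eW_as (hh : 2 ≤ h) (hp : ct (2 * (h : ℤ)) p ∈ S.P.Q) :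
    AS (EE S h : Set (ℤ × ℤ)) (Lam3 S h : Set (ℤ × ℤ)) (Del S.P.Q (2 * h) p) (T ∪ Wp S h p)
      (FF S h p) (eW (lt p)) ∧ ∃ x, (GW S h p T).Adj (eW (lt p)) x := by
  classical
  have h1 := (mem_EE (S := S) (h := h) (by omega) (u := p)).2 hp
  refine ⟨Or.inl ⟨lt p, h1, Pool.Agent.H45.W.sq_eW _⟩, ?_⟩
  have h2 := lay_v (by omega) h1 (Pool.Agent.H45.W.sq_eW (lt p))
  have h3 : Pool.Agent.H45.W.ot (eW (lt p)) (lt p) = lt (p.1 - 1, p.2) := by
    rw [Pool.Agent.H45.W.ot_eW]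
    unfold Pool.Agent.H45.W.lf lt
    refine Prod.ext ?_ ?_ <;> simp only <;> ring
  have h4 : sq (eW (lt p)) (lt (p.1 - 1, p.2)) := by
    rw [← h3]
    exact Pool.Agent.H45.W.sq_ot (Pool.Agent.H45.W.sq_eW _)
  have h5 : lt (p.1 - 1, p.2) ∉ Del S.P.Q (2 * h) p := by
    rw [lt_mem_Del]
    rintro ⟨-, h6, -⟩
    simp only at h6
    omega
  rw [h3] at h2
  obtain ⟨d, hd⟩ := Pool.Agent.H45.W.exists_nb (w := T ∪ Wp S h p) (lt_odd (p.1 - 1, p.2)) h4
    (Or.inl h5)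
  exact ⟨d, _, h2, hd⟩

/-- the far ends are not the interior end -/
lemma yy_ne_eW (hh : 2 ≤ h) (hp : ct (2 * (h : ℤ)) p ∈ S.P.Q) (j : Fin 3) :
    yy S h p j ≠ eW (lt p) := by
  intro e
  obtain ⟨b, e1⟩ := Pool.Agent.H47.W.yy_mark (S := S) (h := h) p j
  have h1 := (mem_EE (S := S) (h := h) (by omega) (u := p)).2 hp
  exact (Pool.Agent.H47.W.del_mark (by omega) (lamV3 (S := S) (h := h) (by omega)) (vx3_mk j) b hp
    (EE_Lam h1) (mem_Del_self p)).1 (e.symm.trans e1)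

/-- **the far ends** -/
theorem ends_V (hh : 2 ≤ h) (X : ExH S h p x1) (hp : ct (2 * (h : ℤ)) p ∈ S.P.Q)
    (hT : T ⊆ EE S h) :
    (∀ j : Fin 3, ∃ c, (c = eW (lt p) ∨ c = yy S h p (j + 1) ∨ c = yy S h p (j + 2)) ∧
      c ≠ yy S h p j ∧ (GW S h p T).Reachable (yy S h p j) c) ∧
    ∃! j : Fin 3, (GW S h p T).Reachable (eW (lt p)) (yy S h p j) := by
  have W := wldV hh X hT
  obtain ⟨t0, Y⟩ := X.toT hh
  constructor
  · intro j
    obtain ⟨a1, a2⟩ := Y.yy_as hh hT j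
    obtain ⟨y, y1, y2, y3, y4, y5⟩ := W.far_exists a1 (yy_isEnd hh p j) a2
    refine ⟨y, ?_, y2, y5⟩
    rcases y1 with y1 | ⟨j', y1⟩
    · exact Or.inl y1
    · right
      have h1 : j' ≠ j := by
        rintro rfl
        exact y2 y1.symm
      have h2 : j' = j + 1 ∨ j' = j + 2 := by omega
      rcases h2 with rfl | rfl
      · exact Or.inl y1.symm
      · exact Or.inr y1.symm
  · obtain ⟨a1, a2⟩ := eW_as (T := T) hh hp
    obtain ⟨y, y1, y2, y3, y4, y5⟩ := W.far_exists a1 (eW_isEnd p) a2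
    rcases y1 with y1 | ⟨j, y1⟩
    · exact absurd y1 y2
    · refine ⟨j, by simp only; rw [y1]; exact y5, fun j' hj' => ?_⟩
      simp only at hj'
      by_contra hne
      have h1 := Pool.Agent.H45.W.far_unique (c := eW (lt p)) (y := y) (y' := yy S h p j')
        (eW_isEnd (S := S) (h := h) (ω := T) p) y3 (yy_isEnd hh p j') y2 (yy_ne_eW hh hp j') y5 hj'
      exact yy_ne hh p hne (h1.trans y1.symm)

end

/-- **the far ends**: the hypothesis of `stSide_of` -/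
theorem endsH : EndsH := by
  intro S H p hH hp h1 h2 ω hω
  obtain ⟨x1, X⟩ := exH_of (S := S) (h := H) (by omega) hp h1 h2
  exact ends_V hH X hp hω

/-- **(P-B)** The side condition. -/
theorem stSide_proof : Pool.Agent.H74.W.StSide := stSide_of endsH

end Pool.Agent.H97.W
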